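import Pool.Agent.J4H92.CT.Flex4
import Pool.Agent.J4H92.CP.Family

/-!
# Products of trees: the generic rank in space
-/

set_option autoImplicit false

namespace Pool.Agent.J4H92.CT

open SimpleGraph Pool.Agent.J4H92.CP Pool.Agent.H789R5 Pool.Agent.H283R2.DR

theorem count_few (l : List (ℕ × (ℕ → ℕ))) : ∀ j, j + l.length ≤ 3 →
    (∀ x ∈ l, 1 ≤ x.1 ∧ Va x.1 x.2) →
    eL (l.map fun x => fT x.1 x.2) + Fc j (l.map Prod.fst) + j * nL (l.map fun x => fT x.1 x.2) =
      3 * nL (l.map fun x => fT x.1 x.2) := by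
  induction l with
  | nil =>
    intro j hj _
    simp only [List.map_nil, eL_nil, nL_nil, Fc]
    simp only [List.length_nil] at hj
    omega
  | cons x l ih =>
    intro j hj hx
    rw [List.length_cons] at hj
    have h1 := ih j (by omega) fun y hy => hx y (List.mem_cons_of_mem _ hy)
    have h2 := ih (j + 1) (by omega) fun y hy => hx y (List.mem_cons_of_mem _ hy)
    obtain ⟨x1, x2⟩ := hx x List.mem_cons_self
    have e : (fT x.1 x.2).G.edgeSet.ncard = x.1 - 1 := ncard_Ta x2
    simp only [List.map_cons, eL_cons, nL_cons, Fc, e, cd_fT]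
    obtain ⟨t, ht⟩ := Nat.exists_eq_add_of_le x1
    rw [ht, Nat.add_sub_cancel_left]
    generalize nL (l.map fun x => fT x.1 x.2) = N at *
    generalize eL (l.map fun x => fT x.1 x.2) = E at *
    generalize Fc j (l.map Prod.fst) = F at *
    generalize Fc (j + 1) (l.map Prod.fst) = F' at *
    have h3 : t * (E + F' + (j + 1) * N) = t * (3 * N) := by rw [h2]
    nlinarith

/-- standard trees with the same orders -/
theorem standard (L : List FG) (hN : ∀ A ∈ L, Nt A) (hT : ∀ A ∈ L, A.G.IsAcyclic) :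
    ∃ l : List (ℕ × (ℕ → ℕ)), l.map Prod.fst = L.map CP.cd ∧
      (∀ x ∈ l, 1 ≤ x.1 ∧ Va x.1 x.2) ∧ List.Forall₂ Sp L (l.map fun x => fT x.1 x.2) ∧
      eL L = eL (l.map fun x => fT x.1 x.2) ∧ nL L = nL (l.map fun x => fT x.1 x.2) := by
  induction L with
  | nil => exact ⟨[], rfl, by simp, List.Forall₂.nil, rfl, rfl⟩
  | cons A L ih =>
    obtain ⟨l, h1, h2, h3, h4, h5⟩ := ih (fun B hB => hN B (List.mem_cons_of_mem _ hB))
      (fun B hB => hT B (List.mem_cons_of_mem _ hB))
    have hA := hN A List.mem_cons_self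
    obtain ⟨a, ha, hsp⟩ := sp_tree hA
    refine ⟨(CP.cd A, a) :: l, ?_, ?_, ?_, ?_, ?_⟩
    · rw [List.map_cons, List.map_cons, h1]
    · intro x hx
      rcases List.mem_cons.1 hx with rfl | hx
      · refine ⟨?_, ha⟩
        have := hA.2
        show 1 ≤ Fintype.card A.V
        omega
      · exact h2 x hx
    · rw [List.map_cons]
      exact List.Forall₂.cons hsp h3
    · have e : (fT (CP.cd A) a).G.edgeSet.ncard = CP.cd A - 1 := ncard_Ta ha
      have e' := tree_e hA (hT A List.mem_cons_self)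
      simp only [List.map_cons, eL_cons, e, cd_fT, h4, h5]
      have e'' : A.G.edgeSet.ncard = CP.cd A - 1 := by omega
      rw [e'']
      rfl
    · simp only [List.map_cons, nL_cons, cd_fT, h5]
      rfl

theorem dof (L : List FG) (hN : ∀ A ∈ L, Nt A) (hT : ∀ A ∈ L, A.G.IsAcyclic) :
    ∃ k, MuL 0 k L ∧ (k = 6 ∨ eL L + k = 3 * nL L) := by
  classical
  rcases Nat.lt_or_ge L.length 4 with h4 | h4
  · obtain ⟨l, h1, h2, h3, h5, h6⟩ := standard L hN hT
    have hl : l.length = L.length := by
      have := congrArg List.length h1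
      rwa [List.length_map, List.length_map] at this
    refine ⟨Fc 0 (l.map Prod.fst), MuL.spanning h3 (few l 0 (by omega) h2), Or.inr ?_⟩
    have := count_few l 0 (by omega) h2
    rw [h5, h6]
    omega
  · rcases Nat.lt_or_ge L.length 5 with h5 | h5
    · have hlen : L.length = 4 := by omega
      let r : FG → FG → Prop := fun A B => CP.cd A ≤ CP.cd B
      have : Std.Total r := ⟨fun A B => le_total (CP.cd A) (CP.cd B)⟩
      have : IsTrans FG r := ⟨fun A B C h1 h2 => le_trans (α := ℕ) h1 h2⟩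
      have hperm := List.perm_insertionSort r L
      have hpw := List.pairwise_insertionSort r L
      obtain ⟨A, B, C, D, he⟩ := len_four (hperm.length_eq.trans hlen)
      rw [he] at hperm hpw
      have hN' : ∀ X ∈ [A, B, C, D], Nt X := fun X hX => hN X (hperm.mem_iff.1 hX)
      have hT' : ∀ X ∈ [A, B, C, D], X.G.IsAcyclic := fun X hX => hT X (hperm.mem_iff.1 hX)
      simp only [List.pairwise_cons, List.mem_cons, List.not_mem_nil, or_false] at hpw
      obtain ⟨p1, p2, p3, _⟩ := hpw
      have ab : CP.cd A ≤ CP.cd B := p1 B (Or.inl rfl)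
      have bc : CP.cd B ≤ CP.cd C := p2 C (Or.inl rfl)
      have cd' : CP.cd C ≤ CP.cd D := p3 D rfl
      have a2 : 2 ≤ CP.cd A := (hN' A (by simp)).2
      obtain ⟨e1, e2⟩ := eL_nL_perm hperm
      rw [← e1, ← e2]
      by_cases hc : CP.cd B * CP.cd C * CP.cd D + CP.cd A * CP.cd C * CP.cd D +
          CP.cd A * CP.cd B * CP.cd D + CP.cd A * CP.cd B * CP.cd C ≤
          CP.cd A * CP.cd B * CP.cd C * CP.cd D + 6
      · exact ⟨6, (four_sorted (hN' A (by simp)) (hN' B (by simp)) (hN' C (by simp))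
          (hN' D (by simp)) ab bc cd' hc).perm hperm.symm, Or.inl rfl⟩
      · obtain ⟨k, hk⟩ := Nat.exists_eq_add_of_le (show CP.cd A * CP.cd B * CP.cd C * CP.cd D ≤
          CP.cd B * CP.cd C * CP.cd D + CP.cd A * CP.cd C * CP.cd D +
          CP.cd A * CP.cd B * CP.cd D + CP.cd A * CP.cd B * CP.cd C by omega)
        have k6 : 6 ≤ k := by omega
        obtain ⟨a0, v0, s0⟩ := sp_tree (hN' A (by simp))
        obtain ⟨a1, v1, s1⟩ := sp_tree (hN' B (by simp))
        obtain ⟨a2', v2, s2⟩ := sp_tree (hN' C (by simp))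
        obtain ⟨a3, v3, s3⟩ := sp_tree (hN' D (by simp))
        have hm := flex_sorted a2 ab bc cd' hk k6 v0 v1 v2 v3
        have hm' : MuL 0 k [A, B, C, D] := MuL.spanning
          (List.Forall₂.cons s0 (List.Forall₂.cons s1 (List.Forall₂.cons s2
            (List.Forall₂.cons s3 List.Forall₂.nil)))) hm
        refine ⟨k, hm'.perm hperm.symm, Or.inr ?_⟩
        obtain ⟨c1, c2⟩ := cnt4 (by omega) (by omega) (by omega) (by omega) v0 v1 v2 v3
        have tA := tree_e (hN' A (by simp)) (hT' A (by simp))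
        have tB := tree_e (hN' B (by simp)) (hT' B (by simp))
        have tC := tree_e (hN' C (by simp)) (hT' C (by simp))
        have tD := tree_e (hN' D (by simp)) (hT' D (by simp))
        have eA : A.G.edgeSet.ncard = CP.cd A - 1 := by omega
        have eB : B.G.edgeSet.ncard = CP.cd B - 1 := by omega
        have eC : C.G.edgeSet.ncard = CP.cd C - 1 := by omega
        have eD : D.G.edgeSet.ncard = CP.cd D - 1 := by omega
        have e : ∀ {m : ℕ} {x : ℕ → ℕ}, Va m x → (fT m x).G.edgeSet.ncard = m - 1 := ncard_Ta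
        have f1 : eL [A, B, C, D] = eL [fT (CP.cd A) a0, fT (CP.cd B) a1, fT (CP.cd C) a2',
            fT (CP.cd D) a3] := by
          simp only [eL_cons, nL_cons, eL_nil, nL_nil, cd_fT, e v0, e v1, e v2, e v3, eA, eB, eC,
            eD]
          rfl
        have f2 : nL [A, B, C, D] = nL [fT (CP.cd A) a0, fT (CP.cd B) a1, fT (CP.cd C) a2',
            fT (CP.cd D) a3] := by
          simp only [nL_cons, nL_nil, cd_fT]
          rfl
        rw [f1, f2]
        omega
    · obtain ⟨h1, h2⟩ := classify L h5 hN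
      by_cases hF : Flex L
      · obtain ⟨k, _, h3, h4⟩ := h2 hF
        exact ⟨k, h3, Or.inr h4⟩
      · exact ⟨6, h1 hF, Or.inl rfl⟩

theorem rank_iso {V : Type} [Fintype V] (K : SimpleGraph V) (L : List FG)
    (e : K ≃g (prodL L).G) (hN : ∀ A ∈ L, Nt A) (hT : ∀ A ∈ L, A.G.IsAcyclic)
    (h3 : 3 ≤ Fintype.card V) :
    genRank 3 K = min K.edgeSet.ncard (3 * Fintype.card V - 6) := by
  classical
  have ev : Fintype.card V = nL L := Fintype.card_congr e.toEquiv
  have ee : K.edgeSet.ncard = eL L := by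
    unfold eL
    rw [Set.ncard_eq_toFinset_card', Set.ncard_eq_toFinset_card']
    exact e.card_edgeFinset_eq
  obtain ⟨k, h1, h2⟩ := dof L hN hT
  have r1 := rank_le K
  have r2 := rank_le' K h3
  have r3 := mu_rank (Mu.of_iso e h1)
  rcases h2 with h2 | h2 <;> omega

/-! ### The count -/

/-- sum of the numbers of vertices divided by the orders -/
def sq (L : List FG) : ℕ := (L.map fun A => nL L / CP.cd A).sum

theorem cd_dvd {L : List FG} {A : FG} (h : A ∈ L) : CP.cd A ∣ nL L := by
  induction L with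
  | nil => simp at h
  | cons B L ih =>
    rw [nL_cons]
    rcases List.mem_cons.1 h with rfl | h
    · exact Dvd.intro _ rfl
    · exact (ih h).mul_left _

theorem sq_cons {A : FG} {L : List FG} (hA : 0 < CP.cd A) :
    sq (A :: L) = nL L + CP.cd A * sq L := by
  unfold sq
  rw [List.map_cons, List.sum_cons, nL_cons]
  congr 1
  · exact Nat.mul_div_cancel_left _ hA
  · rw [← List.sum_map_mul_left]
    congr 1
    refine List.map_congr_left fun B hB => ?_
    exact Nat.mul_div_assoc _ (cd_dvd hB)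

theorem edges_sq (L : List FG) (hN : ∀ A ∈ L, Nt A) (hT : ∀ A ∈ L, A.G.IsAcyclic) :
    eL L + sq L = L.length * nL L := by
  induction L with
  | nil => simp [eL_nil, sq]
  | cons A L ih =>
    have h1 := ih (fun B hB => hN B (List.mem_cons_of_mem _ hB))
      (fun B hB => hT B (List.mem_cons_of_mem _ hB))
    have hA := hN A List.mem_cons_self
    have e' := tree_e hA (hT A List.mem_cons_self)
    have h2 : 0 < CP.cd A := by omega
    rw [eL_cons, sq_cons h2, nL_cons, List.length_cons]
    have e1 : Fintype.card A.V = CP.cd A := rfl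
    rw [e1, ← e']
    generalize A.G.edgeSet.ncard = x
    nlinarith

theorem tree_fam {ι : Type} [Fintype ι] {V : ι → Type} [∀ i, Fintype (V i)]
    [Fintype (∀ i, V i)] (G : ∀ i, SimpleGraph (V i)) (hG : ∀ i, (G i).IsTree)
    (hV : ∀ i, 2 ≤ Fintype.card (V i)) (h3 : 3 ≤ Fintype.card (∀ i, V i)) :
    genRank 3 (famProd G) = min (famProd G).edgeSet.ncard (3 * Fintype.card (∀ i, V i) - 6) ∧
    (GenRigid 3 (famProd G) ↔
      3 * Fintype.card (∀ i, V i) ≤ (famProd G).edgeSet.ncard + 6) ∧
    (GenRigid 3 (famProd G) ↔ 3 * Fintype.card (∀ i, V i) +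
      ∑ i, Fintype.card (∀ i, V i) / Fintype.card (V i) ≤
        Fintype.card ι * Fintype.card (∀ i, V i) + 6) := by
  classical
  let e : ι ≃ Fin (Fintype.card ι) := Fintype.equivFin ι
  obtain ⟨f⟩ := fam_iso (Fintype.card ι) (fun k => V (e.symm k)) (fun k => G (e.symm k))
  have hlen : (famL fun k => G (e.symm k)).length = Fintype.card ι := List.length_ofFn
  have hmem : ∀ A ∈ (famL fun k => G (e.symm k)), ∃ i, A = ⟨V i, inferInstance, G i⟩ := by
    intro A hA
    obtain ⟨k, hk⟩ := (List.mem_ofFn' _ _).1 hA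
    exact ⟨e.symm k, hk.symm⟩
  have hN : ∀ A ∈ (famL fun k => G (e.symm k)), Nt A := by
    intro A hA
    obtain ⟨i, rfl⟩ := hmem A hA
    exact ⟨(hG i).connected, hV i⟩
  have hT : ∀ A ∈ (famL fun k => G (e.symm k)), A.G.IsAcyclic := by
    intro A hA
    obtain ⟨i, rfl⟩ := hmem A hA
    exact (hG i).isAcyclic
  let g : famProd G ≃g (prodL (famL fun k => G (e.symm k))).G := (famRe e G).trans f
  have hr := rank_iso (famProd G) _ g hN hT h3
  have hg := Pool.Agent.TH409.RG.rigid_iff_of_rank h3 hr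
  have ev : Fintype.card (∀ i, V i) = nL (famL fun k => G (e.symm k)) :=
    Fintype.card_congr g.toEquiv
  have ee : (famProd G).edgeSet.ncard = eL (famL fun k => G (e.symm k)) := by
    unfold eL
    rw [Set.ncard_eq_toFinset_card', Set.ncard_eq_toFinset_card']
    exact g.card_edgeFinset_eq
  have hs : sq (famL fun k => G (e.symm k)) =
      ∑ i, Fintype.card (∀ i, V i) / Fintype.card (V i) := by
    unfold sq
    rw [← ev]
    have hmap : (famL fun k => G (e.symm k)).map
        (fun A => Fintype.card (∀ i, V i) / CP.cd A) =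
        List.ofFn fun k => Fintype.card (∀ i, V i) / Fintype.card (V (e.symm k)) := by
      unfold famL
      rw [List.map_ofFn]
      rfl
    rw [hmap, List.sum_ofFn]
    exact Equiv.sum_comp e.symm (fun i => Fintype.card (∀ i, V i) / Fintype.card (V i))
  refine ⟨hr, hg, hg.trans ?_⟩
  have hc := edges_sq _ hN hT
  rw [hlen, hs, ← ev, ← ee] at hc
  omega

end Pool.Agent.J4H92.CT
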