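import Pool.Agent.J4H92.CT.Sound4
import Pool.Agent.J4H92.CP.ListP

/-!
# Four trees of given orders and arbitrary shapes
-/

set_option autoImplicit false

namespace Pool.Agent.J4H92.CT

open Module SimpleGraph Pool.Agent.J4H92.CP

/-- valid parent functions -/
def Va (m : ℕ) (a : ℕ → ℕ) : Prop := ∀ i < m, 0 < i → a i < i

/-- the rooted tree of a parent function -/
def parOf (n : ℕ) (a : ℕ → ℕ) (ha : Va (n + 1) a) : Par n where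
  p v := if h : v = 0 then 0 else
    ⟨a v, (ha v v.2 (Nat.pos_of_ne_zero fun h' => h (Fin.ext h'))).trans v.2⟩
  lt v hv := by
    rw [dif_neg hv]
    exact ha v v.2 (Nat.pos_of_ne_zero fun h' => hv (Fin.ext h'))
  zero := dif_pos rfl

theorem tg_ta {n : ℕ} {a : ℕ → ℕ} (ha : Va (n + 1) a) {x y : Fin (n + 1)}
    (h : (Tg (parOf n a ha)).Adj x y) : (Ta (n + 1) a).Adj x y := by
  have key : ∀ v : Fin (n + 1), v ≠ 0 → ((parOf n a ha).p v : ℕ) = a v := by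
    intro v hv
    show ((if h : v = 0 then 0 else _ : Fin (n + 1)) : ℕ) = _
    rw [dif_neg hv]
  have pos : ∀ v : Fin (n + 1), v ≠ 0 → 0 < (v : ℕ) := fun v hv =>
    Nat.pos_of_ne_zero fun h' => hv (Fin.ext h')
  obtain ⟨h1, ⟨h2, h3⟩ | ⟨h2, h3⟩⟩ := h
  · exact ⟨h1, Or.inl ⟨pos y h2, by rw [h3, key y h2]⟩⟩
  · exact ⟨h1, Or.inr ⟨pos x h2, by rw [h3, key x h2]⟩⟩

theorem muL_shape {n0 n1 n2 n3 k : ℕ} {a0 a1 a2 a3 : ℕ → ℕ} (h0 : Va (n0 + 1) a0)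
    (h1 : Va (n1 + 1) a1) (h2 : Va (n2 + 1) a2) (h3 : Va (n3 + 1) a3)
    (h : Mu 0 k (G4 (parOf n0 a0 h0) (parOf n1 a1 h1) (parOf n2 a2 h2) (parOf n3 a3 h3))) :
    MuL 0 k [fT (n0 + 1) a0, fT (n1 + 1) a1, fT (n2 + 1) a2, fT (n3 + 1) a3] := by
  let e : (prodL [fT (n0 + 1) a0, fT (n1 + 1) a1, fT (n2 + 1) a2, fT (n3 + 1) a3]).V ≃
      V4 n0 n1 n2 n3 :=
    { toFun := fun x => (x.1, x.2.1, x.2.2.1, x.2.2.2.1)
      invFun := fun x => (x.1, x.2.1, x.2.2.1, x.2.2.2, ())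
      left_inv := fun _ => rfl
      right_inv := fun _ => rfl }
  refine h.pull e ?_
  rintro ⟨x0, x1, x2, x3⟩ ⟨y0, y1, y2, y3⟩ hxy
  rcases hxy with ⟨h, h'⟩ | ⟨⟨h, h'⟩ | ⟨⟨h, h'⟩ | ⟨h, h'⟩, h''⟩, h'''⟩
  · simp only [Prod.mk.injEq] at h'
    obtain ⟨rfl, rfl, rfl⟩ := h'
    exact Or.inl ⟨tg_ta h0 h, rfl⟩
  · simp only [Prod.mk.injEq] at h' h'''
    obtain ⟨rfl, rfl⟩ := h'
    subst h'''
    exact Or.inr ⟨Or.inl ⟨tg_ta h1 h, rfl⟩, rfl⟩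
  · simp only at h' h'' h'''
    subst h' h'' h'''
    exact Or.inr ⟨Or.inr ⟨Or.inl ⟨tg_ta h2 h, rfl⟩, rfl⟩, rfl⟩
  · simp only at h h' h'' h'''
    subst h' h'' h'''
    exact Or.inr ⟨Or.inr ⟨Or.inr ⟨Or.inl ⟨tg_ta h3 h, rfl⟩, rfl⟩, rfl⟩, rfl⟩

theorem shape (c : Ct4) (h : c.ok = true) {a0 a1 a2 a3 : ℕ → ℕ} (h0 : Va (c.n0 + 1) a0)
    (h1 : Va (c.n1 + 1) a1) (h2 : Va (c.n2 + 1) a2) (h3 : Va (c.n3 + 1) a3) :
    MuL 0 (3 + c.U.length)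
      [fT (c.n0 + 1) a0, fT (c.n1 + 1) a1, fT (c.n2 + 1) a2, fT (c.n3 + 1) a3] :=
  muL_shape h0 h1 h2 h3 (Ct4.sound h _ _ _ _)

end Pool.Agent.J4H92.CT
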