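import Pool.Agent.J4H92.CT.Red3
import Pool.Agent.J4H92.CT.Shape4

/-!
# Certificates for products of three trees with a pin at each vertex
-/

set_option autoImplicit false

namespace Pool.Agent.J4H92.CT

open Module SimpleGraph Pool.Agent.J4H92.CP

theorem muL_shape3 {n0 n1 n2 j k : ℕ} {a0 a1 a2 : ℕ → ℕ} (h0 : Va (n0 + 1) a0)
    (h1 : Va (n1 + 1) a1) (h2 : Va (n2 + 1) a2)
    (h : Mu j k (G3 (parOf n0 a0 h0) (parOf n1 a1 h1) (parOf n2 a2 h2))) :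
    MuL j k [fT (n0 + 1) a0, fT (n1 + 1) a1, fT (n2 + 1) a2] := by
  let e : (prodL [fT (n0 + 1) a0, fT (n1 + 1) a1, fT (n2 + 1) a2]).V ≃ V3 n0 n1 n2 :=
    { toFun := fun x => (x.1, x.2.1, x.2.2.1)
      invFun := fun x => (x.1, x.2.1, x.2.2, ())
      left_inv := fun _ => rfl
      right_inv := fun _ => rfl }
  refine h.pull e ?_
  rintro ⟨x0, x1, x2⟩ ⟨y0, y1, y2⟩ hxy
  rcases hxy with ⟨h, h'⟩ | ⟨⟨h, h'⟩ | ⟨h, h'⟩, h''⟩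
  · simp only [Prod.mk.injEq] at h'
    obtain ⟨rfl, rfl⟩ := h'
    exact Or.inl ⟨tg_ta h0 h, rfl⟩
  · simp only at h' h''
    subst h' h''
    exact Or.inr ⟨Or.inl ⟨tg_ta h1 h, rfl⟩, rfl⟩
  · simp only at h h' h''
    subst h' h''
    exact Or.inr ⟨Or.inr ⟨Or.inl ⟨tg_ta h2 h, rfl⟩, rfl⟩, rfl⟩

theorem shape3 (c : Ct3) (h : c.ok = true) {a0 a1 a2 : ℕ → ℕ} (h0 : Va (c.n0 + 1) a0)
    (h1 : Va (c.n1 + 1) a1) (h2 : Va (c.n2 + 1) a2) :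
    MuL 1 c.U.length [fT (c.n0 + 1) a0, fT (c.n1 + 1) a1, fT (c.n2 + 1) a2] :=
  muL_shape3 h0 h1 h2 (Ct3.sound h _ _ _)

/-- certificate -/
def t_2_3_6 : Ct3 where
  n0 := 1
  n1 := 2
  n2 := 5
  P0 := 0x3000a
  P1 := 0x5040704090a
  P2 := 0xa0b0707050a07020703020a01080a
  D := 0x40a01
  PT := 0x44958291aa49612
  D0 := 0x8825aa1558a5128
  D1 := 0x11102182
  D2 := 0x148
  DT := 0xa4aa5664a0209aa
  W := 11
  Q := [0, 1, 2, 3, 4, 64, 65, 66, 67, 68]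
  U := []
  TP := [0x1450040, 0x620, 0x210201, 0x68084108250400]
  TN := [0x128022c00, 0x1, 0x100d28, 0x11c202a0423801]

theorem okt_2_3_6 : Ct3.ok t_2_3_6 = true := by decide +kernel

theorem pin_2_3_6 {a0 a1 a2 : ℕ → ℕ} (h0 : Va 2 a0) (h1 : Va 3 a1) (h2 : Va 6 a2) :
    MuL 1 0 [fT 2 a0, fT 3 a1, fT 6 a2] :=
  shape3 t_2_3_6 okt_2_3_6 h0 h1 h2

/-- certificate -/
def t_2_4_4 : Ct3 where
  n0 := 1
  n1 := 3
  n2 := 3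
  P0 := 0x70100
  P1 := 0xb040400000a020001
  P2 := 0xa0b010504030b0103
  D := 0x70901
  PT := 0x19055690181666
  D0 := 0x891002a846445
  D1 := 0x1548
  D2 := 0x286
  DT := 0x6a11104859a84
  W := 10
  Q := [0, 1, 2, 64, 65, 66, 128, 129, 130]
  U := []
  TP := [0x213080a0, 0x1c0, 0x408ce12, 0x1c0002a0]
  TN := [0xa084c13, 0x0, 0x200001e1, 0x4f0d48]

theorem okt_2_4_4 : Ct3.ok t_2_4_4 = true := by decide +kernel

theorem pin_2_4_4 {a0 a1 a2 : ℕ → ℕ} (h0 : Va 2 a0) (h1 : Va 4 a1) (h2 : Va 4 a2) :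
    MuL 1 0 [fT 2 a0, fT 4 a1, fT 4 a2] :=
  shape3 t_2_4_4 okt_2_4_4 h0 h1 h2

/-- certificate -/
def t_3_3_3 : Ct3 where
  n0 := 2
  n1 := 2
  n2 := 2
  P0 := 0x40801070804
  P1 := 0x50507020504
  P2 := 0x60301040a06
  D := 0x30504
  PT := 0x609851466658
  D0 := 0x961942
  D1 := 0x1a026a
  D2 := 0xa86652
  DT := 0xa69810865422
  W := 9
  Q := [0, 1, 64, 65, 4096, 4097, 4160, 4161]
  U := []
  TP := [0x828040, 0x3d07, 0xd630, 0x556e]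
  TN := [0x410d86, 0x1c008, 0x12000, 0x22a90]

theorem okt_3_3_3 : Ct3.ok t_3_3_3 = true := by decide +kernel

theorem pin_3_3_3 {a0 a1 a2 : ℕ → ℕ} (h0 : Va 3 a0) (h1 : Va 3 a1) (h2 : Va 3 a2) :
    MuL 1 0 [fT 3 a0, fT 3 a1, fT 3 a2] :=
  shape3 t_3_3_3 okt_3_3_3 h0 h1 h2

/-- certificate -/
def t_2_2_2 : Ct3 where
  n0 := 1
  n1 := 1
  n2 := 1
  P0 := 0x1
  P1 := 0xa030a
  P2 := 0x90400
  D := 0x10701
  PT := 0x9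
  D0 := 0x14
  D1 := 0x24
  D2 := 0x2
  DT := 0x21
  W := 6
  Q := [0]
  U := [0, 1, 4096, 8192]
  TP := [0x2204, 0x10, 0x20, 0x7]
  TN := [0xc000, 0x0, 0x0, 0x8]

theorem okt_2_2_2 : Ct3.ok t_2_2_2 = true := by decide +kernel

theorem pin_2_2_2 {a0 a1 a2 : ℕ → ℕ} (h0 : Va 2 a0) (h1 : Va 2 a1) (h2 : Va 2 a2) :
    MuL 1 4 [fT 2 a0, fT 2 a1, fT 2 a2] :=
  shape3 t_2_2_2 okt_2_2_2 h0 h1 h2

/-- certificate -/
def t_2_3_3 : Ct3 where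
  n0 := 1
  n1 := 2
  n2 := 2
  P0 := 0x30901
  P1 := 0x50a0a04000a
  P2 := 0x80a040507
  D := 0x10101
  PT := 0x986829
  D0 := 0xa49612
  D1 := 0x91a
  D2 := 0x582
  DT := 0x66529a
  W := 8
  Q := [0, 1, 64, 65]
  U := [0, 1, 8192]
  TP := [0x104020, 0x12, 0x7580, 0x218]
  TN := [0x600000, 0x28, 0x0, 0x6043]

theorem okt_2_3_3 : Ct3.ok t_2_3_3 = true := by decide +kernel

theorem pin_2_3_3 {a0 a1 a2 : ℕ → ℕ} (h0 : Va 2 a0) (h1 : Va 3 a1) (h2 : Va 3 a2) :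
    MuL 1 3 [fT 2 a0, fT 3 a1, fT 3 a2] :=
  shape3 t_2_3_3 okt_2_3_3 h0 h1 h2

/-- certificate -/
def t_2_3_4 : Ct3 where
  n0 := 1
  n1 := 2
  n2 := 3
  P0 := 0x9030a
  P1 := 0x8040a0a0301
  P2 := 0x705010902070a0504
  D := 0x10101
  PT := 0x266529a98
  D0 := 0x9aa44958
  D1 := 0x24a02
  D2 := 0x959
  DT := 0x291aa4961
  W := 9
  Q := [0, 1, 2, 64, 65, 66]
  U := [0, 4096]
  TP := [0x3455c80, 0x100, 0x9465, 0x45e842]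
  TN := [0xb82200, 0x0, 0x2308, 0x5aa0019]

theorem okt_2_3_4 : Ct3.ok t_2_3_4 = true := by decide +kernel

theorem pin_2_3_4 {a0 a1 a2 : ℕ → ℕ} (h0 : Va 2 a0) (h1 : Va 3 a1) (h2 : Va 4 a2) :
    MuL 1 2 [fT 2 a0, fT 3 a1, fT 4 a2] :=
  shape3 t_2_3_4 okt_2_3_4 h0 h1 h2

/-- certificate -/
def t_2_3_5 : Ct3 where
  n0 := 1
  n1 := 2
  n2 := 4
  P0 := 0x904
  P1 := 0x507040a0904
  P2 := 0x40b07010804000b01070b04
  D := 0xa0101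
  PT := 0x91aa49612665
  D0 := 0x128a4aa5664a
  D1 := 0x1558a5
  D2 := 0x5aa
  DT := 0x209aa449582
  W := 10
  Q := [0, 1, 2, 3, 64, 65, 66, 67]
  U := [0]
  TP := [0x28c94600, 0x224, 0x63bb9, 0x21264c0814]
  TN := [0x15163000, 0x53, 0x1c402, 0xd6413003c9]

theorem okt_2_3_5 : Ct3.ok t_2_3_5 = true := by decide +kernel

theorem pin_2_3_5 {a0 a1 a2 : ℕ → ℕ} (h0 : Va 2 a0) (h1 : Va 3 a1) (h2 : Va 5 a2) :
    MuL 1 1 [fT 2 a0, fT 3 a1, fT 5 a2] :=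
  shape3 t_2_3_5 okt_2_3_5 h0 h1 h2

end Pool.Agent.J4H92.CT
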