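import Mathlib

/-!
# Regularity of integer matrices, checked modulo three

The rows of the matrix are sparse; the rows of a right inverse modulo three are pairs of bit masks.
-/

set_option autoImplicit false

namespace Pool.Agent.J4H92.CT

/-- sum of two vectors modulo three, as pairs of bit masks -/
def add3 (x y : ℕ × ℕ) : ℕ × ℕ :=
  ((x.2 ||| y.2) ^^^ ((x.1 ||| y.2) ^^^ (x.2 ||| y.1)),
   (x.1 ||| y.1) ^^^ ((x.1 ||| y.2) ^^^ (x.2 ||| y.1)))

/-- adding a multiple -/
def ax (v : ℕ) (x acc : ℕ × ℕ) : ℕ × ℕ :=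
  match v % 3 with
  | 0 => acc
  | 1 => add3 acc x
  | _ => add3 acc (x.2, x.1)

/-- digit of a pair of bit masks -/
def dg (x : ℕ × ℕ) (j : ℕ) : ZMod 3 :=
  (if x.1.testBit j then 1 else 0) - (if x.2.testBit j then 1 else 0)

/-- no bit in both masks -/
def Nm (x : ℕ × ℕ) : Prop := ∀ j, ¬ (x.1.testBit j = true ∧ x.2.testBit j = true)

theorem nm_zero : Nm (0, 0) := fun j h => by simp at h

theorem nm_add {x y : ℕ × ℕ} (hx : Nm x) (hy : Nm y) : Nm (add3 x y) := by
  intro j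
  have h1 := hx j
  have h2 := hy j
  simp only [add3, Nat.testBit_xor, Nat.testBit_or]
  generalize x.1.testBit j = a at *
  generalize x.2.testBit j = b at *
  generalize y.1.testBit j = c at *
  generalize y.2.testBit j = d at *
  revert h1 h2
  revert a b c d
  decide

theorem dg_add {x y : ℕ × ℕ} (hx : Nm x) (hy : Nm y) (j : ℕ) :
    dg (add3 x y) j = dg x j + dg y j := by
  have h1 := hx j
  have h2 := hy j
  simp only [dg, add3, Nat.testBit_xor, Nat.testBit_or]
  generalize x.1.testBit j = a at *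
  generalize x.2.testBit j = b at *
  generalize y.1.testBit j = c at *
  generalize y.2.testBit j = d at *
  revert h1 h2
  revert a b c d
  decide

theorem nm_swap {x : ℕ × ℕ} (hx : Nm x) : Nm (x.2, x.1) := fun j h => hx j ⟨h.2, h.1⟩

theorem dg_swap (x : ℕ × ℕ) (j : ℕ) : dg (x.2, x.1) j = - dg x j := by
  simp [dg]

theorem cast_mod3 (v : ℕ) : ((v % 3 : ℕ) : ZMod 3) = (v : ZMod 3) := ZMod.natCast_mod v 3

theorem ax_spec {v : ℕ} {x s : ℕ × ℕ} (hx : Nm x) (hs : Nm s) :
    Nm (ax v x s) ∧ ∀ j, dg (ax v x s) j = (v : ZMod 3) * dg x j + dg s j := by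
  have hv : v % 3 = 0 ∨ v % 3 = 1 ∨ v % 3 = 2 := by omega
  have hc := cast_mod3 v
  rcases hv with h | h | h
  · rw [h] at hc
    have e : ax v x s = s := by simp [ax, h]
    rw [e]
    refine ⟨hs, fun j => ?_⟩
    rw [← hc]
    simp
  · rw [h] at hc
    have e : ax v x s = add3 s x := by simp [ax, h]
    rw [e]
    refine ⟨nm_add hs hx, fun j => ?_⟩
    rw [← hc, dg_add hs hx]
    push_cast
    ring
  · rw [h] at hc
    have e : ax v x s = add3 s (x.2, x.1) := by simp [ax, h]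
    rw [e]
    refine ⟨nm_add hs (nm_swap hx), fun j => ?_⟩
    rw [← hc, dg_add hs (nm_swap hx), dg_swap]
    have : ((2 : ℕ) : ZMod 3) = -1 := by decide
    rw [this]
    ring

/-- an entry of a sparse row: position, integer value, the value modulo three -/
structure En where
  k : ℕ
  a : ℕ
  b : ℕ
  z : ℤ
  n : ℕ

/-- position -/
abbrev En.pos (e : En) : (_ : ℕ) × (ℕ × ℕ) := ⟨e.k, (e.a, e.b)⟩

/-- a row applied to the table -/
def acc (T : ℕ → ℕ → ℕ → ℕ × ℕ) : List En → ℕ × ℕ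
  | [] => (0, 0)
  | e :: l => ax e.n (T e.k e.a e.b) (acc T l)

theorem acc_spec (T : ℕ → ℕ → ℕ → ℕ × ℕ) (l : List En) (h : ∀ e ∈ l, Nm (T e.k e.a e.b))
    (hz : ∀ e ∈ l, ((e.z : ℤ) : ZMod 3) = (e.n : ZMod 3)) :
    Nm (acc T l) ∧ ∀ j, dg (acc T l) j =
      (l.map fun e => ((e.z : ℤ) : ZMod 3) * dg (T e.k e.a e.b) j).sum := by
  induction l with
  | nil => exact ⟨nm_zero, fun j => by simp [acc, dg]⟩
  | cons e l ih =>
    obtain ⟨h1, h2⟩ := ih (fun e he => h e (List.mem_cons_of_mem _ he))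
      (fun e he => hz e (List.mem_cons_of_mem _ he))
    obtain ⟨h3, h4⟩ := ax_spec (v := e.n) (h e List.mem_cons_self) h1
    refine ⟨h3, fun j => ?_⟩
    rw [acc, h4 j, h2 j, List.map_cons, List.sum_cons, hz e List.mem_cons_self]

/-- entry of the matrix -/
def ent {R : Type*} [CommRing R] (l : List En) (s : (_ : ℕ) × (ℕ × ℕ)) : R :=
  (l.map fun e => if e.pos = s then ((e.z : ℤ) : R) else 0).sum

theorem ent_cons {R : Type*} [CommRing R] (e : En) (l : List En) (s : (_ : ℕ) × (ℕ × ℕ)) :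
    (ent (e :: l) s : R) = (if e.pos = s then ((e.z : ℤ) : R) else 0) + ent l s := by
  unfold ent
  rw [List.map_cons, List.sum_cons]

theorem sum_ent {R : Type*} [CommRing R] (l : List En) (F : Finset ((_ : ℕ) × (ℕ × ℕ)))
    (hl : ∀ e ∈ l, e.pos ∈ F) (f : (_ : ℕ) × (ℕ × ℕ) → R) :
    ∑ s ∈ F, ent l s * f s = (l.map fun e => ((e.z : ℤ) : R) * f e.pos).sum := by
  induction l with
  | nil => simp [ent]
  | cons e l ih =>
    have h1 : ∀ s, ent (e :: l) s * f s =
        (if e.pos = s then ((e.z : ℤ) : R) * f s else 0) + ent l s * f s := by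
      intro s
      unfold ent
      rw [List.map_cons, List.sum_cons, add_mul]
      congr 1
      rw [ite_mul, zero_mul]
    simp_rw [h1]
    rw [Finset.sum_add_distrib, ih (fun e he => hl e (List.mem_cons_of_mem _ he)), List.map_cons,
      List.sum_cons]
    congr 1
    rw [Finset.sum_ite_eq, if_pos (hl e List.mem_cons_self)]

theorem ent_map {R : Type*} [CommRing R] (l : List En) (s : (_ : ℕ) × (ℕ × ℕ)) :
    ((ent l s : ℤ) : R) = ent l s := by
  induction l with
  | nil => simp [ent]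
  | cons e l ih =>
    rw [ent_cons, ent_cons, Int.cast_add, ih]
    congr 1
    split_ifs <;> simp

/-- **Regularity from an inverse modulo three.** -/
theorem regular3 (rows : ℕ → List En) (m : ℕ) (F : Finset ((_ : ℕ) × (ℕ × ℕ))) (hF : F.card = m)
    (T : ℕ → ℕ → ℕ → ℕ × ℕ)
    (hval : ∀ r < m, ∀ e ∈ rows r, e.pos ∈ F)
    (hz : ∀ r < m, ∀ e ∈ rows r, ((e.z : ℤ) : ZMod 3) = (e.n : ZMod 3))
    (hT : ∀ r < m, ∀ e ∈ rows r, Nm (T e.k e.a e.b))
    (hacc : ∀ r < m, acc T (rows r) = (2 ^ r, 0))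
    (y : ℕ → ℕ → ℕ → ℝ)
    (hy : ∀ r < m, ((rows r).map fun e => (e.z : ℝ) * y e.k e.a e.b).sum = 0) :
    ∀ s ∈ F, y s.1 s.2.1 s.2.2 = 0 := by
  classical
  let A : Matrix (Fin m) F ℤ := Matrix.of fun r s => ent (rows r) s.1
  let B : Matrix F (Fin m) (ZMod 3) := Matrix.of fun s r => dg (T s.1.1 s.1.2.1 s.1.2.2) r
  have hAB : (A.map (Int.castRingHom (ZMod 3))) * B = 1 := by
    ext r r'
    rw [Matrix.mul_apply, Matrix.one_apply]
    have h1 : ∀ s : F, (A.map (Int.castRingHom (ZMod 3))) r s * B s r' =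
        (fun s : (_ : ℕ) × (ℕ × ℕ) => ent (rows r) s * dg (T s.1 s.2.1 s.2.2) r') s := by
      intro s
      show ((ent (rows r) s.1 : ℤ) : ZMod 3) * _ = _
      rw [ent_map]
      rfl
    simp_rw [h1]
    rw [Finset.sum_coe_sort F (fun s => ent (rows r) s * dg (T s.1 s.2.1 s.2.2) r'),
      sum_ent _ _ (hval r r.2) (fun s => dg (T s.1 s.2.1 s.2.2) r'),
      ← (acc_spec T (rows r) (hT r r.2) (hz r r.2)).2 r', hacc r r.2]
    simp only [dg, Nat.testBit_two_pow, Nat.zero_testBit]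
    by_cases h : r = r'
    · simp [h]
    · have : ¬ ((r : ℕ) = r') := fun h' => h (Fin.ext h')
      simp [h, this]
  -- a lift of the inverse
  let C : Matrix F (Fin m) ℤ := Matrix.of fun s r => ((B s r).val : ℤ)
  have hC : C.map (Int.castRingHom (ZMod 3)) = B := by
    ext s r
    show ((((B s r).val : ℤ) : ℤ) : ZMod 3) = B s r
    simp
  have hcard : Fintype.card F = Fintype.card (Fin m) := by
    rw [Fintype.card_coe, Fintype.card_fin, hF]
  have hBA : B * (A.map (Int.castRingHom (ZMod 3))) = 1 :=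
    (Matrix.mul_eq_one_comm_of_card_eq _ _ _ hcard.symm).1 hAB
  have hdet : (C * A).det ≠ 0 := by
    intro h0
    have h1 : ((C * A).map (Int.castRingHom (ZMod 3))).det = 0 := by
      rw [← RingHom.mapMatrix_apply, ← RingHom.map_det, h0, map_zero]
    rw [Matrix.map_mul, hC, hBA, Matrix.det_one] at h1
    exact absurd h1 (by decide)
  have hdetR : ((C * A).map (Int.castRingHom ℝ)).det ≠ 0 := by
    rw [← RingHom.mapMatrix_apply, ← RingHom.map_det]
    intro h
    have h2 : (((C * A).det : ℤ) : ℝ) = 0 := h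
    exact hdet (by exact_mod_cast h2)
  have hv : (A.map (Int.castRingHom ℝ)).mulVec (fun s : F => y s.1.1 s.1.2.1 s.1.2.2) = 0 := by
    funext r
    rw [Matrix.mulVec, Pi.zero_apply]
    show ∑ s : F, _ = _
    have h1 : ∀ s : F, (A.map (Int.castRingHom ℝ)) r s * y s.1.1 s.1.2.1 s.1.2.2 =
        (fun s : (_ : ℕ) × (ℕ × ℕ) => ent (rows r) s * y s.1 s.2.1 s.2.2) s := by
      intro s
      show ((ent (rows r) s.1 : ℤ) : ℝ) * _ = _
      rw [ent_map]
    simp_rw [h1]
    rw [Finset.sum_coe_sort F (fun s => ent (rows r) s * y s.1 s.2.1 s.2.2),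
      sum_ent _ _ (hval r r.2) (fun s => y s.1 s.2.1 s.2.2)]
    exact hy r r.2
  have hv2 : ((C * A).map (Int.castRingHom ℝ)).mulVec
      (fun s : F => y s.1.1 s.1.2.1 s.1.2.2) = 0 := by
    rw [Matrix.map_mul, ← Matrix.mulVec_mulVec, hv, Matrix.mulVec_zero]
  have hv3 := Matrix.eq_zero_of_mulVec_eq_zero hdetR hv2
  intro s hs
  exact congrFun hv3 ⟨s, hs⟩

end Pool.Agent.J4H92.CT
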