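import Pool.Agent.J4H92.CT.Red4
import Pool.Agent.J4H92.CT.F3

/-!
# Certificates for products of four trees
-/

set_option autoImplicit false

namespace Pool.Agent.J4H92.CT

open Module

/-- integer determinant -/
def detZ (f g h : ℕ → ℕ) : ℤ :=
  f 0 * (g 1 * h 2 - g 2 * h 1) + f 1 * (g 2 * h 0 - g 0 * h 2) + f 2 * (g 0 * h 1 - g 1 * h 0)

/-- the determinant modulo three -/
def detN (f g h : ℕ → ℕ) : ℕ :=
  (f 0 * (g 1 * h 2 + 2 * (g 2 * h 1)) + f 1 * (g 2 * h 0 + 2 * (g 0 * h 2)) +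
    f 2 * (g 0 * h 1 + 2 * (g 1 * h 0))) % 3

/-- the determinant is not zero -/
def detB (f g h : ℕ → ℕ) : Bool :=
  !(Nat.beq (f 0 * (g 1 * h 2) + f 1 * (g 2 * h 0) + f 2 * (g 0 * h 1))
    (f 0 * (g 2 * h 1) + f 1 * (g 0 * h 2) + f 2 * (g 1 * h 0)))

/-- real vector -/
def vr (f : ℕ → ℕ) : Fin 3 → ℝ := fun k => (f k : ℝ)

theorem detZ_real (f g h : ℕ → ℕ) : ((detZ f g h : ℤ) : ℝ) = det3 (vr f) (vr g) (vr h) := by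
  unfold detZ det3 vr
  push_cast
  rfl

theorem det_mod (f g h : ℕ → ℕ) : ((detZ f g h : ℤ) : ZMod 3) = (detN f g h : ZMod 3) := by
  unfold detZ detN
  rw [cast_mod3]
  push_cast
  have h2 : (2 : ZMod 3) = -1 := by decide
  rw [h2]
  ring

theorem detB_spec {f g h : ℕ → ℕ} (hb : detB f g h = true) : det3 (vr f) (vr g) (vr h) ≠ 0 := by
  unfold detB at hb
  rw [Bool.not_eq_true'] at hb
  have h1 := Nat.ne_of_beq_eq_false hb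
  intro h2
  apply h1
  have h3 : ((f 0 * (g 1 * h 2) + f 1 * (g 2 * h 0) + f 2 * (g 0 * h 1) : ℕ) : ℝ) =
    ((f 0 * (g 2 * h 1) + f 1 * (g 0 * h 2) + f 2 * (g 1 * h 0) : ℕ) : ℝ) := by
    unfold det3 vr at h2
    push_cast
    have e0 : ((0 : Fin 3) : ℕ) = 0 := rfl
    have e1 : ((1 : Fin 3) : ℕ) = 1 := rfl
    have e2 : ((2 : Fin 3) : ℕ) = 2 := rfl
    rw [e0, e1, e2] at h2
    linarith
  exact_mod_cast h3

/-- the certificate -/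
structure Ct4 where
  n0 : ℕ
  n1 : ℕ
  n2 : ℕ
  n3 : ℕ
  P0 : ℕ
  P1 : ℕ
  P2 : ℕ
  P3 : ℕ
  B0 : ℕ
  B1 : ℕ
  B2 : ℕ
  B3 : ℕ
  C : ℕ
  W : ℕ
  Q : List ℕ
  U : List ℕ
  TP : List ℕ
  TN : List ℕ

/-- component of a direction -/
def pk (P e k : ℕ) : ℕ := (P >>> (8 * (3 * e + k))) &&& 255

/-- component of a small vector -/
def bk (B i k : ℕ) : ℕ := (B >>> (2 * (3 * i + k))) &&& 3

/-- list lookup -/
def nth : List ℕ → ℕ → ℕ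
  | [], _ => 0
  | x :: _, 0 => x
  | _ :: l, n + 1 => nth l n

/-- first range -/
def d1 (n0 n1 n2 n3 : ℕ) : ℕ → ℕ
  | 0 => n0
  | 1 => n1
  | 2 => n2
  | 3 => n3
  | 4 => n0
  | 5 => n0
  | 6 => n0
  | 7 => n1
  | 8 => n1
  | 9 => n2
  | _ => 0

/-- second range -/
def d2 (n1 n2 n3 : ℕ) : ℕ → ℕ
  | 0 => 3
  | 1 => 3
  | 2 => 3
  | 3 => 3
  | 4 => n1
  | 5 => n2
  | 6 => n3
  | 7 => n2
  | 8 => n3
  | 9 => n3
  | _ => 0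

/-- valid positions -/
def VF (n0 n1 n2 n3 : ℕ) : Finset ((_ : ℕ) × (ℕ × ℕ)) :=
  (Finset.range 10).sigma fun k =>
    Finset.range (d1 n0 n1 n2 n3 k) ×ˢ Finset.range (d2 n1 n2 n3 k)

theorem mem_VF {n0 n1 n2 n3 k a b : ℕ} :
    (⟨k, (a, b)⟩ : (_ : ℕ) × (ℕ × ℕ)) ∈ VF n0 n1 n2 n3 ↔ Vp n0 n1 n2 n3 k a b := by
  unfold VF
  rw [Finset.mem_sigma, Finset.mem_product, Finset.mem_range, Finset.mem_range, Finset.mem_range]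
  rcases k with _ | _ | _ | _ | _ | _ | _ | _ | _ | _ | k
  all_goals simp [Vp, d1, d2]

theorem card_VF (n0 n1 n2 n3 : ℕ) : (VF n0 n1 n2 n3).card =
    3 * (n0 + n1 + n2 + n3) + (n0 * n1 + n0 * n2 + n0 * n3 + n1 * n2 + n1 * n3 + n2 * n3) := by
  unfold VF
  rw [Finset.card_sigma]
  simp only [Finset.card_product, Finset.card_range, Finset.sum_range_succ, Finset.sum_range_zero,
    d1, d2]
  ring

/-- valid position, computable -/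
def vb (n0 n1 n2 n3 k a b : ℕ) : Bool :=
  Nat.blt k 10 && (Nat.blt a (d1 n0 n1 n2 n3 k) && Nat.blt b (d2 n1 n2 n3 k))

theorem vb_spec {n0 n1 n2 n3 k a b : ℕ} (h : vb n0 n1 n2 n3 k a b = true) :
    Vp n0 n1 n2 n3 k a b := by
  unfold vb at h
  rw [Bool.and_eq_true, Bool.and_eq_true] at h
  rw [← mem_VF]
  unfold VF
  rw [Finset.mem_sigma, Finset.mem_product, Finset.mem_range, Finset.mem_range, Finset.mem_range]
  exact ⟨Nat.le_of_ble_eq_true h.1, Nat.le_of_ble_eq_true h.2.1, Nat.le_of_ble_eq_true h.2.2⟩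

/-- the row of a quadruple with given vectors -/
def qrow (p0 p1 p2 p3 b0 b1 b2 b3 c : ℕ → ℕ) (i j k l : ℕ) : List En :=
  [⟨0, i, 0, detZ p1 p2 p3 * c 0, detN p1 p2 p3 * c 0⟩,
   ⟨0, i, 1, detZ p1 p2 p3 * c 1, detN p1 p2 p3 * c 1⟩,
   ⟨0, i, 2, detZ p1 p2 p3 * c 2, detN p1 p2 p3 * c 2⟩,
   ⟨1, j, 0, -detZ p0 p2 p3 * c 0, 2 * detN p0 p2 p3 * c 0⟩,
   ⟨1, j, 1, -detZ p0 p2 p3 * c 1, 2 * detN p0 p2 p3 * c 1⟩,
   ⟨1, j, 2, -detZ p0 p2 p3 * c 2, 2 * detN p0 p2 p3 * c 2⟩,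
   ⟨2, k, 0, detZ p0 p1 p3 * c 0, detN p0 p1 p3 * c 0⟩,
   ⟨2, k, 1, detZ p0 p1 p3 * c 1, detN p0 p1 p3 * c 1⟩,
   ⟨2, k, 2, detZ p0 p1 p3 * c 2, detN p0 p1 p3 * c 2⟩,
   ⟨3, l, 0, -detZ p0 p1 p2 * c 0, 2 * detN p0 p1 p2 * c 0⟩,
   ⟨3, l, 1, -detZ p0 p1 p2 * c 1, 2 * detN p0 p1 p2 * c 1⟩,
   ⟨3, l, 2, -detZ p0 p1 p2 * c 2, 2 * detN p0 p1 p2 * c 2⟩,
   ⟨4, i, j, detZ p1 p2 p3 * detZ b1 p0 p1 + -detZ p0 p2 p3 * detZ b0 p0 p1,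
     detN p1 p2 p3 * detN b1 p0 p1 + 2 * detN p0 p2 p3 * detN b0 p0 p1⟩,
   ⟨5, i, k, detZ p1 p2 p3 * detZ b2 p0 p2 + detZ p0 p1 p3 * detZ b0 p0 p2,
     detN p1 p2 p3 * detN b2 p0 p2 + detN p0 p1 p3 * detN b0 p0 p2⟩,
   ⟨6, i, l, detZ p1 p2 p3 * detZ b3 p0 p3 + -detZ p0 p1 p2 * detZ b0 p0 p3,
     detN p1 p2 p3 * detN b3 p0 p3 + 2 * detN p0 p1 p2 * detN b0 p0 p3⟩,
   ⟨7, j, k, -detZ p0 p2 p3 * detZ b2 p1 p2 + detZ p0 p1 p3 * detZ b1 p1 p2,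
     2 * detN p0 p2 p3 * detN b2 p1 p2 + detN p0 p1 p3 * detN b1 p1 p2⟩,
   ⟨8, j, l, -detZ p0 p2 p3 * detZ b3 p1 p3 + -detZ p0 p1 p2 * detZ b1 p1 p3,
     2 * detN p0 p2 p3 * detN b3 p1 p3 + 2 * detN p0 p1 p2 * detN b1 p1 p3⟩,
   ⟨9, k, l, detZ p0 p1 p3 * detZ b3 p2 p3 + -detZ p0 p1 p2 * detZ b2 p2 p3,
     detN p0 p1 p3 * detN b3 p2 p3 + 2 * detN p0 p1 p2 * detN b2 p2 p3⟩]

theorem qrow_mod (p0 p1 p2 p3 b0 b1 b2 b3 c : ℕ → ℕ) (i j k l : ℕ) :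
    ∀ e ∈ qrow p0 p1 p2 p3 b0 b1 b2 b3 c i j k l, ((e.z : ℤ) : ZMod 3) = (e.n : ZMod 3) := by
  have h2 : (2 : ZMod 3) = -1 := by decide
  intro e he
  simp only [qrow, List.mem_cons, List.not_mem_nil, or_false] at he
  rcases he with rfl | rfl | rfl | rfl | rfl | rfl | rfl | rfl | rfl | rfl | rfl | rfl | rfl |
    rfl | rfl | rfl | rfl | rfl
  all_goals
    simp only [Int.cast_mul, Int.cast_add, Int.cast_neg, det_mod, Nat.cast_mul, Nat.cast_add,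
      Int.cast_natCast, Nat.cast_ofNat, h2]
    try ring

theorem qrow_pos (p0 p1 p2 p3 b0 b1 b2 b3 c : ℕ → ℕ) {i j k l n0 n1 n2 n3 : ℕ} (hi : i < n0)
    (hj : j < n1) (hk : k < n2) (hl : l < n3) :
    ∀ e ∈ qrow p0 p1 p2 p3 b0 b1 b2 b3 c i j k l, Vp n0 n1 n2 n3 e.k e.a e.b := by
  intro e he
  simp only [qrow, List.mem_cons, List.not_mem_nil, or_false] at he
  rcases he with rfl | rfl | rfl | rfl | rfl | rfl | rfl | rfl | rfl | rfl | rfl | rfl | rfl |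
    rfl | rfl | rfl | rfl | rfl
  all_goals simp [Vp, hi, hj, hk, hl]

theorem qrow_sum (p0 p1 p2 p3 b0 b1 b2 b3 c : ℕ → ℕ) (i j k l : ℕ) (D : Dr)
    (m : ℕ → ℕ → ℕ → ℕ → Fin 3 → ℝ) :
    ((qrow p0 p1 p2 p3 b0 b1 b2 b3 c i j k l).map fun e =>
      ((e.z : ℤ) : ℝ) * yy D m e.k e.a e.b).sum =
    qval (vr p0) (vr p1) (vr p2) (vr p3) (vr b0) (vr b1) (vr b2) (vr b3) (vr c)
      (m (i + 1) 0 0 0) (m 0 (j + 1) 0 0) (m 0 0 (k + 1) 0) (m 0 0 0 (l + 1))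
      (yy D m 4 i j) (yy D m 5 i k) (yy D m 6 i l) (yy D m 7 j k) (yy D m 8 j l)
      (yy D m 9 k l) := by
  have e0 : fo 2 0 = 0 := rfl
  have e1 : fo 2 1 = 1 := rfl
  have e2 : fo 2 2 = 2 := rfl
  have v0 : ∀ f : ℕ → ℕ, vr f 0 = f 0 := fun _ => rfl
  have v1 : ∀ f : ℕ → ℕ, vr f 1 = f 1 := fun _ => rfl
  have v2 : ∀ f : ℕ → ℕ, vr f 2 = f 2 := fun _ => rfl
  unfold qval
  simp only [qrow, List.map_cons, List.map_nil, List.sum_cons, List.sum_nil, Int.cast_mul,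
    Int.cast_add, Int.cast_neg, Int.cast_natCast, detZ_real, dot3, v0, v1, v2]
  have y0 : ∀ c, yy D m 0 i c = m (i + 1) 0 0 0 (fo 2 c) := fun _ => rfl
  have y1 : ∀ c, yy D m 1 j c = m 0 (j + 1) 0 0 (fo 2 c) := fun _ => rfl
  have y2 : ∀ c, yy D m 2 k c = m 0 0 (k + 1) 0 (fo 2 c) := fun _ => rfl
  have y3 : ∀ c, yy D m 3 l c = m 0 0 0 (l + 1) (fo 2 c) := fun _ => rfl
  simp only [y0, y1, y2, y3, e0, e1, e2]
  ring

/-- the row of the orthogonality of a single -/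
def orow (p : ℕ → ℕ) (k a : ℕ) : List En :=
  [⟨k, a, 0, p 0, p 0⟩, ⟨k, a, 1, p 1, p 1⟩, ⟨k, a, 2, p 2, p 2⟩]

/-- the row of a unit vector -/
def urow (k a b : ℕ) : List En := [⟨k, a, b, 1, 1⟩]

/-- orthogonality rows -/
def orows (p : ℕ → ℕ → ℕ) (k : ℕ) : ℕ → List (List En)
  | 0 => []
  | n + 1 => orow (p n) k n :: orows p k n

namespace Ct4

variable (c : Ct4)

/-- the row of a coded quadruple -/
def row (q : ℕ) : List En :=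
  qrow (pk c.P0 (q >>> 18)) (pk c.P1 ((q >>> 12) &&& 63)) (pk c.P2 ((q >>> 6) &&& 63))
    (pk c.P3 (q &&& 63))
    (bk c.B0 ((((q >>> 12) &&& 63) * c.n2 + ((q >>> 6) &&& 63)) * c.n3 + (q &&& 63)))
    (bk c.B1 (((q >>> 18) * c.n2 + ((q >>> 6) &&& 63)) * c.n3 + (q &&& 63)))
    (bk c.B2 (((q >>> 18) * c.n1 + ((q >>> 12) &&& 63)) * c.n3 + (q &&& 63)))
    (bk c.B3 (((q >>> 18) * c.n1 + ((q >>> 12) &&& 63)) * c.n2 + ((q >>> 6) &&& 63)))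
    (bk c.C ((((q >>> 18) * c.n1 + ((q >>> 12) &&& 63)) * c.n2 + ((q >>> 6) &&& 63)) * c.n3 +
      (q &&& 63)))
    (q >>> 18) ((q >>> 12) &&& 63) ((q >>> 6) &&& 63) (q &&& 63)

/-- all rows -/
def rows : List (List En) :=
  c.Q.map c.row ++ (orows (pk c.P0) 0 c.n0 ++ (orows (pk c.P1) 1 c.n1 ++
    (orows (pk c.P2) 2 c.n2 ++ (orows (pk c.P3) 3 c.n3 ++
      c.U.map fun u => urow (u >>> 12) ((u >>> 6) &&& 63) (u &&& 63)))))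

/-- the table of the inverse -/
def tab (k a b : ℕ) : ℕ × ℕ :=
  (((nth c.TP k) >>> (c.W * (a * d2 c.n1 c.n2 c.n3 k + b))) &&& (2 ^ c.W - 1),
   ((nth c.TN k) >>> (c.W * (a * d2 c.n1 c.n2 c.n3 k + b))) &&& (2 ^ c.W - 1))

/-- check of the products -/
def chk : ℕ → List (List En) → Bool
  | _, [] => true
  | r, row :: l => (Nat.beq (acc c.tab row).1 (2 ^ r) && Nat.beq (acc c.tab row).2 0) &&
      chk (r + 1) l

/-- no determinant vanishes -/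
def det1 (p q r : ℕ → ℕ → ℕ) (a b : ℕ) : ℕ → Bool
  | 0 => true
  | n + 1 => detB (p a) (q b) (r n) && det1 p q r a b n

/-- no determinant vanishes -/
def det2 (p q r : ℕ → ℕ → ℕ) (a n : ℕ) : ℕ → Bool
  | 0 => true
  | m + 1 => det1 p q r a m n && det2 p q r a n m

/-- no determinant vanishes -/
def det3' (p q r : ℕ → ℕ → ℕ) (m n : ℕ) : ℕ → Bool
  | 0 => true
  | l + 1 => det2 p q r l n m && det3' p q r m n l

/-- the check -/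
def ok : Bool :=
  (Nat.blt 0 c.n1 && (Nat.blt 0 c.n2 && Nat.blt 0 c.n3)) &&
  ((det3' (pk c.P1) (pk c.P2) (pk c.P3) c.n2 c.n3 c.n1 &&
    (det3' (pk c.P0) (pk c.P2) (pk c.P3) c.n2 c.n3 c.n0 &&
    (det3' (pk c.P0) (pk c.P1) (pk c.P3) c.n1 c.n3 c.n0 &&
    det3' (pk c.P0) (pk c.P1) (pk c.P2) c.n1 c.n2 c.n0))) &&
  ((Nat.beq c.rows.length (3 * (c.n0 + c.n1 + c.n2 + c.n3) + (c.n0 * c.n1 + c.n0 * c.n2 +
    c.n0 * c.n3 + c.n1 * c.n2 + c.n1 * c.n3 + c.n2 * c.n3)) &&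
  (c.Q.all (fun q => (Nat.blt (q >>> 18) c.n0 && Nat.blt ((q >>> 12) &&& 63) c.n1) &&
    (Nat.blt ((q >>> 6) &&& 63) c.n2 && Nat.blt (q &&& 63) c.n3)) &&
  c.U.all (fun u => vb c.n0 c.n1 c.n2 c.n3 (u >>> 12) ((u >>> 6) &&& 63) (u &&& 63)))) &&
  (((List.range 10).all fun k => Nat.beq ((nth c.TP k) &&& (nth c.TN k)) 0) &&
  c.chk 0 c.rows)))

end Ct4

end Pool.Agent.J4H92.CT
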