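import Mathlib

/-!
# Multiplication tables depending on a parameter

For a tree, the functions on the vertices have a basis of branches; the table of the pointwise
multiplication tends to the table of a local algebra if the branches are scaled down.
-/

set_option autoImplicit false

namespace Pool.Agent.J4H92.CT

open Finset

/-- an evaluation, the table of products, and the inversion of the change of basis -/
structure Tn (V T X : Type) [Fintype V] [Fintype T] [DecidableEq T] where
  A : V → X → ℝ
  W : V → T → ℝ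
  K : T → X → X → ℝ
  W' : T → V → ℝ
  mul : ∀ v y z, A v y * A v z = ∑ t, W v t * K t y z
  inv : ∀ s t, ∑ v, W' s v * W v t = if s = t then 1 else 0

variable {V T X V' T' X' : Type} [Fintype V] [Fintype T] [DecidableEq T] [Fintype V']
  [Fintype T'] [DecidableEq T']

/-- products of tables -/
def Tn.prod (S : Tn V T X) (S' : Tn V' T' X') : Tn (V × V') (T × T') (X × X') where
  A v y := S.A v.1 y.1 * S'.A v.2 y.2
  W v t := S.W v.1 t.1 * S'.W v.2 t.2
  K t y z := S.K t.1 y.1 z.1 * S'.K t.2 y.2 z.2
  W' t v := S.W' t.1 v.1 * S'.W' t.2 v.2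
  mul v y z := by
    rw [Fintype.sum_prod_type]
    calc (S.A v.1 y.1 * S'.A v.2 y.2) * (S.A v.1 z.1 * S'.A v.2 z.2)
        = (S.A v.1 y.1 * S.A v.1 z.1) * (S'.A v.2 y.2 * S'.A v.2 z.2) := by ring
      _ = _ := by
        rw [S.mul, S'.mul, Finset.sum_mul_sum]
        refine Finset.sum_congr rfl fun i _ => Finset.sum_congr rfl fun j _ => ?_
        ring
  inv s t := by
    rw [Fintype.sum_prod_type]
    calc ∑ x : V, ∑ y : V', S.W' s.1 x * S'.W' s.2 y * (S.W x t.1 * S'.W y t.2)
        = (∑ x, S.W' s.1 x * S.W x t.1) * (∑ y, S'.W' s.2 y * S'.W y t.2) := by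
          rw [Finset.sum_mul_sum]
          refine Finset.sum_congr rfl fun i _ => Finset.sum_congr rfl fun j _ => ?_
          ring
      _ = _ := by
        rw [S.inv, S'.inv]
        by_cases h1 : s.1 = t.1 <;> by_cases h2 : s.2 = t.2 <;> simp [h1, h2, Prod.ext_iff]

/-- contraction of a table with a form -/
def eqn {T X : Type} [Fintype X] (K : T → X → X → ℝ) (t : T) (F : X → X → ℝ) : ℝ :=
  ∑ y, ∑ z, K t y z * F y z

theorem Tn.eqn_zero [Fintype X] (S : Tn V T X) (F : X → X → ℝ)
    (h : ∀ v, ∑ y, ∑ z, S.A v y * S.A v z * F y z = 0) (t : T) : eqn S.K t F = 0 := by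
  have h1 : ∀ v, ∑ s, S.W v s * eqn S.K s F = 0 := by
    intro v
    rw [← h v]
    unfold eqn
    simp_rw [S.mul, Finset.mul_sum, Finset.sum_mul]
    rw [Finset.sum_comm]
    refine Finset.sum_congr rfl fun y _ => ?_
    rw [Finset.sum_comm]
    refine Finset.sum_congr rfl fun z _ => Finset.sum_congr rfl fun s _ => ?_
    ring
  have h2 : ∑ v, S.W' t v * ∑ s, S.W v s * eqn S.K s F = 0 := by
    simp_rw [h1, mul_zero, Finset.sum_const_zero]
  rw [← h2]
  simp_rw [Finset.mul_sum]
  rw [Finset.sum_comm]
  have h3 : ∀ s, ∑ v, S.W' t v * (S.W v s * eqn S.K s F) = (if t = s then 1 else 0) *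
      eqn S.K s F := by
    intro s
    rw [← S.inv t s, Finset.sum_mul]
    refine Finset.sum_congr rfl fun v _ => ?_
    ring
  simp_rw [h3]
  simp

/-- product of two tables -/
def kp {T X T' X' : Type} (K : T → X → X → ℝ) (K' : T' → X' → X' → ℝ) :
    T × T' → X × X' → X × X' → ℝ := fun t y z => K t.1 y.1 z.1 * K' t.2 y.2 z.2

theorem eqn_kp {T X T' X' : Type} [Fintype X] [Fintype X'] (K : T → X → X → ℝ)
    (K' : T' → X' → X' → ℝ) (t : T) (t' : T') (F : X × X' → X × X' → ℝ) :
    eqn (kp K K') (t, t') F =
      eqn K t (fun y z => eqn K' t' (fun y' z' => F (y, y') (z, z'))) := by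
  unfold eqn kp
  rw [Fintype.sum_prod_type]
  refine Finset.sum_congr rfl fun y _ => ?_
  have h1 : ∀ y', (∑ z : X × X', K t y z.1 * K' t' y' z.2 * F (y, y') z) =
      ∑ z, ∑ z', K t y z * K' t' y' z' * F (y, y') (z, z') := fun y' =>
    Fintype.sum_prod_type _
  simp_rw [h1, Finset.mul_sum]
  rw [Finset.sum_comm]
  refine Finset.sum_congr rfl fun z _ => Finset.sum_congr rfl fun y' _ =>
    Finset.sum_congr rfl fun z' _ => ?_
  ring

theorem Tn.prod_K (S : Tn V T X) (S' : Tn V' T' X') : (S.prod S').K = kp S.K S'.K := rfl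

theorem Tn.inv' [DecidableEq V] (S : Tn V V X) (v v' : V) :
    ∑ t, S.W v t * S.W' t v' = if v = v' then 1 else 0 := by
  let M : Matrix V V ℝ := fun a b => S.W a b
  let N : Matrix V V ℝ := fun a b => S.W' a b
  have h1 : N * M = 1 := by
    ext s t
    rw [Matrix.mul_apply, Matrix.one_apply]
    exact S.inv s t
  have h2 : M * N = 1 := mul_eq_one_comm.1 h1
  have h3 := congrFun (congrFun h2 v) v'
  rw [Matrix.mul_apply, Matrix.one_apply] at h3
  exact h3

/-! ### The order of a rooted tree -/

/-- parent function of a rooted tree on `Fin (n + 1)` -/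
structure Par (n : ℕ) where
  p : Fin (n + 1) → Fin (n + 1)
  lt : ∀ v, v ≠ 0 → p v < v
  zero : p 0 = 0

variable {n : ℕ} (τ : Par n)

/-- `x` is on the way from `v` to the root -/
def Par.Le (x v : Fin (n + 1)) : Prop := ∃ k, τ.p^[k] v = x

variable {τ}

theorem Par.le_refl (v : Fin (n + 1)) : τ.Le v v := ⟨0, rfl⟩

theorem Par.le_trans {x y z : Fin (n + 1)} (h : τ.Le x y) (h' : τ.Le y z) : τ.Le x z := by
  obtain ⟨k, rfl⟩ := h
  obtain ⟨l, rfl⟩ := h'
  exact ⟨k + l, Function.iterate_add_apply _ _ _ _⟩

theorem Par.le_iff {x v : Fin (n + 1)} : τ.Le x v ↔ x = v ∨ τ.Le x (τ.p v) := by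
  constructor
  · rintro ⟨k, hk⟩
    cases k with
    | zero => exact Or.inl hk.symm
    | succ k => exact Or.inr ⟨k, hk⟩
  · rintro (rfl | ⟨k, hk⟩)
    · exact Par.le_refl _
    · exact ⟨k + 1, hk⟩

theorem Par.le_val {x v : Fin (n + 1)} (h : τ.Le x v) : x ≤ v := by
  obtain ⟨k, hk⟩ := h
  subst hk
  induction k generalizing v with
  | zero => exact _root_.le_refl _
  | succ k ih =>
    rw [Function.iterate_succ_apply]
    refine ih.trans ?_
    by_cases hv : v = 0
    · rw [hv, τ.zero]
    · exact (τ.lt v hv).le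

theorem Par.not_le {v : Fin (n + 1)} (hv : v ≠ 0) : ¬ τ.Le v (τ.p v) := fun h =>
  absurd (Par.le_val h) (not_le_of_gt (τ.lt v hv))

theorem Par.le_zero {x : Fin (n + 1)} (h : τ.Le x 0) : x = 0 :=
  Fin.le_zero_iff.1 (Par.le_val h)

theorem Par.zero_le (v : Fin (n + 1)) : τ.Le 0 v := by
  have key : ∀ m, ∀ v : Fin (n + 1), (v : ℕ) = m → τ.Le 0 v := by
    intro m
    induction m using Nat.strong_induction_on with
    | _ m ih =>
      intro v hv
      by_cases h0 : v = 0
      · rw [h0]
        exact Par.le_refl _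
      · have h1 : (τ.p v : ℕ) < m := by
          rw [← hv]
          exact τ.lt v h0
        exact Par.le_iff.2 (Or.inr (ih _ h1 _ rfl))
  exact key _ v rfl

theorem Par.comp {x y v : Fin (n + 1)} (h : τ.Le x v) (h' : τ.Le y v) : τ.Le x y ∨ τ.Le y x := by
  obtain ⟨k, rfl⟩ := h
  obtain ⟨l, rfl⟩ := h'
  rcases le_total k l with hkl | hkl
  · refine Or.inr ⟨l - k, ?_⟩
    rw [← Function.iterate_add_apply, Nat.sub_add_cancel hkl]
  · refine Or.inl ⟨k - l, ?_⟩
    rw [← Function.iterate_add_apply, Nat.sub_add_cancel hkl]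

theorem Par.anti {x y : Fin (n + 1)} (h : τ.Le x y) (h' : τ.Le y x) : x = y :=
  le_antisymm (Par.le_val h) (Par.le_val h')

/-! ### The tables of a tree -/

/-- weights -/
def wt (η : ℝ) (x : Fin (n + 1)) : ℝ := if x = 0 then 1 else η

variable (τ) in
open Classical in
/-- the basis of branches -/
noncomputable def uu (η : ℝ) (v x : Fin (n + 1)) : ℝ := if τ.Le x v then wt η x else 0

variable (τ) in
open Classical in
/-- the table of the pointwise product -/
noncomputable def kf (η : ℝ) (x y z : Fin (n + 1)) : ℝ :=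
  if τ.Le y z ∧ x = z then wt η y else if τ.Le z y ∧ x = y then wt η z else 0

/-- the table of an edge -/
def ke (x y z : Fin (n + 1)) : ℝ := if x ≠ 0 ∧ y = x ∧ z = x then 1 else 0

theorem uu_mul (η : ℝ) (v y z : Fin (n + 1)) :
    uu τ η v y * uu τ η v z = ∑ x, uu τ η v x * kf τ η x y z := by
  classical
  by_cases h1 : τ.Le y z
  · rw [Finset.sum_eq_single z]
    · unfold kf
      rw [if_pos ⟨h1, rfl⟩]
      unfold uu
      by_cases h2 : τ.Le z v
      · rw [if_pos h2, if_pos (Par.le_trans h1 h2)]
        ring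
      · rw [if_neg h2]
        ring
    · intro x _ hx
      unfold kf
      rw [if_neg (fun h => hx h.2), if_neg, mul_zero]
      rintro ⟨h2, h3⟩
      exact hx (by rw [h3, Par.anti h1 h2])
    · intro h
      exact absurd (Finset.mem_univ _) h
  · by_cases h2 : τ.Le z y
    · rw [Finset.sum_eq_single y]
      · unfold kf
        rw [if_neg (fun h => h1 h.1), if_pos ⟨h2, rfl⟩]
        unfold uu
        by_cases h3 : τ.Le y v
        · rw [if_pos h3, if_pos (Par.le_trans h2 h3)]
        · rw [if_neg h3]
          ring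
      · intro x _ hx
        unfold kf
        rw [if_neg (fun h => h1 h.1), if_neg (fun h => hx h.2), mul_zero]
      · intro h
        exact absurd (Finset.mem_univ _) h
    · have h3 : uu τ η v y * uu τ η v z = 0 := by
        unfold uu
        by_cases h3 : τ.Le y v
        · by_cases h4 : τ.Le z v
          · rcases Par.comp h3 h4 with h | h
            · exact absurd h h1
            · exact absurd h h2
          · rw [if_neg h4, mul_zero]
        · rw [if_neg h3, zero_mul]
      rw [h3, Finset.sum_eq_zero]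
      intro x _
      unfold kf
      rw [if_neg (fun h => h1 h.1), if_neg (fun h => h2 h.1), mul_zero]

theorem uu_sub (η : ℝ) {v : Fin (n + 1)} (hv : v ≠ 0) (y : Fin (n + 1)) :
    uu τ η v y - uu τ η (τ.p v) y = if y = v then η else 0 := by
  classical
  unfold uu
  by_cases h : y = v
  · subst h
    rw [if_pos (Par.le_refl _), if_neg (Par.not_le hv), if_pos rfl]
    unfold wt
    rw [if_neg hv, sub_zero]
  · rw [if_neg h]
    by_cases h2 : τ.Le y (τ.p v)
    · rw [if_pos h2, if_pos (Par.le_iff.2 (Or.inr h2)), sub_self]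
    · rw [if_neg h2, if_neg, sub_self]
      intro h3
      rcases Par.le_iff.1 h3 with h3 | h3
      · exact h h3
      · exact h2 h3

theorem uu_zero (η : ℝ) (y : Fin (n + 1)) : uu τ η 0 y = if y = 0 then 1 else 0 := by
  classical
  unfold uu
  by_cases h : y = 0
  · rw [if_pos h, h, if_pos (Par.le_refl _)]
    simp [wt]
  · rw [if_neg h, if_neg (fun h2 => h (Par.le_zero h2))]

/-- pointwise multiplication -/
noncomputable def full (τ : Par n) (η : ℝ) (hη : η ≠ 0) :
    Tn (Fin (n + 1)) (Fin (n + 1)) (Fin (n + 1)) where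
  A := uu τ η
  W := uu τ η
  K := kf τ η
  W' s v := if s = 0 then (if v = 0 then 1 else 0) else
    ((if v = s then 1 else 0) - (if v = τ.p s then 1 else 0)) / η
  mul v y z := uu_mul η v y z
  inv s t := by
    by_cases hs : s = 0
    · simp only [hs, if_true]
      simp only [ite_mul, one_mul, zero_mul, Finset.sum_ite_eq', Finset.mem_univ, if_true]
      rw [uu_zero]
      simp only [eq_comm]
    · simp only [hs, if_false]
      have h1 : ∀ v, ((if v = s then (1 : ℝ) else 0) - (if v = τ.p s then 1 else 0)) / η *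
          uu τ η v t = (if v = s then uu τ η v t / η else 0) -
          (if v = τ.p s then uu τ η v t / η else 0) := by
        intro v
        split_ifs <;> ring
      simp_rw [h1]
      rw [Finset.sum_sub_distrib]
      simp only [Finset.sum_ite_eq', Finset.mem_univ, if_true]
      rw [← sub_div, uu_sub η hs]
      by_cases h2 : t = s
      · rw [if_pos h2, if_pos h2.symm, div_self hη]
      · rw [if_neg h2, if_neg (Ne.symm h2), zero_div]

/-- edges -/
noncomputable def edge (τ : Par n) (η : ℝ) (hη : η ≠ 0) :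
    Tn (Fin (n + 1)) (Fin (n + 1)) (Fin (n + 1)) where
  A v y := if v = 0 then 0 else uu τ η v y - uu τ η (τ.p v) y
  W v t := if v = t then η ^ 2 else 0
  K := ke
  W' t v := if t = v then (η ^ 2)⁻¹ else 0
  mul v y z := by
    simp only [ite_mul, zero_mul, Finset.sum_ite_eq, Finset.mem_univ, if_true]
    unfold ke
    by_cases hv : v = 0
    · simp [hv]
    · simp only [hv, if_false]
      rw [uu_sub η hv, uu_sub η hv]
      by_cases hy : y = v <;> by_cases hz : z = v <;> simp [hv, hy, hz]
      ring
  inv s t := by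
    simp only [mul_ite, ite_mul, zero_mul, mul_zero]
    by_cases h : s = t
    · subst h
      simp [hη]
    · rw [if_neg h, Finset.sum_eq_zero]
      intro v _
      by_cases h1 : v = t
      · rw [if_pos h1, if_neg]
        intro h2
        exact h (h2.trans h1)
      · rw [if_neg h1]

/-! ### The tables at the limit -/

theorem eqn_ke (x : Fin (n + 1)) (F : Fin (n + 1) → Fin (n + 1) → ℝ) :
    eqn ke x F = if x = 0 then 0 else F x x := by
  unfold eqn ke
  by_cases h : x = 0
  · simp [h]
  · simp only [h, ne_eq, not_false_eq_true, true_and, if_false]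
    rw [Finset.sum_eq_single x]
    · rw [Finset.sum_eq_single x]
      · simp
      · intro z _ hz
        simp [hz]
      · intro h
        exact absurd (Finset.mem_univ _) h
    · intro y _ hy
      simp [hy]
    · intro h
      exact absurd (Finset.mem_univ _) h

/-- the limit of the multiplication -/
def spl (x : Fin (n + 1)) (F : Fin (n + 1) → Fin (n + 1) → ℝ) : ℝ :=
  if x = 0 then F 0 0 else F x 0 + F 0 x

theorem kf_zero (x y z : Fin (n + 1)) : kf τ 0 x y z =
    if (y = 0 ∧ z = x) ∨ (z = 0 ∧ y = x) then 1 else 0 := by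
  classical
  unfold kf wt
  by_cases h1 : τ.Le y z ∧ x = z
  · rw [if_pos h1]
    obtain ⟨h1, rfl⟩ := h1
    by_cases hy : y = 0
    · simp [hy]
    · rw [if_neg hy, if_neg]
      rintro (⟨h, _⟩ | ⟨h, h2⟩)
      · exact hy h
      · exact hy (by rw [h2, h])
  · rw [if_neg h1]
    by_cases h2 : τ.Le z y ∧ x = y
    · rw [if_pos h2]
      obtain ⟨h2, rfl⟩ := h2
      by_cases hz : z = 0
      · simp [hz]
      · rw [if_neg hz, if_neg]
        rintro (⟨h, h3⟩ | ⟨h, _⟩)
        · exact hz (by rw [h3, h])
        · exact hz h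
    · rw [if_neg h2, if_neg]
      rintro (⟨h, h3⟩ | ⟨h, h3⟩)
      · refine h1 ⟨?_, h3.symm⟩
        rw [h]
        exact Par.zero_le _
      · refine h2 ⟨?_, h3.symm⟩
        rw [h]
        exact Par.zero_le _

theorem eqn_kf (x : Fin (n + 1)) (F : Fin (n + 1) → Fin (n + 1) → ℝ) :
    eqn (kf τ 0) x F = spl x F := by
  unfold eqn spl
  simp_rw [kf_zero]
  by_cases h : x = 0
  · rw [if_pos h]
    subst h
    rw [Finset.sum_eq_single 0]
    · rw [Finset.sum_eq_single 0]
      · simp
      · intro z _ hz
        simp [hz]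
      · intro h
        exact absurd (Finset.mem_univ _) h
    · intro y _ hy
      refine Finset.sum_eq_zero fun z _ => ?_
      simp [hy]
    · intro h
      exact absurd (Finset.mem_univ _) h
  · rw [if_neg h, ← Finset.sum_subset (Finset.subset_univ {x, 0})]
    · rw [Finset.sum_pair h]
      congr 1
      · rw [Finset.sum_eq_single 0]
        · simp
        · intro z _ hz
          simp [hz, h]
        · intro h
          exact absurd (Finset.mem_univ _) h
      · rw [Finset.sum_eq_single x]
        · simp
        · intro z _ hz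
          have : ¬ (0 = x) := fun h' => h h'.symm
          simp [hz, this]
        · intro h
          exact absurd (Finset.mem_univ _) h
    · intro y _ hy
      rw [Finset.mem_insert, Finset.mem_singleton, not_or] at hy
      refine Finset.sum_eq_zero fun z _ => ?_
      simp [hy.1, hy.2]

theorem spl_zero (F : Fin (n + 1) → Fin (n + 1) → ℝ) : spl 0 F = F 0 0 := by simp [spl]

theorem spl_succ (e : Fin n) (F : Fin (n + 1) → Fin (n + 1) → ℝ) :
    spl e.succ F = F e.succ 0 + F 0 e.succ := by simp [spl]

theorem kf_cont (x y z : Fin (n + 1)) : Continuous (fun η : ℝ => kf τ η x y z) := by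
  classical
  have hw : ∀ x : Fin (n + 1), Continuous (fun η : ℝ => wt η x) := by
    intro x
    unfold wt
    by_cases h : x = 0
    · simp only [h, if_true]
      exact continuous_const
    · simp only [h, if_false]
      exact continuous_id
  unfold kf
  by_cases h1 : τ.Le y z ∧ x = z
  · simp only [h1, if_true]
    exact hw _
  · by_cases h2 : τ.Le z y ∧ x = y
    · simp only [if_neg h1, if_pos h2]
      exact hw _
    · simp only [if_neg h1, if_neg h2]
      exact continuous_const

end Pool.Agent.J4H92.CT
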