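import Pool.Agent.J4H92.CP.Iso
import Pool.Agent.J4H92.CT.Ten

/-!
# Semicontinuity
-/

set_option autoImplicit false

namespace Pool.Agent.J4H92.CT

open Module Filter Topology

theorem semicont {X ι : Type} [AddCommGroup X] [Module ℝ X] [FiniteDimensional ℝ X] [Fintype ι]
    (L : ℝ → X →ₗ[ℝ] (ι → ℝ)) (hL : ∀ x i, Continuous (fun η => L η x i)) {k : ℕ}
    (h : finrank ℝ (LinearMap.ker (L 0)) ≤ k) :
    ∃ η : ℝ, η ≠ 0 ∧ finrank ℝ (LinearMap.ker (L η)) ≤ k := by
  classical
  obtain ⟨W, hW⟩ := Submodule.exists_isCompl (LinearMap.ker (L 0))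
  have hd := Submodule.finrank_add_eq_of_isCompl hW
  let b := Module.finBasis ℝ W
  have hli : LinearIndependent ℝ (fun i => L 0 (b i : X)) := by
    have h1 : LinearIndependent ℝ (fun i => (b i : X)) :=
      b.linearIndependent.map' W.subtype (Submodule.ker_subtype W)
    refine h1.map ?_
    have h2 : Submodule.span ℝ (Set.range fun i => (b i : X)) ≤ W := by
      rw [Submodule.span_le]
      rintro _ ⟨i, rfl⟩
      exact (b i).2
    exact Disjoint.mono_left h2 hW.disjoint.symm
  have hopen : IsOpen {f : Fin (finrank ℝ W) → (ι → ℝ) | LinearIndependent ℝ f} :=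
    isOpen_setOfPred_linearIndependent
  have hcont : Continuous (fun η : ℝ => (fun i => L η (b i : X) : Fin (finrank ℝ W) → (ι → ℝ))) :=
    continuous_pi fun i => continuous_pi fun j => hL _ _
  have hev : ∀ᶠ η in 𝓝 (0 : ℝ), LinearIndependent ℝ (fun i => L η (b i : X)) :=
    (hopen.preimage hcont).mem_nhds hli
  obtain ⟨η, h1, h2⟩ := ((hev.filter_mono nhdsWithin_le_nhds).and
    (self_mem_nhdsWithin (a := (0 : ℝ)) (s := {0}ᶜ))).exists
  refine ⟨η, h2, ?_⟩
  have h3 := finrank_span_eq_card h1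
  have h4 : Submodule.span ℝ (Set.range fun i => L η (b i : X)) ≤ LinearMap.range (L η) := by
    rw [Submodule.span_le]
    rintro _ ⟨i, rfl⟩
    exact ⟨_, rfl⟩
  have h5 := Submodule.finrank_mono h4
  have h6 := LinearMap.finrank_range_add_finrank_ker (L η)
  rw [h3, Fintype.card_fin] at h5
  omega

end Pool.Agent.J4H92.CT
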