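import Pool.Agent.J4H92.CP.Grow
import Pool.Agent.J4H92.CT.Semi

/-!
# The collapse of a product of four trees

If the completely collapsed system of four trees has few solutions, then the product of the four
trees has few degrees of freedom. The collapsed system depends only on the orders of the trees.
-/

set_option autoImplicit false

namespace Pool.Agent.J4H92.CT

open Module SimpleGraph Pool.Agent.J4H92.CP

/-- vertices of the product -/
abbrev V4 (n0 n1 n2 n3 : ℕ) : Type := Fin (n0 + 1) × Fin (n1 + 1) × Fin (n2 + 1) × Fin (n3 + 1)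

/-- the tree of a parent function -/
def Tg {n : ℕ} (τ : Par n) : SimpleGraph (Fin (n + 1)) where
  Adj x y := x ≠ y ∧ ((y ≠ 0 ∧ x = τ.p y) ∨ (x ≠ 0 ∧ y = τ.p x))
  symm := ⟨fun _ _ h => ⟨h.1.symm, h.2.symm⟩⟩
  loopless := ⟨fun _ h => h.1 rfl⟩

theorem adj_par {n : ℕ} (τ : Par n) {v : Fin (n + 1)} (hv : v ≠ 0) : (Tg τ).Adj v (τ.p v) :=
  ⟨(τ.lt v hv).ne', Or.inr ⟨hv, rfl⟩⟩

section

variable {n0 n1 n2 n3 : ℕ} (τ0 : Par n0) (τ1 : Par n1) (τ2 : Par n2) (τ3 : Par n3)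

/-- the tables of the four directions -/
noncomputable def kk (η : ℝ) : Fin 4 → V4 n0 n1 n2 n3 → V4 n0 n1 n2 n3 → V4 n0 n1 n2 n3 → ℝ
  | 0 => kp ke (kp (kf τ1 η) (kp (kf τ2 η) (kf τ3 η)))
  | 1 => kp (kf τ0 η) (kp ke (kp (kf τ2 η) (kf τ3 η)))
  | 2 => kp (kf τ0 η) (kp (kf τ1 η) (kp ke (kf τ3 η)))
  | 3 => kp (kf τ0 η) (kp (kf τ1 η) (kp (kf τ2 η) ke))

theorem eqn_add {T X : Type} [Fintype X] (K : T → X → X → ℝ) (t : T) (F F' : X → X → ℝ) :
    eqn K t (fun y z => F y z + F' y z) = eqn K t F + eqn K t F' := by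
  unfold eqn
  rw [← Finset.sum_add_distrib]
  refine Finset.sum_congr rfl fun y _ => ?_
  rw [← Finset.sum_add_distrib]
  refine Finset.sum_congr rfl fun z _ => ?_
  ring

theorem eqn_smul {T X : Type} [Fintype X] (K : T → X → X → ℝ) (t : T) (c : ℝ) (F : X → X → ℝ) :
    eqn K t (fun y z => c * F y z) = c * eqn K t F := by
  unfold eqn
  rw [Finset.mul_sum]
  refine Finset.sum_congr rfl fun y _ => ?_
  rw [Finset.mul_sum]
  refine Finset.sum_congr rfl fun z _ => ?_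
  ring

/-- the system with parameter `η` -/
noncomputable def L4 (P : V4 n0 n1 n2 n3 → Fin 3 → ℝ) (η : ℝ) :
    (V4 n0 n1 n2 n3 → Fin 3 → ℝ) →ₗ[ℝ] (Fin 4 × V4 n0 n1 n2 n3 → ℝ) where
  toFun M j := eqn (kk τ0 τ1 τ2 τ3 η j.1) j.2 (fun y z => P y ⬝ᵥ M z)
  map_add' M M' := by
    funext j
    simp only [Pi.add_apply, dotProduct_add]
    exact eqn_add _ _ _ _
  map_smul' c M := by
    funext j
    simp only [Pi.smul_apply, dotProduct_smul, smul_eq_mul, RingHom.id_apply]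
    exact eqn_smul _ _ _ _

theorem ke_cont {n : ℕ} (x y z : Fin (n + 1)) : Continuous (fun _ : ℝ => ke x y z) :=
  continuous_const

theorem kk_cont (i : Fin 4) (t y z : V4 n0 n1 n2 n3) :
    Continuous (fun η : ℝ => kk τ0 τ1 τ2 τ3 η i t y z) := by
  have h0 := fun x y z => kf_cont (τ := τ0) x y z
  have h1 := fun x y z => kf_cont (τ := τ1) x y z
  have h2 := fun x y z => kf_cont (τ := τ2) x y z
  have h3 := fun x y z => kf_cont (τ := τ3) x y z
  fin_cases i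
  · exact continuous_const.mul ((h1 _ _ _).mul ((h2 _ _ _).mul (h3 _ _ _)))
  · exact (h0 _ _ _).mul (continuous_const.mul ((h2 _ _ _).mul (h3 _ _ _)))
  · exact (h0 _ _ _).mul ((h1 _ _ _).mul (continuous_const.mul (h3 _ _ _)))
  · exact (h0 _ _ _).mul ((h1 _ _ _).mul ((h2 _ _ _).mul continuous_const))

theorem L4_cont (P : V4 n0 n1 n2 n3 → Fin 3 → ℝ) (M : V4 n0 n1 n2 n3 → Fin 3 → ℝ)
    (j : Fin 4 × V4 n0 n1 n2 n3) :
    Continuous (fun η => L4 τ0 τ1 τ2 τ3 P η M j) := by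
  show Continuous fun η => ∑ y, ∑ z, kk τ0 τ1 τ2 τ3 η j.1 j.2 y z * (P y ⬝ᵥ M z)
  exact continuous_finsetSum _ fun y _ => continuous_finsetSum _ fun z _ =>
    (kk_cont τ0 τ1 τ2 τ3 _ _ _ _).mul continuous_const

theorem dot_sums {X : Type} [Fintype X] (a b : X → ℝ) (P M : X → Fin 3 → ℝ) :
    ∑ y, ∑ z, a y * b z * (P y ⬝ᵥ M z) = (∑ y, a y • P y) ⬝ᵥ (∑ z, b z • M z) := by
  rw [sum_dotProduct]
  refine Finset.sum_congr rfl fun y _ => ?_
  rw [dotProduct_sum]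
  refine Finset.sum_congr rfl fun z _ => ?_
  rw [smul_dotProduct, dotProduct_smul]
  simp only [smul_eq_mul]
  ring

/-- the product graph -/
abbrev G4 : SimpleGraph (V4 n0 n1 n2 n3) := Tg τ0 □ (Tg τ1 □ (Tg τ2 □ Tg τ3))

theorem collapse4 (P : V4 n0 n1 n2 n3 → Fin 3 → ℝ) (k : ℕ)
    (h : finrank ℝ (LinearMap.ker (L4 τ0 τ1 τ2 τ3 P 0)) ≤ k) : Mu 0 k (G4 τ0 τ1 τ2 τ3) := by
  classical
  obtain ⟨η, hη, hk⟩ := semicont (L4 τ0 τ1 τ2 τ3 P) (L4_cont τ0 τ1 τ2 τ3 P) h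
  set S := (full τ0 η hη).prod ((full τ1 η hη).prod ((full τ2 η hη).prod (full τ3 η hη))) with hS
  let ev : (V4 n0 n1 n2 n3 → Fin 3 → ℝ) → (V4 n0 n1 n2 n3 → Fin 3 → ℝ) :=
    fun Q v => ∑ y, S.A v y • Q y
  refine ⟨ev P, fun _ i => i.elim0, le_trans ?_ hk⟩
  let Φ : (V4 n0 n1 n2 n3 → Fin 3 → ℝ) →ₗ[ℝ] (V4 n0 n1 n2 n3 → Fin 3 → ℝ) :=
    { toFun := fun m y => ∑ v, S.W' y v • m v
      map_add' := fun m m' => by
        funext y
        simp only [Pi.add_apply, smul_add, Finset.sum_add_distrib]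
      map_smul' := fun c m => by
        funext y
        simp only [Pi.smul_apply, RingHom.id_apply, Finset.smul_sum]
        refine Finset.sum_congr rfl fun v _ => ?_
        rw [smul_comm] }
  have hinv : ∀ m, ev (Φ m) = m := by
    intro m
    funext v
    show ∑ y, S.A v y • ∑ w, S.W' y w • m w = m v
    simp_rw [Finset.smul_sum, smul_smul]
    rw [Finset.sum_comm]
    have h1 : ∀ w, ∑ y, (S.A v y * S.W' y w) • m w = (if v = w then (1 : ℝ) else 0) • m w := by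
      intro w
      rw [← Finset.sum_smul]
      congr 1
      exact S.inv' v w
    simp_rw [h1]
    simp
  -- differences
  have d0 : ∀ (Q : V4 n0 n1 n2 n3 → Fin 3 → ℝ) (v : V4 n0 n1 n2 n3),
      ∑ y, ((edge τ0 η hη).prod ((full τ1 η hη).prod
        ((full τ2 η hη).prod (full τ3 η hη)))).A v y • Q y =
      if v.1 = 0 then 0 else ev Q v - ev Q (τ0.p v.1, v.2) := by
    intro Q v
    by_cases hv : v.1 = 0
    · rw [if_pos hv]
      refine Finset.sum_eq_zero fun y _ => ?_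
      simp [Tn.prod, edge, hv]
    · rw [if_neg hv, ← Finset.sum_sub_distrib]
      refine Finset.sum_congr rfl fun y _ => ?_
      rw [← sub_smul]
      congr 1
      simp only [hS, Tn.prod, edge, full, if_neg hv]
      ring
  have d1 : ∀ (Q : V4 n0 n1 n2 n3 → Fin 3 → ℝ) (v : V4 n0 n1 n2 n3),
      ∑ y, ((full τ0 η hη).prod ((edge τ1 η hη).prod
        ((full τ2 η hη).prod (full τ3 η hη)))).A v y • Q y =
      if v.2.1 = 0 then 0 else ev Q v - ev Q (v.1, τ1.p v.2.1, v.2.2) := by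
    intro Q v
    by_cases hv : v.2.1 = 0
    · rw [if_pos hv]
      refine Finset.sum_eq_zero fun y _ => ?_
      simp [Tn.prod, edge, hv]
    · rw [if_neg hv, ← Finset.sum_sub_distrib]
      refine Finset.sum_congr rfl fun y _ => ?_
      rw [← sub_smul]
      congr 1
      simp only [hS, Tn.prod, edge, full, if_neg hv]
      ring
  have d2 : ∀ (Q : V4 n0 n1 n2 n3 → Fin 3 → ℝ) (v : V4 n0 n1 n2 n3),
      ∑ y, ((full τ0 η hη).prod ((full τ1 η hη).prod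
        ((edge τ2 η hη).prod (full τ3 η hη)))).A v y • Q y =
      if v.2.2.1 = 0 then 0 else ev Q v - ev Q (v.1, v.2.1, τ2.p v.2.2.1, v.2.2.2) := by
    intro Q v
    by_cases hv : v.2.2.1 = 0
    · rw [if_pos hv]
      refine Finset.sum_eq_zero fun y _ => ?_
      simp [Tn.prod, edge, hv]
    · rw [if_neg hv, ← Finset.sum_sub_distrib]
      refine Finset.sum_congr rfl fun y _ => ?_
      rw [← sub_smul]
      congr 1
      simp only [hS, Tn.prod, edge, full, if_neg hv]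
      ring
  have d3 : ∀ (Q : V4 n0 n1 n2 n3 → Fin 3 → ℝ) (v : V4 n0 n1 n2 n3),
      ∑ y, ((full τ0 η hη).prod ((full τ1 η hη).prod
        ((full τ2 η hη).prod (edge τ3 η hη)))).A v y • Q y =
      if v.2.2.2 = 0 then 0 else ev Q v - ev Q (v.1, v.2.1, v.2.2.1, τ3.p v.2.2.2) := by
    intro Q v
    by_cases hv : v.2.2.2 = 0
    · rw [if_pos hv]
      refine Finset.sum_eq_zero fun y _ => ?_
      simp [Tn.prod, edge, hv]
    · rw [if_neg hv, ← Finset.sum_sub_distrib]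
      refine Finset.sum_congr rfl fun y _ => ?_
      rw [← sub_smul]
      congr 1
      simp only [hS, Tn.prod, edge, full, if_neg hv]
      ring
  have hmem : ∀ m ∈ Sol (G4 τ0 τ1 τ2 τ3) (df (ev P)) (fun _ (i : Fin 0) => i.elim0),
      Φ m ∈ LinearMap.ker (L4 τ0 τ1 τ2 τ3 P η) := by
    intro m hm
    rw [LinearMap.mem_ker]
    funext j
    obtain ⟨i, t⟩ := j
    fin_cases i
    · refine Tn.eqn_zero ((edge τ0 η hη).prod ((full τ1 η hη).prod
        ((full τ2 η hη).prod (full τ3 η hη)))) _ (fun v => ?_) t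
      rw [dot_sums, d0, d0, hinv]
      by_cases hv : v.1 = 0
      · simp [hv]
      · rw [if_neg hv, if_neg hv]
        refine hm.1 v (τ0.p v.1, v.2) ?_
        exact Or.inl ⟨adj_par τ0 hv, rfl⟩
    · refine Tn.eqn_zero ((full τ0 η hη).prod ((edge τ1 η hη).prod
        ((full τ2 η hη).prod (full τ3 η hη)))) _ (fun v => ?_) t
      rw [dot_sums, d1, d1, hinv]
      by_cases hv : v.2.1 = 0
      · simp [hv]
      · rw [if_neg hv, if_neg hv]
        refine hm.1 v (v.1, τ1.p v.2.1, v.2.2) ?_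
        exact Or.inr ⟨Or.inl ⟨adj_par τ1 hv, rfl⟩, rfl⟩
    · refine Tn.eqn_zero ((full τ0 η hη).prod ((full τ1 η hη).prod
        ((edge τ2 η hη).prod (full τ3 η hη)))) _ (fun v => ?_) t
      rw [dot_sums, d2, d2, hinv]
      by_cases hv : v.2.2.1 = 0
      · simp [hv]
      · rw [if_neg hv, if_neg hv]
        refine hm.1 v (v.1, v.2.1, τ2.p v.2.2.1, v.2.2.2) ?_
        exact Or.inr ⟨Or.inr ⟨Or.inl ⟨adj_par τ2 hv, rfl⟩, rfl⟩, rfl⟩
    · refine Tn.eqn_zero ((full τ0 η hη).prod ((full τ1 η hη).prod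
        ((full τ2 η hη).prod (edge τ3 η hη)))) _ (fun v => ?_) t
      rw [dot_sums, d3, d3, hinv]
      by_cases hv : v.2.2.2 = 0
      · simp [hv]
      · rw [if_neg hv, if_neg hv]
        refine hm.1 v (v.1, v.2.1, v.2.2.1, τ3.p v.2.2.2) ?_
        exact Or.inr ⟨Or.inr ⟨Or.inr ⟨adj_par τ3 hv, rfl⟩, rfl⟩, rfl⟩
  have hinj : Function.Injective ((Φ.domRestrict
      (Sol (G4 τ0 τ1 τ2 τ3) (df (ev P)) (fun _ (i : Fin 0) => i.elim0))).codRestrict
        (LinearMap.ker (L4 τ0 τ1 τ2 τ3 P η)) (fun m => hmem m m.2)) := by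
    rw [injective_iff_map_eq_zero]
    rintro ⟨m, hm⟩ h0
    rw [Subtype.ext_iff] at h0
    have h1 : Φ m = 0 := h0
    rw [Subtype.ext_iff]
    show m = 0
    rw [← hinv m, h1]
    funext v
    show ∑ y, S.A v y • (0 : V4 n0 n1 n2 n3 → Fin 3 → ℝ) y = 0
    simp
  exact LinearMap.finrank_le_finrank_of_injective hinj

theorem ker_zero {P M : V4 n0 n1 n2 n3 → Fin 3 → ℝ}
    (h : M ∈ LinearMap.ker (L4 τ0 τ1 τ2 τ3 P 0)) (t0 : Fin (n0 + 1)) (t1 : Fin (n1 + 1))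
    (t2 : Fin (n2 + 1)) (t3 : Fin (n3 + 1)) :
    (t0 ≠ 0 → spl t1 (fun y1 z1 => spl t2 (fun y2 z2 => spl t3 (fun y3 z3 =>
      P (t0, y1, y2, y3) ⬝ᵥ M (t0, z1, z2, z3)))) = 0) ∧
    (t1 ≠ 0 → spl t0 (fun y0 z0 => spl t2 (fun y2 z2 => spl t3 (fun y3 z3 =>
      P (y0, t1, y2, y3) ⬝ᵥ M (z0, t1, z2, z3)))) = 0) ∧
    (t2 ≠ 0 → spl t0 (fun y0 z0 => spl t1 (fun y1 z1 => spl t3 (fun y3 z3 =>
      P (y0, y1, t2, y3) ⬝ᵥ M (z0, z1, t2, z3)))) = 0) ∧
    (t3 ≠ 0 → spl t0 (fun y0 z0 => spl t1 (fun y1 z1 => spl t2 (fun y2 z2 =>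
      P (y0, y1, y2, t3) ⬝ᵥ M (z0, z1, z2, t3)))) = 0) := by
  rw [LinearMap.mem_ker] at h
  have h0 : eqn (kp ke (kp (kf τ1 0) (kp (kf τ2 0) (kf τ3 0)))) (t0, t1, t2, t3)
      (fun y z => P y ⬝ᵥ M z) = 0 := congrFun h (0, t0, t1, t2, t3)
  have h1 : eqn (kp (kf τ0 0) (kp ke (kp (kf τ2 0) (kf τ3 0)))) (t0, t1, t2, t3)
      (fun y z => P y ⬝ᵥ M z) = 0 := congrFun h (1, t0, t1, t2, t3)
  have h2 : eqn (kp (kf τ0 0) (kp (kf τ1 0) (kp ke (kf τ3 0)))) (t0, t1, t2, t3)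
      (fun y z => P y ⬝ᵥ M z) = 0 := congrFun h (2, t0, t1, t2, t3)
  have h3 : eqn (kp (kf τ0 0) (kp (kf τ1 0) (kp (kf τ2 0) ke))) (t0, t1, t2, t3)
      (fun y z => P y ⬝ᵥ M z) = 0 := congrFun h (3, t0, t1, t2, t3)
  simp only [eqn_kp, eqn_kf, eqn_ke] at h0 h1 h2 h3
  refine ⟨fun h => ?_, fun h => ?_, fun h => ?_, fun h => ?_⟩
  · rw [if_neg h] at h0
    exact h0
  · simp only [if_neg h] at h1
    exact h1
  · simp only [if_neg h] at h2
    exact h2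
  · simp only [if_neg h] at h3
    exact h3

end

end Pool.Agent.J4H92.CT
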