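import Pool.Agent.J4H92.CT.Coll

/-!
# The collapse of a product of three trees with a pin at each vertex
-/

set_option autoImplicit false

namespace Pool.Agent.J4H92.CT

open Module SimpleGraph Pool.Agent.J4H92.CP

/-- vertices of the product -/
abbrev V3 (n0 n1 n2 : ℕ) : Type := Fin (n0 + 1) × Fin (n1 + 1) × Fin (n2 + 1)

section

variable {n0 n1 n2 : ℕ} (τ0 : Par n0) (τ1 : Par n1) (τ2 : Par n2)

/-- the tables of the three directions and of the pins -/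
noncomputable def kk3 (η : ℝ) : Fin 4 → V3 n0 n1 n2 → V3 n0 n1 n2 → V3 n0 n1 n2 → ℝ
  | 0 => kp ke (kp (kf τ1 η) (kf τ2 η))
  | 1 => kp (kf τ0 η) (kp ke (kf τ2 η))
  | 2 => kp (kf τ0 η) (kp (kf τ1 η) ke)
  | 3 => kp (kf τ0 η) (kp (kf τ1 η) (kf τ2 η))

/-- the parameters: directions or pins -/
def pd (P Q : V3 n0 n1 n2 → Fin 3 → ℝ) : Fin 4 → V3 n0 n1 n2 → Fin 3 → ℝ
  | 0 => P
  | 1 => P
  | 2 => P
  | 3 => Q

/-- the system with parameter `η` -/
noncomputable def L3 (P Q : V3 n0 n1 n2 → Fin 3 → ℝ) (η : ℝ) :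
    (V3 n0 n1 n2 → Fin 3 → ℝ) →ₗ[ℝ] (Fin 4 × V3 n0 n1 n2 → ℝ) where
  toFun M j := eqn (kk3 τ0 τ1 τ2 η j.1) j.2 (fun y z => pd P Q j.1 y ⬝ᵥ M z)
  map_add' M M' := by
    funext j
    simp only [Pi.add_apply, dotProduct_add]
    exact eqn_add _ _ _ _
  map_smul' c M := by
    funext j
    simp only [Pi.smul_apply, dotProduct_smul, smul_eq_mul, RingHom.id_apply]
    exact eqn_smul _ _ _ _

theorem kk3_cont (i : Fin 4) (t y z : V3 n0 n1 n2) :
    Continuous (fun η : ℝ => kk3 τ0 τ1 τ2 η i t y z) := by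
  have h0 := fun x y z => kf_cont (τ := τ0) x y z
  have h1 := fun x y z => kf_cont (τ := τ1) x y z
  have h2 := fun x y z => kf_cont (τ := τ2) x y z
  fin_cases i
  · exact continuous_const.mul ((h1 _ _ _).mul (h2 _ _ _))
  · exact (h0 _ _ _).mul (continuous_const.mul (h2 _ _ _))
  · exact (h0 _ _ _).mul ((h1 _ _ _).mul continuous_const)
  · exact (h0 _ _ _).mul ((h1 _ _ _).mul (h2 _ _ _))

theorem L3_cont (P Q : V3 n0 n1 n2 → Fin 3 → ℝ) (M : V3 n0 n1 n2 → Fin 3 → ℝ)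
    (j : Fin 4 × V3 n0 n1 n2) : Continuous (fun η => L3 τ0 τ1 τ2 P Q η M j) := by
  show Continuous fun η => ∑ y, ∑ z, kk3 τ0 τ1 τ2 η j.1 j.2 y z * (pd P Q j.1 y ⬝ᵥ M z)
  exact continuous_finsetSum _ fun y _ => continuous_finsetSum _ fun z _ =>
    (kk3_cont τ0 τ1 τ2 _ _ _ _).mul continuous_const

/-- the product graph -/
abbrev G3 : SimpleGraph (V3 n0 n1 n2) := Tg τ0 □ (Tg τ1 □ Tg τ2)

theorem collapse3 (P Q : V3 n0 n1 n2 → Fin 3 → ℝ) (k : ℕ)
    (h : finrank ℝ (LinearMap.ker (L3 τ0 τ1 τ2 P Q 0)) ≤ k) : Mu 1 k (G3 τ0 τ1 τ2) := by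
  classical
  obtain ⟨η, hη, hk⟩ := semicont (L3 τ0 τ1 τ2 P Q) (L3_cont τ0 τ1 τ2 P Q) h
  set S := (full τ0 η hη).prod ((full τ1 η hη).prod (full τ2 η hη)) with hS
  let ev : (V3 n0 n1 n2 → Fin 3 → ℝ) → (V3 n0 n1 n2 → Fin 3 → ℝ) :=
    fun Q v => ∑ y, S.A v y • Q y
  refine ⟨ev P, fun v _ => ev Q v, le_trans ?_ hk⟩
  let Φ : (V3 n0 n1 n2 → Fin 3 → ℝ) →ₗ[ℝ] (V3 n0 n1 n2 → Fin 3 → ℝ) :=
    { toFun := fun m y => ∑ v, S.W' y v • m v
      map_add' := fun m m' => by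
        funext y
        simp only [Pi.add_apply, smul_add, Finset.sum_add_distrib]
      map_smul' := fun c m => by
        funext y
        simp only [Pi.smul_apply, RingHom.id_apply, Finset.smul_sum]
        refine Finset.sum_congr rfl fun v _ => ?_
        rw [smul_comm] }
  have hinv : ∀ m, ev (Φ m) = m := by
    intro m
    funext v
    show ∑ y, S.A v y • ∑ w, S.W' y w • m w = m v
    simp_rw [Finset.smul_sum, smul_smul]
    rw [Finset.sum_comm]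
    have h1 : ∀ w, ∑ y, (S.A v y * S.W' y w) • m w = (if v = w then (1 : ℝ) else 0) • m w := by
      intro w
      rw [← Finset.sum_smul]
      congr 1
      exact S.inv' v w
    simp_rw [h1]
    simp
  -- differences
  have d0 : ∀ (Q : V3 n0 n1 n2 → Fin 3 → ℝ) (v : V3 n0 n1 n2),
      ∑ y, ((edge τ0 η hη).prod ((full τ1 η hη).prod (full τ2 η hη))).A v y • Q y =
      if v.1 = 0 then 0 else ev Q v - ev Q (τ0.p v.1, v.2) := by
    intro Q v
    by_cases hv : v.1 = 0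
    · rw [if_pos hv]
      refine Finset.sum_eq_zero fun y _ => ?_
      simp [Tn.prod, edge, hv]
    · rw [if_neg hv, ← Finset.sum_sub_distrib]
      refine Finset.sum_congr rfl fun y _ => ?_
      rw [← sub_smul]
      congr 1
      simp only [hS, Tn.prod, edge, full, if_neg hv]
      ring
  have d1 : ∀ (Q : V3 n0 n1 n2 → Fin 3 → ℝ) (v : V3 n0 n1 n2),
      ∑ y, ((full τ0 η hη).prod ((edge τ1 η hη).prod (full τ2 η hη))).A v y • Q y =
      if v.2.1 = 0 then 0 else ev Q v - ev Q (v.1, τ1.p v.2.1, v.2.2) := by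
    intro Q v
    by_cases hv : v.2.1 = 0
    · rw [if_pos hv]
      refine Finset.sum_eq_zero fun y _ => ?_
      simp [Tn.prod, edge, hv]
    · rw [if_neg hv, ← Finset.sum_sub_distrib]
      refine Finset.sum_congr rfl fun y _ => ?_
      rw [← sub_smul]
      congr 1
      simp only [hS, Tn.prod, edge, full, if_neg hv]
      ring
  have d2 : ∀ (Q : V3 n0 n1 n2 → Fin 3 → ℝ) (v : V3 n0 n1 n2),
      ∑ y, ((full τ0 η hη).prod ((full τ1 η hη).prod (edge τ2 η hη))).A v y • Q y =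
      if v.2.2 = 0 then 0 else ev Q v - ev Q (v.1, v.2.1, τ2.p v.2.2) := by
    intro Q v
    by_cases hv : v.2.2 = 0
    · rw [if_pos hv]
      refine Finset.sum_eq_zero fun y _ => ?_
      simp [Tn.prod, edge, hv]
    · rw [if_neg hv, ← Finset.sum_sub_distrib]
      refine Finset.sum_congr rfl fun y _ => ?_
      rw [← sub_smul]
      congr 1
      simp only [hS, Tn.prod, edge, full, if_neg hv]
      ring
  have hmem : ∀ m ∈ Sol (G3 τ0 τ1 τ2) (df (ev P)) (fun v (_ : Fin 1) => ev Q v),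
      Φ m ∈ LinearMap.ker (L3 τ0 τ1 τ2 P Q η) := by
    intro m hm
    rw [LinearMap.mem_ker]
    funext j
    obtain ⟨i, t⟩ := j
    fin_cases i
    · refine Tn.eqn_zero ((edge τ0 η hη).prod ((full τ1 η hη).prod (full τ2 η hη))) _
        (fun v => ?_) t
      show ∑ y, ∑ z, _ * _ * (P y ⬝ᵥ Φ m z) = 0
      rw [dot_sums, d0, d0, hinv]
      by_cases hv : v.1 = 0
      · simp [hv]
      · rw [if_neg hv, if_neg hv]
        refine hm.1 v (τ0.p v.1, v.2) ?_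
        exact Or.inl ⟨adj_par τ0 hv, rfl⟩
    · refine Tn.eqn_zero ((full τ0 η hη).prod ((edge τ1 η hη).prod (full τ2 η hη))) _
        (fun v => ?_) t
      show ∑ y, ∑ z, _ * _ * (P y ⬝ᵥ Φ m z) = 0
      rw [dot_sums, d1, d1, hinv]
      by_cases hv : v.2.1 = 0
      · simp [hv]
      · rw [if_neg hv, if_neg hv]
        refine hm.1 v (v.1, τ1.p v.2.1, v.2.2) ?_
        exact Or.inr ⟨Or.inl ⟨adj_par τ1 hv, rfl⟩, rfl⟩
    · refine Tn.eqn_zero ((full τ0 η hη).prod ((full τ1 η hη).prod (edge τ2 η hη))) _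
        (fun v => ?_) t
      show ∑ y, ∑ z, _ * _ * (P y ⬝ᵥ Φ m z) = 0
      rw [dot_sums, d2, d2, hinv]
      by_cases hv : v.2.2 = 0
      · simp [hv]
      · rw [if_neg hv, if_neg hv]
        refine hm.1 v (v.1, v.2.1, τ2.p v.2.2) ?_
        exact Or.inr ⟨Or.inr ⟨adj_par τ2 hv, rfl⟩, rfl⟩
    · refine Tn.eqn_zero ((full τ0 η hη).prod ((full τ1 η hη).prod (full τ2 η hη))) _
        (fun v => ?_) t
      show ∑ y, ∑ z, _ * _ * (Q y ⬝ᵥ Φ m z) = 0
      rw [dot_sums]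
      have h1 : ∑ z, ((full τ0 η hη).prod ((full τ1 η hη).prod (full τ2 η hη))).A v z • Φ m z =
          m v := congrFun (hinv m) v
      rw [h1]
      exact hm.2 v 0
  have hinj : Function.Injective ((Φ.domRestrict
      (Sol (G3 τ0 τ1 τ2) (df (ev P)) (fun v (_ : Fin 1) => ev Q v))).codRestrict
        (LinearMap.ker (L3 τ0 τ1 τ2 P Q η)) (fun m => hmem m m.2)) := by
    rw [injective_iff_map_eq_zero]
    rintro ⟨m, hm⟩ h0
    rw [Subtype.ext_iff] at h0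
    have h1 : Φ m = 0 := h0
    rw [Subtype.ext_iff]
    show m = 0
    rw [← hinv m, h1]
    funext v
    show ∑ y, S.A v y • (0 : V3 n0 n1 n2 → Fin 3 → ℝ) y = 0
    simp
  exact LinearMap.finrank_le_finrank_of_injective hinj

theorem ker_zero3 {P Q M : V3 n0 n1 n2 → Fin 3 → ℝ}
    (h : M ∈ LinearMap.ker (L3 τ0 τ1 τ2 P Q 0)) (t0 : Fin (n0 + 1)) (t1 : Fin (n1 + 1))
    (t2 : Fin (n2 + 1)) :
    (t0 ≠ 0 → spl t1 (fun y1 z1 => spl t2 (fun y2 z2 =>
      P (t0, y1, y2) ⬝ᵥ M (t0, z1, z2))) = 0) ∧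
    (t1 ≠ 0 → spl t0 (fun y0 z0 => spl t2 (fun y2 z2 =>
      P (y0, t1, y2) ⬝ᵥ M (z0, t1, z2))) = 0) ∧
    (t2 ≠ 0 → spl t0 (fun y0 z0 => spl t1 (fun y1 z1 =>
      P (y0, y1, t2) ⬝ᵥ M (z0, z1, t2))) = 0) ∧
    (spl t0 (fun y0 z0 => spl t1 (fun y1 z1 => spl t2 (fun y2 z2 =>
      Q (y0, y1, y2) ⬝ᵥ M (z0, z1, z2)))) = 0) := by
  rw [LinearMap.mem_ker] at h
  have h0 : eqn (kp ke (kp (kf τ1 0) (kf τ2 0))) (t0, t1, t2)
      (fun y z => P y ⬝ᵥ M z) = 0 := congrFun h (0, t0, t1, t2)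
  have h1 : eqn (kp (kf τ0 0) (kp ke (kf τ2 0))) (t0, t1, t2)
      (fun y z => P y ⬝ᵥ M z) = 0 := congrFun h (1, t0, t1, t2)
  have h2 : eqn (kp (kf τ0 0) (kp (kf τ1 0) ke)) (t0, t1, t2)
      (fun y z => P y ⬝ᵥ M z) = 0 := congrFun h (2, t0, t1, t2)
  have h3 : eqn (kp (kf τ0 0) (kp (kf τ1 0) (kf τ2 0))) (t0, t1, t2)
      (fun y z => Q y ⬝ᵥ M z) = 0 := congrFun h (3, t0, t1, t2)
  simp only [eqn_kp, eqn_kf, eqn_ke] at h0 h1 h2 h3
  refine ⟨fun h => ?_, fun h => ?_, fun h => ?_, h3⟩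
  · rw [if_neg h] at h0
    exact h0
  · simp only [if_neg h] at h1
    exact h1
  · simp only [if_neg h] at h2
    exact h2

end

end Pool.Agent.J4H92.CT
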