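import Pool.Agent.J4H92.CP.Classify
import Pool.Agent.J4H92.CT.Base3
import Pool.Agent.J4H92.CT.BaseA
import Pool.Agent.J4H92.CT.BaseB
import Pool.Agent.J4H92.CT.BaseC
import Pool.Agent.J4H92.CT.BaseD

/-!
# Products of three graphs with pins, and of four graphs, of large orders
-/

set_option autoImplicit false

namespace Pool.Agent.J4H92.CT

open SimpleGraph Pool.Agent.J4H92.CP

/-- `1/a + 1/b + 1/c ≤ 1` -/
def P3 (a b c : ℕ) : Prop := b * c + a * c + a * b ≤ a * b * c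

instance (a b c : ℕ) : Decidable (P3 a b c) := inferInstanceAs (Decidable (_ ≤ _))

theorem P3.mono1 {a b c a' : ℕ} (hb : 2 ≤ b) (hc : 2 ≤ c) (ha : a ≤ a') (h : P3 a b c) :
    P3 a' b c := by
  obtain ⟨t, rfl⟩ := Nat.exists_eq_add_of_le ha
  unfold P3 at *
  have h1 : b + c ≤ b * c := by nlinarith
  have h2 : t * (b + c) ≤ t * (b * c) := Nat.mul_le_mul_left t h1
  nlinarith

theorem P3.swap12 {a b c : ℕ} (h : P3 a b c) : P3 b a c := by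
  unfold P3 at *
  nlinarith

theorem P3.swap13 {a b c : ℕ} (h : P3 a b c) : P3 c b a := by
  unfold P3 at *
  nlinarith

theorem P3.swap23 {a b c : ℕ} (h : P3 a b c) : P3 a c b := by
  unfold P3 at *
  nlinarith

theorem P3.mono {a b c a' b' c' : ℕ} (hb : 2 ≤ b) (hc : 2 ≤ c) (ha' : a ≤ a')
    (hb' : b ≤ b') (hc' : c ≤ c') (ha : 2 ≤ a) (h : P3 a b c) : P3 a' b' c' := by
  have h1 : P3 a' b c := h.mono1 hb hc ha'
  have h2 : P3 b' a' c := h1.swap12.mono1 (by omega) hc hb'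
  have h3 : P3 c' a' b' := h2.swap13.mono1 (by omega) (by omega) hc'
  exact h3.swap12.swap23

theorem ct_tree {A : FG} (hA : Nt A) {m : ℕ} (hm : 2 ≤ m) (h : m ≤ cd A) :
    ∃ a, Va m a ∧ Ct A (fT m a) := by
  obtain ⟨a, ha, g, hg⟩ := contr_tree hA.1 (by omega : 0 < m) h
  exact ⟨a, ha, g, hg⟩

theorem dom3 {A B C : FG} (hA : Nt A) (hB : Nt B) (hC : Nt C) {m0 m1 m2 k : ℕ}
    (base : ∀ {a0 a1 a2 : ℕ → ℕ}, Va m0 a0 → Va m1 a1 → Va m2 a2 →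
      MuL 1 k [fT m0 a0, fT m1 a1, fT m2 a2])
    (h0 : 2 ≤ m0) (h1 : 2 ≤ m1) (h2 : 2 ≤ m2) (hA' : m0 ≤ cd A) (hB' : m1 ≤ cd B)
    (hC' : m2 ≤ cd C) : MuL 1 k [A, B, C] := by
  obtain ⟨a0, v0, c0⟩ := ct_tree hA h0 hA'
  obtain ⟨a1, v1, c1⟩ := ct_tree hB h1 hB'
  obtain ⟨a2, v2, c2⟩ := ct_tree hC h2 hC'
  refine contr_all (j := 1) (k := k) (n := 2) (fun L hL hN => pin2 L (by omega) hN)
    (L := [A, B, C]) (L' := [fT m0 a0, fT m1 a1, fT m2 a2]) ?_ [] (by simp) (by simp)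
    (base v0 v1 v2)
  exact List.Forall₂.cons ⟨c0, hA, nt_fT h0 v0⟩ (List.Forall₂.cons ⟨c1, hB, nt_fT h1 v1⟩
    (List.Forall₂.cons ⟨c2, hC, nt_fT h2 v2⟩ List.Forall₂.nil))

theorem arith3 {a b c : ℕ} (ha : 2 ≤ a) (hb : 2 ≤ b) (hc : 2 ≤ c) (h : P3 a b c) :
    (3 ≤ a ∧ 3 ≤ b ∧ 3 ≤ c) ∨ (3 ≤ b ∧ 6 ≤ c) ∨ (3 ≤ c ∧ 6 ≤ b) ∨ (3 ≤ a ∧ 6 ≤ c) ∨
      (3 ≤ c ∧ 6 ≤ a) ∨ (3 ≤ a ∧ 6 ≤ b) ∨ (3 ≤ b ∧ 6 ≤ a) ∨ (4 ≤ b ∧ 4 ≤ c) ∨
      (4 ≤ a ∧ 4 ≤ c) ∨ (4 ≤ a ∧ 4 ≤ b) := by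
  unfold P3 at h
  have key : ∀ x y : ℕ, 2 ≤ x → 2 ≤ y → x * y + 2 * y + 2 * x ≤ 2 * x * y →
      (3 ≤ x ∧ 6 ≤ y) ∨ (3 ≤ y ∧ 6 ≤ x) ∨ (4 ≤ x ∧ 4 ≤ y) := by
    intro x y hx hy hxy
    by_cases x4 : 4 ≤ x
    · by_cases y4 : 4 ≤ y
      · exact Or.inr (Or.inr ⟨x4, y4⟩)
      · have : y = 2 ∨ y = 3 := by omega
        rcases this with rfl | rfl
        · omega
        · omega
    · have : x = 2 ∨ x = 3 := by omega
      rcases this with rfl | rfl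
      · omega
      · omega
  by_cases h3 : 3 ≤ a ∧ 3 ≤ b ∧ 3 ≤ c
  · exact Or.inl h3
  · have : a = 2 ∨ b = 2 ∨ c = 2 := by omega
    rcases this with rfl | rfl | rfl
    · rcases key b c hb hc h with h | h | h
      · exact Or.inr (Or.inl h)
      · exact Or.inr (Or.inr (Or.inl h))
      · exact Or.inr (Or.inr (Or.inr (Or.inr (Or.inr (Or.inr (Or.inr (Or.inl h)))))))
    · rcases key a c ha hc (by linarith) with h | h | h
      · exact Or.inr (Or.inr (Or.inr (Or.inl h)))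
      · exact Or.inr (Or.inr (Or.inr (Or.inr (Or.inl h))))
      · exact Or.inr (Or.inr (Or.inr (Or.inr (Or.inr (Or.inr (Or.inr (Or.inr (Or.inl h))))))))
    · rcases key a b ha hb (by linarith) with h | h | h
      · exact Or.inr (Or.inr (Or.inr (Or.inr (Or.inr (Or.inl h)))))
      · exact Or.inr (Or.inr (Or.inr (Or.inr (Or.inr (Or.inr (Or.inl h))))))
      · exact Or.inr (Or.inr (Or.inr (Or.inr (Or.inr (Or.inr (Or.inr (Or.inr (Or.inr h))))))))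

theorem p213 {A B C : FG} {j k : ℕ} (h : MuL j k [B, A, C]) : MuL j k [A, B, C] :=
  h.perm (List.Perm.swap _ _ _)

theorem p132 {A B C : FG} {j k : ℕ} (h : MuL j k [A, C, B]) : MuL j k [A, B, C] :=
  h.perm ((List.Perm.swap _ _ _).cons _)

/-- Products of three connected graphs with a pin at each vertex. -/
theorem pin_three {A B C : FG} (hA : Nt A) (hB : Nt B) (hC : Nt C)
    (h : P3 (cd A) (cd B) (cd C)) : MuL 1 0 [A, B, C] := by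
  have f236 : ∀ {X Y Z : FG}, Nt X → Nt Y → Nt Z → 3 ≤ cd Y → 6 ≤ cd Z → MuL 1 0 [X, Y, Z] :=
    fun hX hY hZ h1 h2 => dom3 hX hY hZ pin_2_3_6 (by norm_num) (by norm_num) (by norm_num)
      hX.2 h1 h2
  have f244 : ∀ {X Y Z : FG}, Nt X → Nt Y → Nt Z → 4 ≤ cd Y → 4 ≤ cd Z → MuL 1 0 [X, Y, Z] :=
    fun hX hY hZ h1 h2 => dom3 hX hY hZ pin_2_4_4 (by norm_num) (by norm_num) (by norm_num)
      hX.2 h1 h2
  rcases arith3 hA.2 hB.2 hC.2 h with h | h | h | h | h | h | h | h | h | h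
  · exact dom3 hA hB hC pin_3_3_3 (by norm_num) (by norm_num) (by norm_num) h.1 h.2.1 h.2.2
  · exact f236 hA hB hC h.1 h.2
  · exact p132 (f236 hA hC hB h.1 h.2)
  · exact p213 (f236 hB hA hC h.1 h.2)
  · exact p213 (p132 (f236 hB hC hA h.1 h.2))
  · exact p132 (p213 (f236 hC hA hB h.1 h.2))
  · exact p132 (p213 (p132 (f236 hC hB hA h.1 h.2)))
  · exact f244 hA hB hC h.1 h.2
  · exact p213 (f244 hB hA hC h.1 h.2)
  · exact p132 (p213 (f244 hC hA hB h.1 h.2))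

/-- Domination for four factors. -/
theorem dom4 {A B C D : FG} (hA : Nt A) (hB : Nt B) (hC : Nt C) (hD : Nt D) {m0 m1 m2 m3 k : ℕ}
    (base : ∀ {a0 a1 a2 a3 : ℕ → ℕ}, Va m0 a0 → Va m1 a1 → Va m2 a2 → Va m3 a3 →
      MuL 0 k [fT m0 a0, fT m1 a1, fT m2 a2, fT m3 a3])
    (h0 : 2 ≤ m0) (h1 : 2 ≤ m1) (h2 : 2 ≤ m2) (h3 : 2 ≤ m3) (q0 : P3 m1 m2 m3)
    (q1 : P3 m0 m2 m3) (q2 : P3 m0 m1 m3) (q3 : P3 m0 m1 m2) (hA' : m0 ≤ cd A)
    (hB' : m1 ≤ cd B) (hC' : m2 ≤ cd C) (hD' : m3 ≤ cd D) : MuL 0 k [A, B, C, D] := by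
  obtain ⟨a0, v0, c0⟩ := ct_tree hA h0 hA'
  obtain ⟨a1, v1, c1⟩ := ct_tree hB h1 hB'
  obtain ⟨a2, v2, c2⟩ := ct_tree hC h2 hC'
  obtain ⟨a3, v3, c3⟩ := ct_tree hD h3 hD'
  have e : ∀ (m : ℕ) (a : ℕ → ℕ), cd (fT m a) = m := fun m a => Fintype.card_fin m
  have s1 : MuL 0 k [A, fT m1 a1, fT m2 a2, fT m3 a3] :=
    MuL.head c0 (pin_three (nt_fT h1 v1) (nt_fT h2 v2) (nt_fT h3 v3) (by rw [e, e, e]; exact q0))
      (base v0 v1 v2 v3)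
  have s2 : MuL 0 k [B, A, fT m2 a2, fT m3 a3] :=
    MuL.head c1 (pin_three hA (nt_fT h2 v2) (nt_fT h3 v3) (by
      rw [e, e]
      exact q1.mono h2 h3 hA' le_rfl le_rfl h0)) (s1.perm (List.Perm.swap _ _ _))
  have s3 : MuL 0 k [C, A, B, fT m3 a3] := by
    refine MuL.head c2 (pin_three hA hB (nt_fT h3 v3) (by
      rw [e]
      exact q2.mono h1 h3 hA' hB' le_rfl h0)) (s2.perm ?_)
    exact (List.Perm.swap _ _ _).trans (((List.Perm.swap _ _ _).cons _).trans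
      (List.Perm.swap _ _ _))
  have s4 : MuL 0 k [D, A, B, C] := by
    refine MuL.head c3 (pin_three hA hB hC (q3.mono h1 h2 hA' hB' hC' h0)) (s3.perm ?_)
    have := List.perm_middle (a := fT m3 a3) (l₁ := [C, A, B]) (l₂ := [])
    refine List.Perm.trans ?_ this.symm
    refine List.Perm.cons _ ?_
    have h2 := List.perm_middle (a := C) (l₁ := [A, B]) (l₂ := [])
    exact h2
  refine s4.perm ?_
  have := List.perm_middle (a := D) (l₁ := [A, B, C]) (l₂ := [])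
  exact this

end Pool.Agent.J4H92.CT
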