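import Pool.Agent.J4H92.CP.Classify
import Pool.Agent.J4H92.CT.Shape4

/-!
# Subgraphs of independent graphs are independent
-/

set_option autoImplicit false

namespace Pool.Agent.J4H92.CT

open Module SimpleGraph Pool.Agent.J4H92.CP

theorem sub {V V' : Type} [Fintype V] [Fintype V'] {G : SimpleGraph V} {H : SimpleGraph V'}
    (φ : V' → V) (hφ : Function.Injective φ) (hadj : ∀ a b, H.Adj a b → G.Adj (φ a) (φ b))
    {k k' : ℕ} (h : Mu 0 k G) (hk : G.edgeSet.ncard + k ≤ 3 * Fintype.card V)
    (hk' : 3 * Fintype.card V' ≤ H.edgeSet.ncard + k') : Mu 0 k' H := by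
  classical
  obtain ⟨p, d, hp⟩ := h
  refine ⟨fun v => p (φ v), fun _ i => i.elim0, ?_⟩
  set SH := Sol H (df fun v => p (φ v)) (fun _ (i : Fin 0) => i.elim0) with hSH
  let R : (V → Fin 3 → ℝ) →ₗ[ℝ] (V' → Fin 3 → ℝ) := LinearMap.funLeft ℝ (Fin 3 → ℝ) φ
  have hR : ∀ m v, R m v = m (φ v) := fun _ _ => rfl
  let K : Submodule ℝ (V → Fin 3 → ℝ) := SH.comap R
  -- the other edges
  let T : Set (Sym2 V) := G.edgeSet \ (Sym2.map φ '' H.edgeSet)
  have hsub : Sym2.map φ '' H.edgeSet ⊆ G.edgeSet := by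
    rintro _ ⟨e, he, rfl⟩
    induction e with
    | _ a b => exact hadj a b he
  have hTc : T.ncard + H.edgeSet.ncard = G.edgeSet.ncard := by
    have h1 := Set.ncard_sdiff_add_ncard_of_subset hsub (Set.toFinite _)
    rwa [Set.ncard_image_of_injective _ (Sym2.map.injective hφ)] at h1
  let F : K →ₗ[ℝ] (T → ℝ) :=
    { toFun := fun m e => (p (Quot.out e.1).1 - p (Quot.out e.1).2) ⬝ᵥ
        (m.1 (Quot.out e.1).1 - m.1 (Quot.out e.1).2)
      map_add' := fun m m' => by
        funext e
        show _ ⬝ᵥ ((m.1 _ + m'.1 _) - (m.1 _ + m'.1 _)) = _ ⬝ᵥ _ + _ ⬝ᵥ _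
        rw [← dotProduct_add]
        congr 1
        abel
      map_smul' := fun c m => by
        funext e
        show _ ⬝ᵥ (c • m.1 _ - c • m.1 _) = c * (_ ⬝ᵥ _)
        rw [← smul_sub, dotProduct_smul, smul_eq_mul] }
  have hF : ∀ m ∈ LinearMap.ker F, m.1 ∈ Sol G (df p) d := by
    intro m hm
    rw [LinearMap.mem_ker] at hm
    refine ⟨fun u v huv => ?_, fun _ i => i.elim0⟩
    by_cases he : s(u, v) ∈ Sym2.map φ '' H.edgeSet
    · obtain ⟨e, he, hee⟩ := he
      induction e with
      | _ a b =>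
        have h1 := m.2.1 a b he
        simp only [hR, df] at h1
        rw [Sym2.map_mk, Sym2.eq_iff] at hee
        rcases hee with ⟨h2, h3⟩ | ⟨h2, h3⟩
        · rw [h2, h3] at h1
          exact h1
        · rw [h2, h3] at h1
          show (p u - p v) ⬝ᵥ (m.1 u - m.1 v) = 0
          rw [← neg_sub (p v), ← neg_sub (m.1 v), neg_dotProduct_neg]
          exact h1
    · have h1 : (⟨s(u, v), huv, he⟩ : T).1 = s(u, v) := rfl
      have h2 := congrFun hm ⟨s(u, v), huv, he⟩
      have h3 : (p (Quot.out s(u, v)).1 - p (Quot.out s(u, v)).2) ⬝ᵥ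
        (m.1 (Quot.out s(u, v)).1 - m.1 (Quot.out s(u, v)).2) = 0 := h2
      have h4 : s((Quot.out s(u, v)).1, (Quot.out s(u, v)).2) = s(u, v) :=
        Quot.out_eq s(u, v)
      rw [Sym2.eq_iff] at h4
      rcases h4 with ⟨h5, h6⟩ | ⟨h5, h6⟩
      · rw [h5, h6] at h3
        exact h3
      · rw [h5, h6] at h3
        show (p u - p v) ⬝ᵥ (m.1 u - m.1 v) = 0
        rw [← neg_sub (p v), ← neg_sub (m.1 v), neg_dotProduct_neg]
        exact h3
  have c1 : finrank ℝ (LinearMap.ker F) ≤ k := by
    refine le_trans ?_ hp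
    let g : LinearMap.ker F →ₗ[ℝ] Sol G (df p) d :=
      (K.subtype.comp (LinearMap.ker F).subtype).codRestrict _ (fun m => hF m.1 m.2)
    refine LinearMap.finrank_le_finrank_of_injective (f := g) ?_
    intro x y hxy
    have h1 : x.1.1 = y.1.1 := congrArg (fun z => z.1) hxy
    exact Subtype.ext (Subtype.ext h1)
  have c2 : finrank ℝ (LinearMap.range F) ≤ T.ncard := by
    refine (Submodule.finrank_le _).trans ?_
    rw [Module.finrank_fintype_fun_eq_card, ← Nat.card_eq_fintype_card]
    exact le_of_eq rfl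
  have c3 := LinearMap.finrank_range_add_finrank_ker F
  -- the restriction
  let f : K →ₗ[ℝ] SH := (R.domRestrict K).codRestrict SH (fun m => m.2)
  have hf : Function.Surjective f := by
    rintro ⟨m, hm⟩
    let m' : V → Fin 3 → ℝ := fun v => if h : ∃ w, φ w = v then m h.choose else 0
    have hm' : R m' = m := by
      funext w
      rw [hR]
      have h1 : ∃ w', φ w' = φ w := ⟨w, rfl⟩
      show (if h : ∃ w', φ w' = φ w then m h.choose else 0) = m w
      rw [dif_pos h1]
      congr 1
      exact hφ h1.choose_spec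
    refine ⟨⟨m', ?_⟩, ?_⟩
    · show R m' ∈ SH
      rw [hm']
      exact hm
    · exact Subtype.ext hm'
  have c4 := LinearMap.finrank_range_add_finrank_ker f
  have c5 : finrank ℝ (LinearMap.range f) = finrank ℝ SH := by
    rw [LinearMap.range_eq_top.2 hf, finrank_top]
  have c6 : finrank ℝ (LinearMap.ker R) ≤ finrank ℝ (LinearMap.ker f) := by
    have hin : ∀ m ∈ LinearMap.ker R, m ∈ K := by
      intro m hm
      show R m ∈ SH
      rw [LinearMap.mem_ker.1 hm]
      exact SH.zero_mem
    let g : LinearMap.ker R →ₗ[ℝ] K :=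
      (LinearMap.ker R).subtype.codRestrict K (fun m => hin m.1 m.2)
    let g' : LinearMap.ker R →ₗ[ℝ] LinearMap.ker f :=
      g.codRestrict _ (fun m => by
        rw [LinearMap.mem_ker]
        exact Subtype.ext (LinearMap.mem_ker.1 m.2))
    refine LinearMap.finrank_le_finrank_of_injective (f := g') ?_
    intro x y hxy
    exact Subtype.ext (congrArg (fun z => z.1.1) hxy)
  have c7 := LinearMap.finrank_range_add_finrank_ker R
  have c8 : finrank ℝ (LinearMap.range R) ≤ 3 * Fintype.card V' := by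
    refine (Submodule.finrank_le _).trans (le_of_eq ?_)
    rw [Module.finrank_pi_fintype]
    simp [mul_comm]
  have c9 : finrank ℝ (V → Fin 3 → ℝ) = 3 * Fintype.card V := by
    rw [Module.finrank_pi_fintype]
    simp [mul_comm]
  rw [c9] at c7
  omega

/-! ### Embeddings of lists -/

/-- `A` embeds into `B` -/
def Em (A B : FG) : Prop :=
  ∃ φ : A.V → B.V, Function.Injective φ ∧ ∀ x y, A.G.Adj x y → B.G.Adj (φ x) (φ y)

theorem em_list {L L' : List FG} (h : List.Forall₂ Em L L') :
    ∃ φ : (prodL L).V → (prodL L').V, Function.Injective φ ∧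
      ∀ x y, (prodL L).G.Adj x y → (prodL L').G.Adj (φ x) (φ y) := by
  induction h with
  | nil => exact ⟨id, Function.injective_id, fun x y h => h⟩
  | cons hA _ ih =>
    obtain ⟨f, hf, hfa⟩ := hA
    obtain ⟨g, hg, hga⟩ := ih
    refine ⟨fun x => (f x.1, g x.2), ?_, ?_⟩
    · intro x y hxy
      have h1 := congrArg Prod.fst hxy
      have h2 := congrArg Prod.snd hxy
      exact Prod.ext (hf h1) (hg h2)
    · rintro x y (⟨h1, h2⟩ | ⟨h1, h2⟩)
      · exact Or.inl ⟨hfa _ _ h1, congrArg g h2⟩
      · exact Or.inr ⟨hga _ _ h1, congrArg f h2⟩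

theorem sub_list {L L' : List FG} (h : List.Forall₂ Em L L') {k k' : ℕ} (hm : MuL 0 k L')
    (hk : eL L' + k ≤ 3 * nL L') (hk' : 3 * nL L ≤ eL L + k') : MuL 0 k' L := by
  obtain ⟨φ, h1, h2⟩ := em_list h
  exact sub φ h1 h2 hm hk hk'

/-- more edges on the same vertices -/
def Sp (A B : FG) : Prop := ∃ e : A.V ≃ B.V, ∀ x y, B.G.Adj x y → A.G.Adj (e.symm x) (e.symm y)

theorem Sp.refl (A : FG) : Sp A A := ⟨Equiv.refl _, fun _ _ h => h⟩

theorem sp_list {L L' : List FG} (h : List.Forall₂ Sp L L') :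
    ∃ e : (prodL L).V ≃ (prodL L').V,
      ∀ x y, (prodL L').G.Adj x y → (prodL L).G.Adj (e.symm x) (e.symm y) := by
  induction h with
  | nil => exact ⟨Equiv.refl _, fun _ _ h => h⟩
  | cons hA _ ih =>
    obtain ⟨f, hf⟩ := hA
    obtain ⟨g, hg⟩ := ih
    refine ⟨Equiv.prodCongr f g, ?_⟩
    rintro x y (⟨h1, h2⟩ | ⟨h1, h2⟩)
    · exact Or.inl ⟨hf _ _ h1, congrArg g.symm h2⟩
    · exact Or.inr ⟨hg _ _ h1, congrArg f.symm h2⟩

theorem MuL.spanning {L L' : List FG} (h : List.Forall₂ Sp L L') {j k : ℕ} (hm : MuL j k L') :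
    MuL j k L := by
  obtain ⟨e, he⟩ := sp_list h
  exact Mu.pull e he hm

theorem sp_tree {A : FG} (hA : Nt A) : ∃ a, Va (cd A) a ∧ Sp A (fT (cd A) a) := by
  classical
  obtain ⟨a, ha, g, hg⟩ := contr_tree hA.1 (m := cd A) (by have := hA.2; unfold cd; omega) le_rfl
  refine ⟨a, ha, ?_⟩
  have hbij : Function.Bijective g := by
    rw [Fintype.bijective_iff_surjective_and_card]
    exact ⟨hg.surj, by rw [Fintype.card_fin]; rfl⟩
  let e : A.V ≃ Fin (cd A) := Equiv.ofBijective g hbij
  refine ⟨e, ?_⟩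
  intro (x : Fin (cd A)) (y : Fin (cd A)) hxy
  obtain ⟨u, v, hu, hv, huv⟩ := hg.cov x y hxy
  have h1 : e.symm x = u := (Equiv.symm_apply_eq e).2 hu.symm
  have h2 : e.symm y = v := (Equiv.symm_apply_eq e).2 hv.symm
  show A.G.Adj (e.symm x) (e.symm y)
  rw [h1, h2]
  exact huv

/-! ### Edges of standard trees -/

theorem ncard_Ta {m : ℕ} {a : ℕ → ℕ} (ha : Va m a) : (Ta m a).edgeSet.ncard = m - 1 := by
  classical
  rcases m with _ | m
  · have : (Ta 0 a).edgeSet = ∅ := by
      ext e
      induction e with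
      | _ x y => exact x.elim0
    rw [this, Set.ncard_empty]
  · let f : Fin m → Sym2 (Fin (m + 1)) := fun i =>
      s(i.succ, ⟨a (i + 1), (ha (i + 1) (by omega) (by omega)).trans (by omega)⟩)
    have hf : Function.Injective f := by
      intro i j hij
      simp only [f] at hij
      rw [Sym2.eq_iff] at hij
      have hi := ha (i + 1) (by omega) (by omega)
      have hj := ha (j + 1) (by omega) (by omega)
      rcases hij with ⟨h1, _⟩ | ⟨h1, h2⟩
      · exact Fin.succ_injective _ h1
      · have h3 := congrArg Fin.val h1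
        have h4 := congrArg Fin.val h2
        simp only [Fin.val_succ] at h3 h4
        omega
    have he : (Ta (m + 1) a).edgeSet = Set.range f := by
      ext e
      induction e with
      | _ x y =>
        rw [mem_edgeSet, Set.mem_range]
        constructor
        · rintro ⟨h1, ⟨h2, h3⟩ | ⟨h2, h3⟩⟩
          · refine ⟨⟨y - 1, by omega⟩, ?_⟩
            simp only [f]
            rw [Sym2.eq_iff]
            right
            have e1 : (y : ℕ) - 1 + 1 = y := by omega
            refine ⟨Fin.ext ?_, Fin.ext ?_⟩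
            · simp only [Fin.val_succ]
              exact e1
            · simp only
              rw [e1]
              exact h3.symm
          · refine ⟨⟨x - 1, by omega⟩, ?_⟩
            simp only [f]
            rw [Sym2.eq_iff]
            left
            have e1 : (x : ℕ) - 1 + 1 = x := by omega
            refine ⟨Fin.ext ?_, Fin.ext ?_⟩
            · simp only [Fin.val_succ]
              exact e1
            · simp only
              rw [e1]
              exact h3.symm
        · rintro ⟨i, hi⟩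
          have h5 := ha (i + 1) (by omega) (by omega)
          simp only [f] at hi
          rw [Sym2.eq_iff] at hi
          rcases hi with ⟨h1, h2⟩ | ⟨h1, h2⟩
          · subst h1 h2
            refine ⟨fun hc => ?_, Or.inr ⟨Nat.succ_pos _, rfl⟩⟩
            have := congrArg Fin.val hc
            simp only [Fin.val_succ] at this
            omega
          · subst h1 h2
            refine ⟨fun hc => ?_, Or.inl ⟨Nat.succ_pos _, rfl⟩⟩
            have := congrArg Fin.val hc
            simp only [Fin.val_succ] at this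
            omega
    rw [he, Set.ncard_range_of_injective hf, Nat.card_eq_fintype_card, Fintype.card_fin]
    rfl

/-- extension of a parent function -/
def exa (m : ℕ) (a : ℕ → ℕ) (i : ℕ) : ℕ := if i < m then a i else 0

theorem va_exa {m m' : ℕ} {a : ℕ → ℕ} (ha : Va m a) : Va m' (exa m a) := by
  intro i _ h0
  unfold exa
  split_ifs with h
  · exact ha i h h0
  · exact h0

theorem em_exa {m m' : ℕ} (hm : m ≤ m') (a : ℕ → ℕ) : Em (fT m a) (fT m' (exa m a)) := by
  refine ⟨Fin.castLE hm, Fin.castLE_injective hm, ?_⟩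
  intro (x : Fin m) (y : Fin m) hxy
  obtain ⟨h1, h2⟩ := hxy
  refine ⟨fun hc => h1 (Fin.castLE_injective hm hc), ?_⟩
  have e1 : ∀ z : Fin m, exa m a (Fin.castLE hm z) = a z := by
    intro z
    unfold exa
    rw [if_pos]
    · rfl
    · exact z.2
  show (0 < ((Fin.castLE hm y : Fin m') : ℕ) ∧
    ((Fin.castLE hm x : Fin m') : ℕ) = exa m a (Fin.castLE hm y : Fin m')) ∨
    (0 < ((Fin.castLE hm x : Fin m') : ℕ) ∧
    ((Fin.castLE hm y : Fin m') : ℕ) = exa m a (Fin.castLE hm x : Fin m'))
  rw [e1, e1]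
  exact h2

end Pool.Agent.J4H92.CT
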