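import Pool.Agent.J4H92.CT.Leaf
import Pool.Agent.J4H92.CT.Sub
import Pool.Agent.J4H92.CT.Base3

/-!
# Flexible products of trees
-/

set_option autoImplicit false

namespace Pool.Agent.J4H92.CT

open Module SimpleGraph Pool.Agent.J4H92.CP

/-! ### Growth of the first factor -/

theorem grow1 {m j k k' : ℕ} {a : ℕ → ℕ} {L : List FG} (ha : a m < m)
    (h : MuL j k (fT m a :: L)) (h' : MuL (j + 1) k' L) : MuL j (k + k') (fT (m + 1) a :: L) :=
  leaf ha h h'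

theorem growN {m0 j k k' : ℕ} {a : ℕ → ℕ} {L : List FG} (h0 : 1 ≤ m0)
    (h : MuL j k (fT m0 a :: L)) (h' : MuL (j + 1) k' L) :
    ∀ t, Va (m0 + t) a → MuL j (k + t * k') (fT (m0 + t) a :: L) := by
  intro t
  induction t with
  | zero =>
    intro _
    rw [Nat.zero_mul]
    exact h
  | succ t ih =>
    intro hv
    have h1 := ih (fun i hi h0 => hv i (by omega) h0)
    have h2 : a (m0 + t) < m0 + t := hv (m0 + t) (by omega) (by omega)
    have h3 := grow1 h2 h1 h'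
    rw [Nat.add_assoc, ← Nat.succ_mul] at h3
    exact h3

theorem growTo {m0 m j k k' K : ℕ} {a : ℕ → ℕ} {L : List FG} (h0 : 1 ≤ m0) (hm : m0 ≤ m)
    (hv : Va m a) (h : MuL j k (fT m0 a :: L)) (h' : MuL (j + 1) k' L)
    (hK : k + (m - m0) * k' = K) : MuL j K (fT m a :: L) := by
  obtain ⟨t, rfl⟩ := Nat.exists_eq_add_of_le hm
  rw [← hK, Nat.add_sub_cancel_left]
  exact growN h0 h h' t hv

/-! ### Few factors -/

theorem mu_unit' (j : ℕ) (hj : j ≤ 3) : Mu j (3 - j) (⊥ : SimpleGraph Unit) := by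
  classical
  refine ⟨fun _ => 0, fun _ i => Pi.single (Fin.castLE hj i) 1, ?_⟩
  set S := Sol (⊥ : SimpleGraph Unit) (df fun _ => 0)
    (fun _ (i : Fin j) => (Pi.single (Fin.castLE hj i) 1 : Fin 3 → ℝ)) with hS
  let g : (Unit → Fin 3 → ℝ) →ₗ[ℝ] (Fin (3 - j) → ℝ) :=
    { toFun := fun m i => m () ⟨j + i, by omega⟩
      map_add' := fun _ _ => rfl
      map_smul' := fun _ _ => rfl }
  have hinj : Function.Injective (g.domRestrict S) := by
    rw [injective_iff_map_eq_zero]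
    rintro ⟨m, hm⟩ h0
    refine Subtype.ext ?_
    show m = 0
    funext u i
    by_cases hi : (i : ℕ) < j
    · have h1 := hm.2 () ⟨i, hi⟩
      rw [single_dotProduct, one_mul] at h1
      exact h1
    · have h1 : g m = 0 := h0
      have h2 := congrFun h1 ⟨(i : ℕ) - j, by omega⟩
      have h3 : m () ⟨j + ((i : ℕ) - j), by omega⟩ = 0 := h2
      have h4 : (⟨j + ((i : ℕ) - j), by omega⟩ : Fin 3) = i := Fin.ext (by simp only; omega)
      rw [h4] at h3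
      exact h3
  have := LinearMap.finrank_le_finrank_of_injective hinj
  rwa [Module.finrank_fintype_fun_eq_card, Fintype.card_fin] at this

theorem mu_unit (j : ℕ) (hj : j ≤ 3) : MuL j (3 - j) [] := mu_unit' j hj

theorem one_head {j k : ℕ} {a : ℕ → ℕ} {L : List FG} (h : MuL j k L) :
    MuL j k (fT 1 a :: L) := by
  let e : (prodL (fT 1 a :: L)).V ≃ (prodL L).V :=
    { toFun := fun x => x.2
      invFun := fun x => ((0 : Fin 1), x)
      left_inv := fun x => Prod.ext (Subsingleton.elim (α := Fin 1) _ _) rfl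
      right_inv := fun _ => rfl }
  exact Mu.pull e (fun x y hxy => Or.inr ⟨hxy, rfl⟩) h

/-- degrees of freedom by the count -/
def Fc : ℕ → List ℕ → ℕ
  | j, [] => 3 - j
  | j, m :: l => Fc j l + (m - 1) * Fc (j + 1) l

theorem few (l : List (ℕ × (ℕ → ℕ))) : ∀ j, j + l.length ≤ 3 →
    (∀ x ∈ l, 1 ≤ x.1 ∧ Va x.1 x.2) → MuL j (Fc j (l.map Prod.fst)) (l.map fun x => fT x.1 x.2) := by
  induction l with
  | nil => exact fun j hj _ => mu_unit j (by simpa using hj)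
  | cons x l ih =>
    intro j hj hx
    rw [List.length_cons] at hj
    have h1 := ih j (by omega) fun y hy => hx y (List.mem_cons_of_mem _ hy)
    have h2 := ih (j + 1) (by omega) fun y hy => hx y (List.mem_cons_of_mem _ hy)
    obtain ⟨x1, x2⟩ := hx x List.mem_cons_self
    exact growTo le_rfl x1 x2 (one_head h1) h2 rfl

/-! ### Trees with two vertices -/

theorem fT_two {a : ℕ → ℕ} (ha : Va 2 a) : fT 2 a = fT 2 pS := by
  have : Ta 2 a = Ta 2 pS := Ta_congr (fun i hi hi0 => by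
    have h1 := ha i hi hi0
    have h2 : i = 1 := by omega
    subst h2
    unfold pS
    omega)
  unfold fT
  rw [this]

theorem va_two {m : ℕ} {a : ℕ → ℕ} (hm : 2 ≤ m) (ha : Va m a) : Va 2 a :=
  fun i hi h0 => ha i (by omega) h0

/-! ### Four factors -/

theorem rot4 {A B C D : FG} {j k : ℕ} (h : MuL j k [D, A, B, C]) : MuL j k [A, B, C, D] := by
  refine h.perm ?_
  exact List.perm_middle (a := D) (l₁ := [A, B, C]) (l₂ := [])

theorem rot3 {A B C : FG} {j k : ℕ} (h : MuL j k [C, A, B]) : MuL j k [A, B, C] := by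
  refine h.perm ?_
  exact List.perm_middle (a := C) (l₁ := [A, B]) (l₂ := [])

section

variable {a0 a1 a2 a3 : ℕ → ℕ} {c d : ℕ}

theorem pin22 (hc : 2 ≤ c) (h0 : Va 2 a0) (h1 : Va 2 a1) (h2 : Va c a2) :
    MuL 1 4 [fT 2 a0, fT 2 a1, fT c a2] := by
  refine rot3 ?_
  refine growTo (m0 := 2) (k := 4) (k' := 0) (by norm_num) hc h2
    (pin_2_2_2 (va_two hc h2) h0 h1) ?_ (by ring)
  exact pin2 _ (by simp) (by
    intro A hA
    simp only [List.mem_cons, List.not_mem_nil, or_false] at hA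
    rcases hA with rfl | rfl
    · exact nt_fT le_rfl h0
    · exact nt_fT le_rfl h1)

theorem fam22 (hc : 2 ≤ c) (hd : 2 ≤ d) (h0 : Va 2 a0) (h1 : Va 2 a1) (h2 : Va c a2)
    (h3 : Va d a3) : MuL 0 (4 * c + 4 * d) [fT 2 a0, fT 2 a1, fT c a2, fT d a3] := by
  have s1 : MuL 0 (8 + 4 * c) [fT 2 a3, fT 2 a0, fT 2 a1, fT c a2] := by
    refine rot4 ?_
    refine growTo (m0 := 2) (k := 16) (k' := 4) (by norm_num) hc h2 ?_
      (pin22 le_rfl (va_two hd h3) h0 h1) (by omega)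
    rw [fT_two (va_two hc h2), fT_two (va_two hd h3), fT_two h0, fT_two h1]
    exact base_Q4
  refine rot4 ?_
  exact growTo (m0 := 2) (by norm_num) hd h3 s1 (pin22 hc h0 h1 h2) (by omega)

theorem fam23 {c' : ℕ} (hc : 2 ≤ c) (hd : 2 ≤ d) (h0 : Va 2 a0)
    (h1 : Va 3 a1) (h2 : Va c a2) (h3 : Va d a3)
    (hp : MuL 1 c' [fT 2 a0, fT 3 a1, fT c a2]) :
    MuL 0 (12 + 4 * c + (d - 2) * c') [fT 2 a0, fT 3 a1, fT c a2, fT d a3] := by
  refine rot4 ?_
  refine growTo (m0 := 2) (k := 12 + 4 * c) (by norm_num) hd h3 ?_ hp rfl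
  exact fam22 (by norm_num) hc (va_two hd h3) h0 h1 h2

theorem fam244 (hd : 2 ≤ d) (h0 : Va 2 a0) (h1 : Va 4 a1) (h2 : Va 4 a2) (h3 : Va d a3) :
    MuL 0 32 [fT 2 a0, fT 4 a1, fT 4 a2, fT d a3] := by
  refine rot4 ?_
  refine growTo (m0 := 2) (k := 32) (k' := 0) (by norm_num) hd h3 ?_ (pin_2_4_4 h0 h1 h2)
    (by omega)
  exact fam22 (by norm_num) (by norm_num) (va_two hd h3) h0 h1 h2

theorem fam333 (hd : 2 ≤ d) (h0 : Va 3 a0) (h1 : Va 3 a1) (h2 : Va 3 a2) (h3 : Va d a3) :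
    MuL 0 27 [fT 3 a0, fT 3 a1, fT 3 a2, fT d a3] := by
  refine rot4 ?_
  refine growTo (m0 := 2) (k := 27) (k' := 0) (by norm_num) hd h3 ?_ (pin_3_3_3 h0 h1 h2)
    (by omega)
  exact fam23 (c' := 3) (by norm_num) (by norm_num) (va_two hd h3) h0 h1 h2
    (pin_2_3_3 (va_two hd h3) h0 h1)

end

/-! ### Counts -/

theorem cd_fT (m : ℕ) (a : ℕ → ℕ) : Fintype.card (fT m a).V = m := Fintype.card_fin m

theorem cnt4 {a b c d : ℕ} {a0 a1 a2 a3 : ℕ → ℕ} (ha : 1 ≤ a) (hb : 1 ≤ b) (hc : 1 ≤ c)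
    (hd : 1 ≤ d) (h0 : Va a a0) (h1 : Va b a1) (h2 : Va c a2) (h3 : Va d a3) :
    eL [fT a a0, fT b a1, fT c a2, fT d a3] + (b * c * d + a * c * d + a * b * d + a * b * c) =
      4 * (a * b * c * d) ∧ nL [fT a a0, fT b a1, fT c a2, fT d a3] = a * b * c * d := by
  have e : ∀ {m : ℕ} {x : ℕ → ℕ}, Va m x → (fT m x).G.edgeSet.ncard = m - 1 := ncard_Ta
  simp only [eL_cons, nL_cons, eL_nil, nL_nil, cd_fT, e h0, e h1, e h2, e h3]
  obtain ⟨a, rfl⟩ := Nat.exists_eq_add_of_le ha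
  obtain ⟨b, rfl⟩ := Nat.exists_eq_add_of_le hb
  obtain ⟨c, rfl⟩ := Nat.exists_eq_add_of_le hc
  obtain ⟨d, rfl⟩ := Nat.exists_eq_add_of_le hd
  simp only [Nat.add_sub_cancel_left]
  constructor
  · ring
  · ring

/-- Boxes inside an independent box. -/
theorem subbox {m0 m1 m2 m3 K : ℕ}
    (base : ∀ {a0 a1 a2 a3 : ℕ → ℕ}, Va m0 a0 → Va m1 a1 → Va m2 a2 → Va m3 a3 →
      MuL 0 K [fT m0 a0, fT m1 a1, fT m2 a2, fT m3 a3])
    (hK : m0 * m1 * m2 * m3 + K ≤ m1 * m2 * m3 + m0 * m2 * m3 + m0 * m1 * m3 + m0 * m1 * m2)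
    {a b c d k : ℕ} {a0 a1 a2 a3 : ℕ → ℕ} (ha : 1 ≤ a) (hb : 1 ≤ b) (hc : 1 ≤ c)
    (hd : 1 ≤ d) (h0 : Va a a0) (h1 : Va b a1) (h2 : Va c a2) (h3 : Va d a3)
    (l0 : a ≤ m0) (l1 : b ≤ m1) (l2 : c ≤ m2) (l3 : d ≤ m3)
    (hk : b * c * d + a * c * d + a * b * d + a * b * c ≤ a * b * c * d + k) :
    MuL 0 k [fT a a0, fT b a1, fT c a2, fT d a3] := by
  have v0 : Va m0 (exa a a0) := va_exa h0
  have v1 : Va m1 (exa b a1) := va_exa h1
  have v2 : Va m2 (exa c a2) := va_exa h2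
  have v3 : Va m3 (exa d a3) := va_exa h3
  obtain ⟨c1, c2⟩ := cnt4 (ha.trans l0) (hb.trans l1) (hc.trans l2) (hd.trans l3) v0 v1 v2 v3
  obtain ⟨c3, c4⟩ := cnt4 ha hb hc hd h0 h1 h2 h3
  refine sub_list (L' := [fT m0 (exa a a0), fT m1 (exa b a1), fT m2 (exa c a2),
    fT m3 (exa d a3)]) ?_ (base v0 v1 v2 v3) ?_ ?_
  · exact List.Forall₂.cons (em_exa l0 a0) (List.Forall₂.cons (em_exa l1 a1)
      (List.Forall₂.cons (em_exa l2 a2) (List.Forall₂.cons (em_exa l3 a3) List.Forall₂.nil)))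
  · omega
  · omega

end Pool.Agent.J4H92.CT
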