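import Pool.Agent.J4H92.CT.Dom

/-!
# Products of four connected graphs of large orders are rigid
-/

set_option autoImplicit false

namespace Pool.Agent.J4H92.CT

open SimpleGraph Pool.Agent.J4H92.CP

/-- the vertices of a product of four trees minus a third of the missing edges -/
theorem four_sorted {A B C D : FG} (hA : Nt A) (hB : Nt B) (hC : Nt C) (hD : Nt D)
    (ab : cd A ≤ cd B) (bc : cd B ≤ cd C) (c_d : cd C ≤ cd D)
    (h : cd B * cd C * cd D + cd A * cd C * cd D + cd A * cd B * cd D + cd A * cd B * cd C ≤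
      cd A * cd B * cd C * cd D + 6) : MuL 0 6 [A, B, C, D] := by
  have a2 : 2 ≤ cd A := hA.2
  have d_2_3_7_36 : 2 ≤ cd A → 3 ≤ cd B → 7 ≤ cd C → 36 ≤ cd D → MuL 0 6 [A, B, C, D] :=
    dom4 hA hB hC hD base_2_3_7_36 (by norm_num) (by norm_num) (by norm_num) (by norm_num)
      (by decide) (by decide) (by decide) (by decide)
  have d_2_3_8_21 : 2 ≤ cd A → 3 ≤ cd B → 8 ≤ cd C → 21 ≤ cd D → MuL 0 6 [A, B, C, D] :=
    dom4 hA hB hC hD base_2_3_8_21 (by norm_num) (by norm_num) (by norm_num) (by norm_num)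
      (by decide) (by decide) (by decide) (by decide)
  have d_2_3_9_16 : 2 ≤ cd A → 3 ≤ cd B → 9 ≤ cd C → 16 ≤ cd D → MuL 0 6 [A, B, C, D] :=
    dom4 hA hB hC hD base_2_3_9_16 (by norm_num) (by norm_num) (by norm_num) (by norm_num)
      (by decide) (by decide) (by decide) (by decide)
  have d_2_3_10_14 : 2 ≤ cd A → 3 ≤ cd B → 10 ≤ cd C → 14 ≤ cd D → MuL 0 6 [A, B, C, D] :=
    dom4 hA hB hC hD base_2_3_10_14 (by norm_num) (by norm_num) (by norm_num) (by norm_num)
      (by decide) (by decide) (by decide) (by decide)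
  have d_2_3_11_12 : 2 ≤ cd A → 3 ≤ cd B → 11 ≤ cd C → 12 ≤ cd D → MuL 0 6 [A, B, C, D] :=
    dom4 hA hB hC hD base_2_3_11_12 (by norm_num) (by norm_num) (by norm_num) (by norm_num)
      (by decide) (by decide) (by decide) (by decide)
  have d_2_4_5_17 : 2 ≤ cd A → 4 ≤ cd B → 5 ≤ cd C → 17 ≤ cd D → MuL 0 6 [A, B, C, D] :=
    dom4 hA hB hC hD base_2_4_5_17 (by norm_num) (by norm_num) (by norm_num) (by norm_num)
      (by decide) (by decide) (by decide) (by decide)
  have d_2_4_6_11 : 2 ≤ cd A → 4 ≤ cd B → 6 ≤ cd C → 11 ≤ cd D → MuL 0 6 [A, B, C, D] :=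
    dom4 hA hB hC hD base_2_4_6_11 (by norm_num) (by norm_num) (by norm_num) (by norm_num)
      (by decide) (by decide) (by decide) (by decide)
  have d_2_4_7_9 : 2 ≤ cd A → 4 ≤ cd B → 7 ≤ cd C → 9 ≤ cd D → MuL 0 6 [A, B, C, D] :=
    dom4 hA hB hC hD base_2_4_7_9 (by norm_num) (by norm_num) (by norm_num) (by norm_num)
      (by decide) (by decide) (by decide) (by decide)
  have d_2_4_8_8 : 2 ≤ cd A → 4 ≤ cd B → 8 ≤ cd C → 8 ≤ cd D → MuL 0 6 [A, B, C, D] :=
    dom4 hA hB hC hD base_2_4_8_8 (by norm_num) (by norm_num) (by norm_num) (by norm_num)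
      (by decide) (by decide) (by decide) (by decide)
  have d_2_5_5_9 : 2 ≤ cd A → 5 ≤ cd B → 5 ≤ cd C → 9 ≤ cd D → MuL 0 6 [A, B, C, D] :=
    dom4 hA hB hC hD base_2_5_5_9 (by norm_num) (by norm_num) (by norm_num) (by norm_num)
      (by decide) (by decide) (by decide) (by decide)
  have d_2_5_6_7 : 2 ≤ cd A → 5 ≤ cd B → 6 ≤ cd C → 7 ≤ cd D → MuL 0 6 [A, B, C, D] :=
    dom4 hA hB hC hD base_2_5_6_7 (by norm_num) (by norm_num) (by norm_num) (by norm_num)
      (by decide) (by decide) (by decide) (by decide)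
  have d_2_6_6_6 : 2 ≤ cd A → 6 ≤ cd B → 6 ≤ cd C → 6 ≤ cd D → MuL 0 6 [A, B, C, D] :=
    dom4 hA hB hC hD base_2_6_6_6 (by norm_num) (by norm_num) (by norm_num) (by norm_num)
      (by decide) (by decide) (by decide) (by decide)
  have d_3_3_4_10 : 3 ≤ cd A → 3 ≤ cd B → 4 ≤ cd C → 10 ≤ cd D → MuL 0 6 [A, B, C, D] :=
    dom4 hA hB hC hD base_3_3_4_10 (by norm_num) (by norm_num) (by norm_num) (by norm_num)
      (by decide) (by decide) (by decide) (by decide)
  have d_3_3_5_7 : 3 ≤ cd A → 3 ≤ cd B → 5 ≤ cd C → 7 ≤ cd D → MuL 0 6 [A, B, C, D] :=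
    dom4 hA hB hC hD base_3_3_5_7 (by norm_num) (by norm_num) (by norm_num) (by norm_num)
      (by decide) (by decide) (by decide) (by decide)
  have d_3_3_6_6 : 3 ≤ cd A → 3 ≤ cd B → 6 ≤ cd C → 6 ≤ cd D → MuL 0 6 [A, B, C, D] :=
    dom4 hA hB hC hD base_3_3_6_6 (by norm_num) (by norm_num) (by norm_num) (by norm_num)
      (by decide) (by decide) (by decide) (by decide)
  have d_3_4_4_6 : 3 ≤ cd A → 4 ≤ cd B → 4 ≤ cd C → 6 ≤ cd D → MuL 0 6 [A, B, C, D] :=
    dom4 hA hB hC hD base_3_4_4_6 (by norm_num) (by norm_num) (by norm_num) (by norm_num)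
      (by decide) (by decide) (by decide) (by decide)
  have d_3_4_5_5 : 3 ≤ cd A → 4 ≤ cd B → 5 ≤ cd C → 5 ≤ cd D → MuL 0 6 [A, B, C, D] :=
    dom4 hA hB hC hD base_3_4_5_5 (by norm_num) (by norm_num) (by norm_num) (by norm_num)
      (by decide) (by decide) (by decide) (by decide)
  have d_4_4_4_4 : 4 ≤ cd A → 4 ≤ cd B → 4 ≤ cd C → 4 ≤ cd D → MuL 0 6 [A, B, C, D] :=
    dom4 hA hB hC hD base_4_4_4_4 (by norm_num) (by norm_num) (by norm_num) (by norm_num)
      (by decide) (by decide) (by decide) (by decide)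
  generalize MuL 0 6 [A, B, C, D] = G at *
  generalize cd A = a at *
  generalize cd B = b at *
  generalize cd C = c at *
  generalize cd D = d at *
  by_cases a4 : 4 ≤ a
  · exact d_4_4_4_4 a4 (by omega) (by omega) (by omega)
  have a23 : a = 2 ∨ a = 3 := by omega
  rcases a23 with rfl | rfl
  · by_cases b6 : 6 ≤ b
    · exact d_2_6_6_6 (by omega) b6 (by omega) (by omega)
    have hb : b = 2 ∨ b = 3 ∨ b = 4 ∨ b = 5 := by omega
    rcases hb with rfl | rfl | rfl | rfl
    · exfalso
      nlinarith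
    · by_cases c12 : 12 ≤ c
      · exact d_2_3_11_12 (by omega) (by omega) (by omega) (by omega)
      have hc : c = 3 ∨ c = 4 ∨ c = 5 ∨ c = 6 ∨ c = 7 ∨ c = 8 ∨ c = 9 ∨ c = 10 ∨ c = 11 := by omega
      rcases hc with rfl | rfl | rfl | rfl | rfl | rfl | rfl | rfl | rfl
      · omega
      · omega
      · omega
      · omega
      · exact d_2_3_7_36 (by omega) (by omega) (by omega) (by omega)
      · exact d_2_3_8_21 (by omega) (by omega) (by omega) (by omega)
      · exact d_2_3_9_16 (by omega) (by omega) (by omega) (by omega)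
      · exact d_2_3_10_14 (by omega) (by omega) (by omega) (by omega)
      · exact d_2_3_11_12 (by omega) (by omega) (by omega) (by omega)
    · by_cases c8 : 8 ≤ c
      · exact d_2_4_8_8 (by omega) (by omega) (by omega) (by omega)
      have hc : c = 4 ∨ c = 5 ∨ c = 6 ∨ c = 7 := by omega
      rcases hc with rfl | rfl | rfl | rfl
      · omega
      · exact d_2_4_5_17 (by omega) (by omega) (by omega) (by omega)
      · exact d_2_4_6_11 (by omega) (by omega) (by omega) (by omega)
      · exact d_2_4_7_9 (by omega) (by omega) (by omega) (by omega)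
    · by_cases c7 : 7 ≤ c
      · exact d_2_5_6_7 (by omega) (by omega) (by omega) (by omega)
      have hc : c = 5 ∨ c = 6 := by omega
      rcases hc with rfl | rfl
      · exact d_2_5_5_9 (by omega) (by omega) (by omega) (by omega)
      · exact d_2_5_6_7 (by omega) (by omega) (by omega) (by omega)
  · by_cases b5 : 5 ≤ b
    · exact d_3_4_5_5 (by omega) (by omega) (by omega) (by omega)
    have hb : b = 3 ∨ b = 4 := by omega
    rcases hb with rfl | rfl
    · by_cases c6 : 6 ≤ c
      · exact d_3_3_6_6 (by omega) (by omega) (by omega) (by omega)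
      have hc : c = 3 ∨ c = 4 ∨ c = 5 := by omega
      rcases hc with rfl | rfl | rfl
      · omega
      · exact d_3_3_4_10 (by omega) (by omega) (by omega) (by omega)
      · exact d_3_3_5_7 (by omega) (by omega) (by omega) (by omega)
    · by_cases c5 : 5 ≤ c
      · exact d_3_4_5_5 (by omega) (by omega) (by omega) (by omega)
      have hc : c = 4 := by omega
      subst hc
      exact d_3_4_4_6 (by omega) (by omega) (by omega) (by omega)

end Pool.Agent.J4H92.CT
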