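import Pool.Agent.J4H92.CT.Flex
import Pool.Agent.J4H92.CT.Four
import Pool.Agent.J4H92.CT.BaseE

/-!
# Products of four trees: degrees of freedom
-/

set_option autoImplicit false

namespace Pool.Agent.J4H92.CT

open Module SimpleGraph Pool.Agent.J4H92.CP

theorem flex_sorted {a b c d k : ℕ} {a0 a1 a2 a3 : ℕ → ℕ} (ha : 2 ≤ a) (ab : a ≤ b) (bc : b ≤ c)
    (cd : c ≤ d) (h : b * c * d + a * c * d + a * b * d + a * b * c = a * b * c * d + k)
    (hk : 6 ≤ k) (h0 : Va a a0) (h1 : Va b a1) (h2 : Va c a2) (h3 : Va d a3) :
    MuL 0 k [fT a a0, fT b a1, fT c a2, fT d a3] := by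
  have hle := h.le
  by_cases a4 : 4 ≤ a
  · exfalso
    have e1 : 4 * (b * c * d) ≤ a * (b * c * d) := Nat.mul_le_mul_right _ a4
    have e2 : 4 * (a * c * d) ≤ b * (a * c * d) := Nat.mul_le_mul_right _ (by omega)
    have e3 : 4 * (a * b * d) ≤ c * (a * b * d) := Nat.mul_le_mul_right _ (by omega)
    have e4 : 4 * (a * b * c) ≤ d * (a * b * c) := Nat.mul_le_mul_right _ (by omega)
    nlinarith
  have a23 : a = 2 ∨ a = 3 := by omega
  rcases a23 with rfl | rfl
  · by_cases b6 : 6 ≤ b
    · exfalso
      have e1 : 6 * (c * d) ≤ b * (c * d) := Nat.mul_le_mul_right _ b6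
      have e2 : 6 * (b * d) ≤ c * (b * d) := Nat.mul_le_mul_right _ (by omega)
      have e3 : 6 * (b * c) ≤ d * (b * c) := Nat.mul_le_mul_right _ (by omega)
      nlinarith
    have hb : b = 2 ∨ b = 3 ∨ b = 4 ∨ b = 5 := by omega
    rcases hb with rfl | rfl | rfl | rfl
    · have hk' : k = 4 * c + 4 * d := by linarith
      rw [hk']
      exact fam22 bc (bc.trans cd) h0 h1 h2 h3
    · by_cases c12 : 12 ≤ c
      · exfalso
        nlinarith
      have hc : c = 3 ∨ c = 4 ∨ c = 5 ∨ c = 6 ∨ c = 7 ∨ c = 8 ∨ c = 9 ∨ c = 10 ∨ c = 11 := by omega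
      rcases hc with rfl | rfl | rfl | rfl | rfl | rfl | rfl | rfl | rfl
      · have hk' : k = 12 + 4 * 3 + (d - 2) * 3 := by omega
        rw [hk']
        exact fam23 (by norm_num) (by omega) h0 h1 h2 h3 (pin_2_3_3 h0 h1 h2)
      · have hk' : k = 12 + 4 * 4 + (d - 2) * 2 := by omega
        rw [hk']
        exact fam23 (by norm_num) (by omega) h0 h1 h2 h3 (pin_2_3_4 h0 h1 h2)
      · have hk' : k = 12 + 4 * 5 + (d - 2) * 1 := by omega
        rw [hk']
        exact fam23 (by norm_num) (by omega) h0 h1 h2 h3 (pin_2_3_5 h0 h1 h2)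
      · have hk' : k = 12 + 4 * 6 + (d - 2) * 0 := by omega
        rw [hk']
        exact fam23 (by norm_num) (by omega) h0 h1 h2 h3 (pin_2_3_6 h0 h1 h2)
      · exact subbox base_2_3_7_36 (by norm_num) (by omega) (by omega) (by omega) (by omega) h0 h1 h2 h3
          (by omega) (by omega) (by omega) (by omega) hle
      · exact subbox base_2_3_8_21 (by norm_num) (by omega) (by omega) (by omega) (by omega) h0 h1 h2 h3
          (by omega) (by omega) (by omega) (by omega) hle
      · exact subbox base_2_3_9_16 (by norm_num) (by omega) (by omega) (by omega) (by omega) h0 h1 h2 h3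
          (by omega) (by omega) (by omega) (by omega) hle
      · exact subbox base_2_3_10_13 (by norm_num) (by omega) (by omega) (by omega) (by omega) h0 h1 h2 h3
          (by omega) (by omega) (by omega) (by omega) hle
      · exact subbox base_2_3_11_12 (by norm_num) (by omega) (by omega) (by omega) (by omega) h0 h1 h2 h3
          (by omega) (by omega) (by omega) (by omega) hle
    · by_cases c8 : 8 ≤ c
      · exfalso
        nlinarith
      have hc : c = 4 ∨ c = 5 ∨ c = 6 ∨ c = 7 := by omega
      rcases hc with rfl | rfl | rfl | rfl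
      · have hk' : k = 32 := by omega
        rw [hk']
        exact fam244 (by omega) h0 h1 h2 h3
      · exact subbox base_2_4_5_17 (by norm_num) (by omega) (by omega) (by omega) (by omega) h0 h1 h2 h3
          (by omega) (by omega) (by omega) (by omega) hle
      · exact subbox base_2_4_6_10 (by norm_num) (by omega) (by omega) (by omega) (by omega) h0 h1 h2 h3
          (by omega) (by omega) (by omega) (by omega) hle
      · exact subbox base_2_4_7_8 (by norm_num) (by omega) (by omega) (by omega) (by omega) h0 h1 h2 h3
          (by omega) (by omega) (by omega) (by omega) hle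
    · by_cases c7 : 7 ≤ c
      · exfalso
        nlinarith
      have hc : c = 5 ∨ c = 6 := by omega
      rcases hc with rfl | rfl
      · exact subbox base_2_5_5_8 (by norm_num) (by omega) (by omega) (by omega) (by omega) h0 h1 h2 h3
          (by omega) (by omega) (by omega) (by omega) hle
      · exact subbox base_2_5_6_6 (by norm_num) (by omega) (by omega) (by omega) (by omega) h0 h1 h2 h3
          (by omega) (by omega) (by omega) (by omega) hle
  · by_cases b5 : 5 ≤ b
    · exfalso
      have e1 : 5 * (c * d) ≤ b * (c * d) := Nat.mul_le_mul_right _ b5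
      have e2 : 5 * (b * d) ≤ c * (b * d) := Nat.mul_le_mul_right _ (by omega)
      have e3 : 5 * (b * c) ≤ d * (b * c) := Nat.mul_le_mul_right _ (by omega)
      nlinarith
    have hb : b = 3 ∨ b = 4 := by omega
    rcases hb with rfl | rfl
    · by_cases c6 : 6 ≤ c
      · exfalso
        nlinarith
      have hc : c = 3 ∨ c = 4 ∨ c = 5 := by omega
      rcases hc with rfl | rfl | rfl
      · have hk' : k = 27 := by omega
        rw [hk']
        exact fam333 (by omega) h0 h1 h2 h3
      · exact subbox base_3_3_4_10 (by norm_num) (by omega) (by omega) (by omega) (by omega) h0 h1 h2 h3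
          (by omega) (by omega) (by omega) (by omega) hle
      · exact subbox base_3_3_5_6 (by norm_num) (by omega) (by omega) (by omega) (by omega) h0 h1 h2 h3
          (by omega) (by omega) (by omega) (by omega) hle
    · by_cases c5 : 5 ≤ c
      · exfalso
        nlinarith
      have hc : c = 4 := by omega
      subst hc
      exact subbox base_3_4_4_5 (by norm_num) (by omega) (by omega) (by omega) (by omega) h0 h1 h2 h3
        (by omega) (by omega) (by omega) (by omega) hle

end Pool.Agent.J4H92.CT
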