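import Pool.Agent.J4H92.CP.Main

/-!
# Adding a leaf to a factor
-/

set_option autoImplicit false

namespace Pool.Agent.J4H92.CT

open Module SimpleGraph Pool.Agent.J4H92.CP Pool.Agent.H283R2.DR.TA

section

variable {W : Type} {m j : ℕ}

/-- parameters: a placement and pins -/
abbrev Ev (W : Type) (m j : ℕ) : Type :=
  (Fin (m + 1) × W → Fin 3 → ℝ) × (Fin (m + 1) × W → Fin j → Fin 3 → ℝ)

/-- the system without the new slice -/
noncomputable def M1 (W : Type) (m j : ℕ) : Ev W m j →ₗ[ℝ]
    ((Fin m × W → Fin m × W → Fin 3 → ℝ) × (Fin m × W → Fin j → Fin 3 → ℝ)) where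
  toFun e := (df fun v => e.1 (v.1.castSucc, v.2), fun v => e.2 (v.1.castSucc, v.2))
  map_add' e e' := by
    refine Prod.ext ?_ rfl
    funext u v
    simp only [df, Prod.fst_add, Pi.add_apply]
    abel
  map_smul' c e := by
    refine Prod.ext ?_ rfl
    funext u v
    simp only [df, Prod.smul_fst, Pi.smul_apply, RingHom.id_apply, smul_sub]

/-- the system of the new slice, pinned to the slice of `x` -/
noncomputable def M2 (W : Type) (m j : ℕ) (x : Fin (m + 1)) : Ev W m j →ₗ[ℝ]
    ((W → W → Fin 3 → ℝ) × (W → Fin (j + 1) → Fin 3 → ℝ)) where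
  toFun e := (df fun w => e.1 (Fin.last m, w),
    fun w => Fin.cons (e.1 (Fin.last m, w) - e.1 (x, w)) (e.2 (Fin.last m, w)))
  map_add' e e' := by
    refine Prod.ext ?_ ?_
    · funext u v
      simp only [df, Prod.fst_add, Pi.add_apply]
      abel
    · funext w i
      refine Fin.cases ?_ (fun i => ?_) i
      · simp only [Fin.cons_zero, Prod.fst_add, Pi.add_apply, Prod.snd_add]
        abel
      · simp
  map_smul' c e := by
    refine Prod.ext ?_ ?_
    · funext u v
      simp only [df, Prod.smul_fst, Pi.smul_apply, RingHom.id_apply, smul_sub]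
    · funext w i
      refine Fin.cases ?_ (fun i => ?_) i
      · simp only [Fin.cons_zero, Prod.smul_fst, Pi.smul_apply, RingHom.id_apply, smul_sub,
          Prod.smul_snd]
      · simp

end

/-- **Adding a leaf to a tree factor.** -/
theorem leaf {W : Type} [Finite W] {Y : SimpleGraph W} {m : ℕ} {a : ℕ → ℕ} {j k k' : ℕ}
    (ham : a m < m) (h : Mu j k (Ta m a □ Y)) (h' : Mu (j + 1) k' Y) :
    Mu j (k + k') (Ta (m + 1) a □ Y) := by
  classical
  set x : Fin (m + 1) := ⟨a m, by omega⟩ with hx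
  have hxl : x ≠ Fin.last m := by
    intro hc
    have := congrArg Fin.val hc
    simp only [hx, Fin.val_last] at this
    omega
  obtain ⟨p, d, hp⟩ := h
  obtain ⟨q, d', hq⟩ := h'
  obtain ⟨e, he⟩ := good_family (E := Ev W m j) (ι := Bool)
    (fun o e => match o with
      | false => finrank ℝ (Sol (Ta m a □ Y) (M1 W m j e).1 (M1 W m j e).2) ≤ k
      | true => finrank ℝ (Sol Y (M2 W m j x e).1 (M2 W m j x e).2) ≤ k')
    (by
      rintro (_ | _)
      · exact good_sol _ _ _
      · exact good_sol _ _ _)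
    (by
      rintro (_ | _)
      · refine ⟨(fun v => if h : (v.1 : ℕ) < m then p (⟨v.1, h⟩, v.2) else 0,
          fun v => if h : (v.1 : ℕ) < m then d (⟨v.1, h⟩, v.2) else 0), ?_⟩
        have e1 : M1 W m j (fun v => if h : (v.1 : ℕ) < m then p (⟨v.1, h⟩, v.2) else 0,
            fun v => if h : (v.1 : ℕ) < m then d (⟨v.1, h⟩, v.2) else 0) = (df p, d) := by
          refine Prod.ext ?_ ?_
          · funext u v
            simp [M1, df]
          · funext v
            simp [M1]
        rw [e1]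
        exact hp
      · refine ⟨(fun v => if v.1 = Fin.last m then q v.2 else q v.2 - d' v.2 0,
          fun v i => d' v.2 i.succ), ?_⟩
        have e1 : M2 W m j x (fun v => if v.1 = Fin.last m then q v.2 else q v.2 - d' v.2 0,
            fun v i => d' v.2 i.succ) = (df q, d') := by
          refine Prod.ext ?_ ?_
          · funext u v
            simp [M2, df]
          · funext w i
            refine Fin.cases ?_ (fun i => ?_) i
            · simp [M2, hxl]
            · simp [M2]
        rw [e1]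
        exact hq)
  have h1 : finrank ℝ (Sol (Ta m a □ Y) (df fun v => e.1 (v.1.castSucc, v.2))
      fun v => e.2 (v.1.castSucc, v.2)) ≤ k := he false
  have h2 : finrank ℝ (Sol Y (df fun w => e.1 (Fin.last m, w))
      (fun w => Fin.cons (e.1 (Fin.last m, w) - e.1 (x, w)) (e.2 (Fin.last m, w)) :
        W → Fin (j + 1) → Fin 3 → ℝ)) ≤ k' := he true
  refine ⟨e.1, e.2, ?_⟩
  set S := Sol (Ta (m + 1) a □ Y) (df e.1) e.2 with hS
  let R : (Fin (m + 1) × W → Fin 3 → ℝ) →ₗ[ℝ] (Fin m × W → Fin 3 → ℝ) :=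
    LinearMap.funLeft ℝ (Fin 3 → ℝ) (fun v : Fin m × W => (v.1.castSucc, v.2))
  have hR : ∀ (f : Fin (m + 1) × W → Fin 3 → ℝ) v, R f v = f (v.1.castSucc, v.2) :=
    fun _ _ => rfl
  have hadj : ∀ u v : Fin m, (Ta m a).Adj u v → (Ta (m + 1) a).Adj u.castSucc v.castSucc := by
    rintro u v ⟨h1, h2⟩
    exact ⟨fun hc => h1 (Fin.castSucc_injective m hc), h2⟩
  have hrange : LinearMap.range (R.domRestrict S) ≤
      Sol (Ta m a □ Y) (df fun v => e.1 (v.1.castSucc, v.2)) fun v => e.2 (v.1.castSucc, v.2) := by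
    rintro _ ⟨⟨f, hf⟩, rfl⟩
    obtain ⟨f1, f2⟩ := hf
    refine ⟨fun u v huv => ?_, fun v i => ?_⟩
    · refine f1 (u.1.castSucc, u.2) (v.1.castSucc, v.2) ?_
      rcases huv with ⟨h1, h2⟩ | ⟨h1, h2⟩
      · exact Or.inl ⟨hadj _ _ h1, h2⟩
      · exact Or.inr ⟨h1, by rw [h2]⟩
    · exact f2 (v.1.castSucc, v.2) i
  let g : LinearMap.ker (R.domRestrict S) →ₗ[ℝ] (W → Fin 3 → ℝ) :=
    (LinearMap.funLeft ℝ (Fin 3 → ℝ) (fun w : W => (Fin.last m, w))).comp
      (S.subtype.comp (LinearMap.ker (R.domRestrict S)).subtype)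
  have hg : ∀ f w, g f w = f.1.1 (Fin.last m, w) := fun _ _ => rfl
  have hker : ∀ f : LinearMap.ker (R.domRestrict S), ∀ (i : Fin m) w,
      f.1.1 (i.castSucc, w) = 0 := by
    rintro ⟨⟨f, hf⟩, hf0⟩ i w
    rw [LinearMap.mem_ker] at hf0
    exact congrFun hf0 (i, w)
  have hgS : ∀ f, g f ∈ Sol Y (df fun w => e.1 (Fin.last m, w))
      (fun w => Fin.cons (e.1 (Fin.last m, w) - e.1 (x, w)) (e.2 (Fin.last m, w)) :
        W → Fin (j + 1) → Fin 3 → ℝ) := by
    intro f
    obtain ⟨f1, f2⟩ := f.1.2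
    refine ⟨fun u v huv => f1 (Fin.last m, u) (Fin.last m, v) (Or.inr ⟨huv, rfl⟩),
      fun w i => ?_⟩
    refine Fin.cases ?_ (fun i => ?_) i
    · show (e.1 (Fin.last m, w) - e.1 (x, w)) ⬝ᵥ g f w = 0
      have h3 : (Ta (m + 1) a □ Y).Adj (Fin.last m, w) (x, w) := by
        refine Or.inl ⟨⟨fun hc => hxl hc.symm, Or.inr ⟨?_, rfl⟩⟩, rfl⟩
        rw [Fin.val_last]
        omega
      have h4 := f1 _ _ h3
      have h5 : f.1.1 (x, w) = 0 := hker f ⟨a m, ham⟩ w
      rw [h5, sub_zero] at h4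
      exact h4
    · exact f2 (Fin.last m, w) i
  have hginj : Function.Injective (g.codRestrict _ hgS) := by
    rw [injective_iff_map_eq_zero]
    intro f hf
    have h3 : g f = 0 := congrArg Subtype.val hf
    refine Subtype.ext (Subtype.ext ?_)
    funext v
    obtain ⟨i, w⟩ := v
    refine Fin.lastCases ?_ (fun i => ?_) i
    · exact congrFun h3 w
    · exact hker f i w
  have k1 := Submodule.finrank_mono hrange
  have k2 := LinearMap.finrank_le_finrank_of_injective hginj
  have k3 := LinearMap.finrank_range_add_finrank_ker (R.domRestrict S)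
  omega

end Pool.Agent.J4H92.CT
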