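import Pool.Agent.J4H92.CT.Cert4

/-!
# Soundness of the certificates for products of four trees
-/

set_option autoImplicit false

namespace Pool.Agent.J4H92.CT

open Module

theorem vp_lt {n0 n1 n2 n3 k a b : ℕ} (h : Vp n0 n1 n2 n3 k a b) : k < 10 := by
  by_contra hk
  obtain ⟨l, rfl⟩ : ∃ l, k = l + 10 := ⟨k - 10, by omega⟩
  exact h

theorem mem_orows {p : ℕ → ℕ → ℕ} {k n : ℕ} {row : List En} (h : row ∈ orows p k n) :
    ∃ a < n, row = orow (p a) k a := by
  induction n with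
  | zero => simp [orows] at h
  | succ n ih =>
    rw [orows, List.mem_cons] at h
    rcases h with h | h
    · exact ⟨n, Nat.lt_succ_self n, h⟩
    · obtain ⟨a, ha, h⟩ := ih h
      exact ⟨a, Nat.lt_succ_of_lt ha, h⟩

theorem orow_mod (p : ℕ → ℕ) (k a : ℕ) :
    ∀ e ∈ orow p k a, ((e.z : ℤ) : ZMod 3) = (e.n : ZMod 3) := by
  intro e he
  simp only [orow, List.mem_cons, List.not_mem_nil, or_false] at he
  rcases he with rfl | rfl | rfl <;> simp

theorem orow_pos {p : ℕ → ℕ} {k a n0 n1 n2 n3 : ℕ} (h : ∀ c < 3, Vp n0 n1 n2 n3 k a c) :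
    ∀ e ∈ orow p k a, Vp n0 n1 n2 n3 e.k e.a e.b := by
  intro e he
  simp only [orow, List.mem_cons, List.not_mem_nil, or_false] at he
  rcases he with rfl | rfl | rfl
  · exact h 0 (by norm_num)
  · exact h 1 (by norm_num)
  · exact h 2 (by norm_num)

theorem orow_sum (p : ℕ → ℕ) (k a : ℕ) (y : ℕ → ℕ → ℕ → ℝ) (x : Fin 3 → ℝ)
    (hx : ∀ c : Fin 3, y k a c = x c) :
    ((orow p k a).map fun e => ((e.z : ℤ) : ℝ) * y e.k e.a e.b).sum = vr p ⬝ᵥ x := by
  have h0 : y k a 0 = x 0 := hx 0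
  have h1 : y k a 1 = x 1 := hx 1
  have h2 : y k a 2 = x 2 := hx 2
  have v0 : vr p 0 = p 0 := rfl
  have v1 : vr p 1 = p 1 := rfl
  have v2 : vr p 2 = p 2 := rfl
  simp only [orow, List.map_cons, List.map_nil, List.sum_cons, List.sum_nil, Int.cast_natCast,
    h0, h1, h2, dot3, v0, v1, v2]
  ring

namespace Ct4

variable (c : Ct4)

/-- the real data of a certificate -/
def dr : Dr where
  p0 a := vr (pk c.P0 a)
  p1 a := vr (pk c.P1 a)
  p2 a := vr (pk c.P2 a)
  p3 a := vr (pk c.P3 a)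
  b0 x y z := vr (bk c.B0 ((x * c.n2 + y) * c.n3 + z))
  b1 w y z := vr (bk c.B1 ((w * c.n2 + y) * c.n3 + z))
  b2 w x z := vr (bk c.B2 ((w * c.n1 + x) * c.n3 + z))
  b3 w x y := vr (bk c.B3 ((w * c.n1 + x) * c.n2 + y))
  cc w x y z := vr (bk c.C (((w * c.n1 + x) * c.n2 + y) * c.n3 + z))

variable {c}

theorem det1_spec {p q r : ℕ → ℕ → ℕ} {a b n : ℕ} (h : det1 p q r a b n = true) :
    ∀ i < n, det3 (vr (p a)) (vr (q b)) (vr (r i)) ≠ 0 := by
  induction n with
  | zero => intro i hi; omega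
  | succ n ih =>
    rw [det1, Bool.and_eq_true] at h
    intro i hi
    rcases Nat.lt_succ_iff_lt_or_eq.1 hi with hi | rfl
    · exact ih h.2 i hi
    · exact detB_spec h.1

theorem det2_spec {p q r : ℕ → ℕ → ℕ} {a n m : ℕ} (h : det2 p q r a n m = true) :
    ∀ b < m, ∀ i < n, det3 (vr (p a)) (vr (q b)) (vr (r i)) ≠ 0 := by
  induction m with
  | zero => intro i hi; omega
  | succ m ih =>
    rw [det2, Bool.and_eq_true] at h
    intro i hi
    rcases Nat.lt_succ_iff_lt_or_eq.1 hi with hi | rfl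
    · exact ih h.2 i hi
    · exact det1_spec h.1

theorem det3_spec {p q r : ℕ → ℕ → ℕ} {m n l : ℕ} (h : det3' p q r m n l = true) :
    ∀ a < l, ∀ b < m, ∀ i < n, det3 (vr (p a)) (vr (q b)) (vr (r i)) ≠ 0 := by
  induction l with
  | zero => intro i hi; omega
  | succ l ih =>
    rw [det3', Bool.and_eq_true] at h
    intro i hi
    rcases Nat.lt_succ_iff_lt_or_eq.1 hi with hi | rfl
    · exact ih h.2 i hi
    · exact det2_spec h.1

theorem chk_spec {l : List (List En)} {r : ℕ} (h : c.chk r l = true) :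
    ∀ i (hi : i < l.length), acc c.tab l[i] = (2 ^ (r + i), 0) := by
  induction l generalizing r with
  | nil => intro i hi; simp at hi
  | cons row l ih =>
    rw [chk, Bool.and_eq_true, Bool.and_eq_true] at h
    intro i hi
    rcases i with _ | i
    · rw [List.getElem_cons_zero]
      exact Prod.ext (Nat.eq_of_beq_eq_true h.1.1) (Nat.eq_of_beq_eq_true h.1.2)
    · rw [List.getElem_cons_succ, ih h.2 i (by simpa using hi)]
      congr 2
      omega

theorem nm_tab {k : ℕ} (h : (nth c.TP k) &&& (nth c.TN k) = 0) (a b : ℕ) : Nm (c.tab k a b) := by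
  rintro j ⟨h1, h2⟩
  simp only [tab, Nat.testBit_and, Nat.testBit_shiftRight, Bool.and_eq_true] at h1 h2
  have h3 : ((nth c.TP k) &&& (nth c.TN k)).testBit
      (c.W * (a * d2 c.n1 c.n2 c.n3 k + b) + j) = true := by
    rw [Nat.testBit_and, h1.1, h2.1]
    rfl
  rw [h, Nat.zero_testBit] at h3
  exact Bool.false_ne_true h3

theorem sound (h : c.ok = true) (τ0 : Par c.n0) (τ1 : Par c.n1) (τ2 : Par c.n2) (τ3 : Par c.n3) :
    CP.Mu 0 (3 + c.U.length) (G4 τ0 τ1 τ2 τ3) := by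
  unfold ok at h
  simp only [Bool.and_eq_true] at h
  obtain ⟨⟨p1, p2, p3⟩, ⟨t0, t1, t2, t3⟩, ⟨hlen, hQ, hU⟩, hNm, hchk⟩ := h
  have p1' : 0 < c.n1 := Nat.le_of_ble_eq_true p1
  have p2' : 0 < c.n2 := Nat.le_of_ble_eq_true p2
  have p3' : 0 < c.n3 := Nat.le_of_ble_eq_true p3
  have N : Nd c.dr c.n0 c.n1 c.n2 c.n3 :=
    ⟨det3_spec t0, det3_spec t1, det3_spec t2, det3_spec t3⟩
  have hlen' := Nat.eq_of_beq_eq_true hlen
  have hl : (c.U.map fun u => (u >>> 12, (u >>> 6) &&& 63, u &&& 63)).length = c.U.length :=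
    List.length_map _
  rw [← hl]
  refine mu_of_reg τ0 τ1 τ2 τ3 c.dr N p1' p2' p3' _ ?_
  intro m H hUz k a b hk
  -- the list of rows
  have hrow : ∀ row ∈ c.rows, (∀ e ∈ row, Vp c.n0 c.n1 c.n2 c.n3 e.k e.a e.b) ∧
      (∀ e ∈ row, ((e.z : ℤ) : ZMod 3) = (e.n : ZMod 3)) ∧
      (row.map fun e => ((e.z : ℤ) : ℝ) * yy c.dr m e.k e.a e.b).sum = 0 := by
    intro row hr
    unfold rows at hr
    rw [List.mem_append, List.mem_append, List.mem_append, List.mem_append, List.mem_append] at hr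
    rcases hr with hr | hr | hr | hr | hr | hr
    · obtain ⟨q, hq, rfl⟩ := List.mem_map.1 hr
      rw [List.all_eq_true] at hQ
      have h1 := hQ q hq
      simp only [Bool.and_eq_true] at h1
      have l0 : q >>> 18 < c.n0 := Nat.le_of_ble_eq_true h1.1.1
      have l1 : (q >>> 12) &&& 63 < c.n1 := Nat.le_of_ble_eq_true h1.1.2
      have l2 : (q >>> 6) &&& 63 < c.n2 := Nat.le_of_ble_eq_true h1.2.1
      have l3 : q &&& 63 < c.n3 := Nat.le_of_ble_eq_true h1.2.2
      refine ⟨qrow_pos _ _ _ _ _ _ _ _ _ l0 l1 l2 l3, qrow_mod _ _ _ _ _ _ _ _ _ _ _ _ _, ?_⟩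
      unfold row
      rw [qrow_sum]
      exact quad_eq H N l0 l1 l2 l3
    · obtain ⟨a, ha, rfl⟩ := mem_orows hr
      refine ⟨orow_pos fun _ h => ⟨ha, h⟩, orow_mod _ _ _, ?_⟩
      rw [orow_sum _ _ _ _ (m (a + 1) 0 0 0) (fun c => by
        show m (a + 1) 0 0 0 (fo 2 c) = _
        rw [fo_val])]
      exact f0_0 H ha
    · obtain ⟨a, ha, rfl⟩ := mem_orows hr
      refine ⟨orow_pos fun _ h => ⟨ha, h⟩, orow_mod _ _ _, ?_⟩
      rw [orow_sum _ _ _ _ (m 0 (a + 1) 0 0) (fun c => by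
        show m 0 (a + 1) 0 0 (fo 2 c) = _
        rw [fo_val])]
      exact f1_1 H ha
    · obtain ⟨a, ha, rfl⟩ := mem_orows hr
      refine ⟨orow_pos fun _ h => ⟨ha, h⟩, orow_mod _ _ _, ?_⟩
      rw [orow_sum _ _ _ _ (m 0 0 (a + 1) 0) (fun c => by
        show m 0 0 (a + 1) 0 (fo 2 c) = _
        rw [fo_val])]
      exact f2_2 H ha
    · obtain ⟨a, ha, rfl⟩ := mem_orows hr
      refine ⟨orow_pos fun _ h => ⟨ha, h⟩, orow_mod _ _ _, ?_⟩
      rw [orow_sum _ _ _ _ (m 0 0 0 (a + 1)) (fun c => by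
        show m 0 0 0 (a + 1) (fo 2 c) = _
        rw [fo_val])]
      exact f3_3 H ha
    · obtain ⟨u, hu, rfl⟩ := List.mem_map.1 hr
      rw [List.all_eq_true] at hU
      have h1 := vb_spec (hU u hu)
      refine ⟨?_, ?_, ?_⟩
      · intro e he
        rw [urow, List.mem_singleton] at he
        subst he
        exact h1
      · intro e he
        rw [urow, List.mem_singleton] at he
        subst he
        simp
      · have h2 := hUz _ (List.mem_map.2 ⟨u, hu, rfl⟩)
        simp only [urow, List.map_cons, List.map_nil, List.sum_cons, List.sum_nil, Int.cast_one,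
          one_mul, add_zero]
        exact h2
  have hget : ∀ r, r < c.rows.length → c.rows.getD r [] ∈ c.rows := by
    intro r hr
    rw [List.getD_eq_getElem _ _ hr]
    exact List.getElem_mem hr
  have key := regular3 (fun r => c.rows.getD r []) c.rows.length (VF c.n0 c.n1 c.n2 c.n3)
    (by rw [card_VF, hlen']) c.tab
    (fun r hr e he => mem_VF.2 ((hrow _ (hget r hr)).1 e he))
    (fun r hr e he => (hrow _ (hget r hr)).2.1 e he)
    (fun r hr e he => by
      have h1 := vp_lt ((hrow _ (hget r hr)).1 e he)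
      rw [List.all_eq_true] at hNm
      exact nm_tab (Nat.eq_of_beq_eq_true (hNm e.k (List.mem_range.2 h1))) _ _)
    (fun r hr => by
      have h1 := chk_spec hchk r hr
      rw [Nat.zero_add] at h1
      show acc c.tab (c.rows.getD r []) = _
      rw [List.getD_eq_getElem _ _ hr]
      exact h1)
    (yy c.dr m)
    (fun r hr => (hrow _ (hget r hr)).2.2)
  exact key ⟨k, (a, b)⟩ (mem_VF.2 hk)

end Ct4

end Pool.Agent.J4H92.CT
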