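import Pool.Agent.J4H92.CT.Sys3
import Pool.Agent.J4H92.CT.Sound4

/-!
# Reduction of the collapsed system of three trees with pins, certificates
-/

set_option autoImplicit false

namespace Pool.Agent.J4H92.CT

open Module

/-- all unknowns of the reduced system -/
noncomputable def yy3 (D : Dq) (m : ℕ → ℕ → ℕ → Fin 3 → ℝ) : ℕ → ℕ → ℕ → ℝ
  | 0, _, c => m 0 0 0 (fo 2 c)
  | 1, a, _ => lam (D.p0 a) D.d (m (a + 1) 0 0)
  | 2, a, _ => lam (D.p1 a) D.d (m 0 (a + 1) 0)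
  | 3, a, _ => lam (D.p2 a) D.d (m 0 0 (a + 1))
  | _, _, _ => 0

/-- nondegenerate data -/
structure Nd3 (D : Dq) (n0 n1 n2 : ℕ) : Prop where
  t0 : ∀ a < n1, ∀ b < n2, det3 (D.p1 a) (D.p2 b) D.d ≠ 0
  t1 : ∀ a < n0, ∀ b < n2, det3 (D.p0 a) (D.p2 b) D.d ≠ 0
  t2 : ∀ a < n0, ∀ b < n1, det3 (D.p0 a) (D.p1 b) D.d ≠ 0

/-- the value of a row -/
def tval (p0 p1 p2 d pt d0 d1 d2 dt x : Fin 3 → ℝ) (l0 l1 l2 : ℝ) : ℝ :=
  -det3 p0 p1 p2 * (dt ⬝ᵥ x) +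
  ((-det3 p0 p1 p2 * det3 d0 p0 d + det3 p1 p2 d * det3 pt p0 d) * l0 +
  (-det3 p0 p1 p2 * det3 d1 p1 d + -det3 p0 p2 d * det3 pt p1 d) * l1 +
  (-det3 p0 p1 p2 * det3 d2 p2 d + det3 p0 p1 d * det3 pt p2 d) * l2)

theorem det3_sw (p q r : Fin 3 → ℝ) : det3 p r q = - det3 p q r := by
  unfold det3
  ring

theorem det3_ne_sw {p q r : Fin 3 → ℝ} (h : det3 p q r ≠ 0) : det3 p r q ≠ 0 := by
  rw [det3_sw]
  exact neg_ne_zero.2 h

section

variable {D : Dq} {n0 n1 n2 : ℕ} {m : ℕ → ℕ → ℕ → Fin 3 → ℝ}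
  (H : Sys3 D n0 n1 n2 m) (N : Nd3 D n0 n1 n2)

include H N

theorem triple_eq {a b c : ℕ} (ha : a < n0) (hb : b < n1) (hc : c < n2) :
    tval (D.p0 a) (D.p1 b) (D.p2 c) D.d (D.pt a b c) (D.d0 b c) (D.d1 a c) (D.d2 a b)
      (D.dt a b c) (m 0 0 0) (yy3 D m 1 a 0) (yy3 D m 2 b 0) (yy3 D m 3 c 0) = 0 := by
  have e0 := g012_0 H ha hb hc
  have e1 := g012_1 H ha hb hc
  have e2 := g012_2 H ha hb hc
  have e3 := q012 H ha hb hc
  have k0 := dot_lam (det3_ne_sw (N.t2 a ha b hb)) (g0_0 H ha) (q0 H ha)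
  have d1' : det3 (D.p1 b) D.d (D.p2 c) ≠ 0 := det3_ne_sw (N.t0 b hb c hc)
  have k1 := dot_lam d1' (g1_1 H hb) (q1 H hb)
  have d2' : det3 (D.p2 c) D.d (D.p1 b) ≠ 0 := by
    rw [det3_rot]
    exact N.t0 b hb c hc
  have k2 := dot_lam d2' (g2_2 H hc) (q2 H hc)
  rw [k0] at e0
  rw [k1] at e1
  rw [k2] at e2
  rw [k0, k1, k2] at e3
  have hc4 := cramer (D.p0 a) (D.p1 b) (D.p2 c) D.d (m (a + 1) (b + 1) (c + 1))
  unfold tval
  simp only [yy3]
  linear_combination det3 (D.p1 b) (D.p2 c) D.d * e0 - det3 (D.p0 a) (D.p2 c) D.d * e1 +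
    det3 (D.p0 a) (D.p1 b) D.d * e2 - det3 (D.p0 a) (D.p1 b) (D.p2 c) * e3 - hc4

end

/-- valid positions -/
def Vp3 (n0 n1 n2 : ℕ) : ℕ → ℕ → ℕ → Prop
  | 0, a, c => a < 1 ∧ c < 3
  | 1, a, c => a < n0 ∧ c < 1
  | 2, a, c => a < n1 ∧ c < 1
  | 3, a, c => a < n2 ∧ c < 1
  | _, _, _ => False

section

variable {D : Dq} {n0 n1 n2 : ℕ} {m : ℕ → ℕ → ℕ → Fin 3 → ℝ}
  (H : Sys3 D n0 n1 n2 m) (N : Nd3 D n0 n1 n2) (p0 : 0 < n0) (p1 : 0 < n1) 
  (hy : ∀ k a b, Vp3 n0 n1 n2 k a b → yy3 D m k a b = 0)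

include H N p0 p1 hy

theorem all_zero3 {a b c : ℕ} (ha : a < n0 + 1) (hb : b < n1 + 1)
    (hc : c < n2 + 1) : m a b c = 0 := by
  have s : m 0 0 0 = 0 := by
    funext i
    have := hy 0 0 i ⟨by norm_num, i.2⟩
    simp only [yy3, fo_val] at this
    exact this
  have s0 : ∀ a < n0, m (a + 1) 0 0 = 0 := fun a ha =>
    zero_lam (det3_ne_sw (N.t2 a ha 0 p1)) (g0_0 H ha) (q0 H ha) (hy 1 a 0 ⟨ha, by norm_num⟩)
  have s1 : ∀ a < n1, m 0 (a + 1) 0 = 0 := fun a ha => by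
    refine zero_lam (p := D.p1 a) (q := D.d) (r := D.p0 0) ?_ (g1_1 H ha) (q1 H ha)
      (hy 2 a 0 ⟨ha, by norm_num⟩)
    rw [det3_rot]
    exact N.t2 0 p0 a ha
  have s2 : ∀ a < n2, m 0 0 (a + 1) = 0 := fun a ha => by
    refine zero_lam (p := D.p2 a) (q := D.d) (r := D.p0 0) ?_ (g2_2 H ha) (q2 H ha)
      (hy 3 a 0 ⟨ha, by norm_num⟩)
    rw [det3_rot]
    exact N.t1 0 p0 a ha
  have r01 : ∀ a < n0, ∀ b < n1, m (a + 1) (b + 1) 0 = 0 := fun a ha b hb => by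
    have e := q01 H ha hb
    rw [s, dotProduct_zero, add_zero] at e
    exact zero_of_three (N.t2 a ha b hb) (g01_0 H ha hb) (g01_1 H ha hb) e
  have r02 : ∀ a < n0, ∀ b < n2, m (a + 1) 0 (b + 1) = 0 := fun a ha b hb => by
    have e := q02 H ha hb
    rw [s, dotProduct_zero, add_zero] at e
    exact zero_of_three (N.t1 a ha b hb) (g02_0 H ha hb) (g02_2 H ha hb) e
  have r12 : ∀ a < n1, ∀ b < n2, m 0 (a + 1) (b + 1) = 0 := fun a ha b hb => by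
    have e := q12 H ha hb
    rw [s, dotProduct_zero, add_zero] at e
    exact zero_of_three (N.t0 a ha b hb) (g12_1 H ha hb) (g12_2 H ha hb) e
  have qq : ∀ a < n0, ∀ b < n1, ∀ c < n2, m (a + 1) (b + 1) (c + 1) = 0 := by
    intro a ha b hb c hc
    have e0 := g012_0 H ha hb hc
    have e1 := g012_1 H ha hb hc
    have e3 := q012 H ha hb hc
    rw [s0 a ha] at e0
    rw [s1 b hb] at e1
    rw [s0 a ha, s1 b hb, s2 c hc, s] at e3
    simp only [dotProduct_zero, add_zero] at e0 e1 e3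
    exact zero_of_three (N.t2 a ha b hb) e0 e1 e3
  rcases a with _ | a <;> rcases b with _ | b <;> rcases c with _ | c
  · exact s
  · exact s2 c (by omega)
  · exact s1 b (by omega)
  · exact r12 b (by omega) c (by omega)
  · exact s0 a (by omega)
  · exact r02 a (by omega) c (by omega)
  · exact r01 a (by omega) b (by omega)
  · exact qq a (by omega) b (by omega) c (by omega)

end

theorem yy3_add (D : Dq) (m m' : ℕ → ℕ → ℕ → Fin 3 → ℝ) (k a b : ℕ) :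
    yy3 D (fun a b c => m a b c + m' a b c) k a b = yy3 D m k a b + yy3 D m' k a b := by
  rcases k with _ | _ | _ | _ | k
  all_goals first
    | rfl
    | exact lam_add _ _ _ _
    | exact (add_zero (0 : ℝ)).symm

theorem yy3_smul (D : Dq) (r : ℝ) (m : ℕ → ℕ → ℕ → Fin 3 → ℝ) (k a b : ℕ) :
    yy3 D (fun a b c => r • m a b c) k a b = r * yy3 D m k a b := by
  rcases k with _ | _ | _ | _ | k
  all_goals first
    | rfl
    | exact lam_smul _ _ _ _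
    | exact (mul_zero r).symm

theorem mu_of_reg3 {n0 n1 n2 : ℕ} (τ0 : Par n0) (τ1 : Par n1) (τ2 : Par n2)
    (D : Dq) (N : Nd3 D n0 n1 n2) (p0 : 0 < n0) (p1 : 0 < n1) (U : List (ℕ × ℕ × ℕ))
    (hreg : ∀ m, Sys3 D n0 n1 n2 m → (∀ u ∈ U, yy3 D m u.1 u.2.1 u.2.2 = 0) →
      ∀ k a b, Vp3 n0 n1 n2 k a b → yy3 D m k a b = 0) :
    CP.Mu 1 U.length (G3 τ0 τ1 τ2) := by
  refine collapse3 τ0 τ1 τ2 (PV3 D) (QV3 D) _ ?_
  let Φ : (V3 n0 n1 n2 → Fin 3 → ℝ) →ₗ[ℝ] (Fin U.length → ℝ) :=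
    { toFun := fun M => fun i => yy3 D (MM3 M) (U[i]).1 (U[i]).2.1 (U[i]).2.2
      map_add' := fun M M' => by
        funext i
        exact yy3_add D (MM3 M) (MM3 M') _ _ _
      map_smul' := fun r M => by
        funext i
        exact yy3_smul D r (MM3 M) _ _ _ }
  have hinj : Function.Injective (Φ.domRestrict
      (LinearMap.ker (L3 τ0 τ1 τ2 (PV3 D) (QV3 D) 0))) := by
    rw [injective_iff_map_eq_zero]
    rintro ⟨M, hM⟩ h0
    rw [Subtype.ext_iff]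
    show M = 0
    have h2 : (fun i : Fin U.length => yy3 D (MM3 M) (U[i]).1 (U[i]).2.1 (U[i]).2.2) = 0 := h0
    have H := sys_of_ker3 τ0 τ1 τ2 hM
    have h3 := hreg (MM3 M) H (fun u hu => by
      obtain ⟨i, hi, hiu⟩ := List.mem_iff_getElem.1 hu
      have := congrFun h2 ⟨i, hi⟩
      rw [← hiu]
      exact this)
    funext v
    obtain ⟨a, b, c⟩ := v
    rw [MM3_val M]
    exact all_zero3 H N p0 p1 h3 a.2 b.2 c.2
  have := LinearMap.finrank_le_finrank_of_injective hinj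
  rwa [Module.finrank_fintype_fun_eq_card, Fintype.card_fin] at this

/-! ### Certificates -/

/-- the certificate -/
structure Ct3 where
  n0 : ℕ
  n1 : ℕ
  n2 : ℕ
  P0 : ℕ
  P1 : ℕ
  P2 : ℕ
  D : ℕ
  PT : ℕ
  D0 : ℕ
  D1 : ℕ
  D2 : ℕ
  DT : ℕ
  W : ℕ
  Q : List ℕ
  U : List ℕ
  TP : List ℕ
  TN : List ℕ

/-- first range -/
def e1 (n0 n1 n2 : ℕ) : ℕ → ℕ
  | 0 => 1
  | 1 => n0
  | 2 => n1
  | 3 => n2
  | _ => 0

/-- second range -/
def e2 : ℕ → ℕ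
  | 0 => 3
  | 1 => 1
  | 2 => 1
  | 3 => 1
  | _ => 0

/-- valid positions -/
def VF3 (n0 n1 n2 : ℕ) : Finset ((_ : ℕ) × (ℕ × ℕ)) :=
  (Finset.range 4).sigma fun k => Finset.range (e1 n0 n1 n2 k) ×ˢ Finset.range (e2 k)

theorem mem_VF3 {n0 n1 n2 k a b : ℕ} :
    (⟨k, (a, b)⟩ : (_ : ℕ) × (ℕ × ℕ)) ∈ VF3 n0 n1 n2 ↔ Vp3 n0 n1 n2 k a b := by
  unfold VF3
  rw [Finset.mem_sigma, Finset.mem_product, Finset.mem_range, Finset.mem_range, Finset.mem_range]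
  rcases k with _ | _ | _ | _ | k
  all_goals simp [Vp3, e1, e2]

theorem card_VF3 (n0 n1 n2 : ℕ) : (VF3 n0 n1 n2).card = 3 + n0 + n1 + n2 := by
  unfold VF3
  rw [Finset.card_sigma]
  simp only [Finset.card_product, Finset.card_range, Finset.sum_range_succ, Finset.sum_range_zero,
    e1, e2]
  ring

/-- valid position, computable -/
def vb3 (n0 n1 n2 k a b : ℕ) : Bool :=
  Nat.blt k 4 && (Nat.blt a (e1 n0 n1 n2 k) && Nat.blt b (e2 k))

theorem vb3_spec {n0 n1 n2 k a b : ℕ} (h : vb3 n0 n1 n2 k a b = true) :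
    Vp3 n0 n1 n2 k a b := by
  unfold vb3 at h
  rw [Bool.and_eq_true, Bool.and_eq_true] at h
  rw [← mem_VF3]
  unfold VF3
  rw [Finset.mem_sigma, Finset.mem_product, Finset.mem_range, Finset.mem_range, Finset.mem_range]
  exact ⟨Nat.le_of_ble_eq_true h.1, Nat.le_of_ble_eq_true h.2.1, Nat.le_of_ble_eq_true h.2.2⟩

/-- the row of a triple -/
def trow (p0 p1 p2 d pt d0 d1 d2 dt : ℕ → ℕ) (i j k : ℕ) : List En :=
  [⟨0, 0, 0, -detZ p0 p1 p2 * dt 0, 2 * detN p0 p1 p2 * dt 0⟩,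
   ⟨0, 0, 1, -detZ p0 p1 p2 * dt 1, 2 * detN p0 p1 p2 * dt 1⟩,
   ⟨0, 0, 2, -detZ p0 p1 p2 * dt 2, 2 * detN p0 p1 p2 * dt 2⟩,
   ⟨1, i, 0, -detZ p0 p1 p2 * detZ d0 p0 d + detZ p1 p2 d * detZ pt p0 d,
     2 * detN p0 p1 p2 * detN d0 p0 d + detN p1 p2 d * detN pt p0 d⟩,
   ⟨2, j, 0, -detZ p0 p1 p2 * detZ d1 p1 d + -detZ p0 p2 d * detZ pt p1 d,
     2 * detN p0 p1 p2 * detN d1 p1 d + 2 * detN p0 p2 d * detN pt p1 d⟩,
   ⟨3, k, 0, -detZ p0 p1 p2 * detZ d2 p2 d + detZ p0 p1 d * detZ pt p2 d,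
     2 * detN p0 p1 p2 * detN d2 p2 d + detN p0 p1 d * detN pt p2 d⟩]

theorem trow_mod (p0 p1 p2 d pt d0 d1 d2 dt : ℕ → ℕ) (i j k : ℕ) :
    ∀ e ∈ trow p0 p1 p2 d pt d0 d1 d2 dt i j k, ((e.z : ℤ) : ZMod 3) = (e.n : ZMod 3) := by
  have h2 : (2 : ZMod 3) = -1 := by decide
  intro e he
  simp only [trow, List.mem_cons, List.not_mem_nil, or_false] at he
  rcases he with rfl | rfl | rfl | rfl | rfl | rfl
  all_goals
    simp only [Int.cast_mul, Int.cast_add, Int.cast_neg, det_mod, Nat.cast_mul, Nat.cast_add,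
      Int.cast_natCast, Nat.cast_ofNat, h2]
    try ring

theorem trow_pos (p0 p1 p2 d pt d0 d1 d2 dt : ℕ → ℕ) {i j k n0 n1 n2 : ℕ} (hi : i < n0)
    (hj : j < n1) (hk : k < n2) :
    ∀ e ∈ trow p0 p1 p2 d pt d0 d1 d2 dt i j k, Vp3 n0 n1 n2 e.k e.a e.b := by
  intro e he
  simp only [trow, List.mem_cons, List.not_mem_nil, or_false] at he
  rcases he with rfl | rfl | rfl | rfl | rfl | rfl
  all_goals simp [Vp3, hi, hj, hk]

theorem trow_sum (p0 p1 p2 d pt d0 d1 d2 dt : ℕ → ℕ) (i j k : ℕ) (D : Dq)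
    (m : ℕ → ℕ → ℕ → Fin 3 → ℝ) :
    ((trow p0 p1 p2 d pt d0 d1 d2 dt i j k).map fun e =>
      ((e.z : ℤ) : ℝ) * yy3 D m e.k e.a e.b).sum =
    tval (vr p0) (vr p1) (vr p2) (vr d) (vr pt) (vr d0) (vr d1) (vr d2) (vr dt)
      (m 0 0 0) (yy3 D m 1 i 0) (yy3 D m 2 j 0) (yy3 D m 3 k 0) := by
  have e0 : fo 2 0 = 0 := rfl
  have e1 : fo 2 1 = 1 := rfl
  have e2 : fo 2 2 = 2 := rfl
  have v0 : ∀ f : ℕ → ℕ, vr f 0 = f 0 := fun _ => rfl
  have v1 : ∀ f : ℕ → ℕ, vr f 1 = f 1 := fun _ => rfl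
  have v2 : ∀ f : ℕ → ℕ, vr f 2 = f 2 := fun _ => rfl
  unfold tval
  simp only [trow, List.map_cons, List.map_nil, List.sum_cons, List.sum_nil, Int.cast_mul,
    Int.cast_add, Int.cast_neg, Int.cast_natCast, detZ_real, dot3, v0, v1, v2]
  have y0 : ∀ c, yy3 D m 0 0 c = m 0 0 0 (fo 2 c) := fun _ => rfl
  simp only [y0, e0, e1, e2]
  ring

namespace Ct3

variable (c : Ct3)

/-- the row of a coded triple -/
def row (q : ℕ) : List En :=
  trow (pk c.P0 (q >>> 12)) (pk c.P1 ((q >>> 6) &&& 63)) (pk c.P2 (q &&& 63)) (pk c.D 0)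
    (bk c.PT (((q >>> 12) * c.n1 + ((q >>> 6) &&& 63)) * c.n2 + (q &&& 63)))
    (bk c.D0 (((q >>> 6) &&& 63) * c.n2 + (q &&& 63)))
    (bk c.D1 ((q >>> 12) * c.n2 + (q &&& 63)))
    (bk c.D2 ((q >>> 12) * c.n1 + ((q >>> 6) &&& 63)))
    (bk c.DT (((q >>> 12) * c.n1 + ((q >>> 6) &&& 63)) * c.n2 + (q &&& 63)))
    (q >>> 12) ((q >>> 6) &&& 63) (q &&& 63)

/-- all rows -/
def rows : List (List En) :=
  c.Q.map c.row ++ (orow (pk c.D 0) 0 0 ::
      c.U.map fun u => urow (u >>> 12) ((u >>> 6) &&& 63) (u &&& 63))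

/-- the table of the inverse -/
def tab (k a b : ℕ) : ℕ × ℕ :=
  (((nth c.TP k) >>> (c.W * (a * e2 k + b))) &&& (2 ^ c.W - 1),
   ((nth c.TN k) >>> (c.W * (a * e2 k + b))) &&& (2 ^ c.W - 1))

/-- check of the products -/
def chk : ℕ → List (List En) → Bool
  | _, [] => true
  | r, row :: l => (Nat.beq (acc c.tab row).1 (2 ^ r) && Nat.beq (acc c.tab row).2 0) &&
      chk (r + 1) l

/-- the check -/
def ok : Bool :=
  (Nat.blt 0 c.n0 && Nat.blt 0 c.n1) &&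
  ((Ct4.det3' (pk c.P1) (pk c.P2) (fun _ => pk c.D 0) c.n2 1 c.n1 &&
    (Ct4.det3' (pk c.P0) (pk c.P2) (fun _ => pk c.D 0) c.n2 1 c.n0 &&
    Ct4.det3' (pk c.P0) (pk c.P1) (fun _ => pk c.D 0) c.n1 1 c.n0)) &&
  ((Nat.beq c.rows.length (3 + c.n0 + c.n1 + c.n2) &&
  (c.Q.all (fun q => (Nat.blt (q >>> 12) c.n0 && (Nat.blt ((q >>> 6) &&& 63) c.n1 &&
    Nat.blt (q &&& 63) c.n2))) &&
  c.U.all (fun u => vb3 c.n0 c.n1 c.n2 (u >>> 12) ((u >>> 6) &&& 63) (u &&& 63)))) &&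
  (((List.range 4).all fun k => Nat.beq ((nth c.TP k) &&& (nth c.TN k)) 0) &&
  c.chk 0 c.rows)))

/-- the real data of a certificate -/
def dr : Dq where
  p0 a := vr (pk c.P0 a)
  p1 a := vr (pk c.P1 a)
  p2 a := vr (pk c.P2 a)
  d := vr (pk c.D 0)
  pt w x y := vr (bk c.PT ((w * c.n1 + x) * c.n2 + y))
  d0 x y := vr (bk c.D0 (x * c.n2 + y))
  d1 w y := vr (bk c.D1 (w * c.n2 + y))
  d2 w x := vr (bk c.D2 (w * c.n1 + x))
  dt w x y := vr (bk c.DT ((w * c.n1 + x) * c.n2 + y))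

variable {c}

theorem chk_spec {l : List (List En)} {r : ℕ} (h : c.chk r l = true) :
    ∀ i (hi : i < l.length), acc c.tab l[i] = (2 ^ (r + i), 0) := by
  induction l generalizing r with
  | nil => intro i hi; simp at hi
  | cons row l ih =>
    rw [chk, Bool.and_eq_true, Bool.and_eq_true] at h
    intro i hi
    rcases i with _ | i
    · rw [List.getElem_cons_zero]
      exact Prod.ext (Nat.eq_of_beq_eq_true h.1.1) (Nat.eq_of_beq_eq_true h.1.2)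
    · rw [List.getElem_cons_succ, ih h.2 i (by simpa using hi)]
      congr 2
      omega

theorem nm_tab {k : ℕ} (h : (nth c.TP k) &&& (nth c.TN k) = 0) (a b : ℕ) : Nm (c.tab k a b) := by
  rintro j ⟨h1, h2⟩
  simp only [tab, Nat.testBit_and, Nat.testBit_shiftRight, Bool.and_eq_true] at h1 h2
  have h3 : ((nth c.TP k) &&& (nth c.TN k)).testBit
      (c.W * (a * e2 k + b) + j) = true := by
    rw [Nat.testBit_and, h1.1, h2.1]
    rfl
  rw [h, Nat.zero_testBit] at h3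
  exact Bool.false_ne_true h3

theorem vp3_lt {n0 n1 n2 k a b : ℕ} (h : Vp3 n0 n1 n2 k a b) : k < 4 := by
  by_contra hk
  obtain ⟨l, rfl⟩ : ∃ l, k = l + 4 := ⟨k - 4, by omega⟩
  exact h

theorem orow_pos' {p : ℕ → ℕ} {n0 n1 n2 : ℕ} :
    ∀ e ∈ orow p 0 0, Vp3 n0 n1 n2 e.k e.a e.b := by
  intro e he
  simp only [orow, List.mem_cons, List.not_mem_nil, or_false] at he
  rcases he with rfl | rfl | rfl <;> simp [Vp3]

theorem sound (h : c.ok = true) (τ0 : Par c.n0) (τ1 : Par c.n1) (τ2 : Par c.n2) :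
    CP.Mu 1 c.U.length (G3 τ0 τ1 τ2) := by
  unfold ok at h
  simp only [Bool.and_eq_true] at h
  obtain ⟨⟨p0, p1⟩, ⟨t0, t1, t2⟩, ⟨hlen, hQ, hU⟩, hNm, hchk⟩ := h
  have p0' : 0 < c.n0 := Nat.le_of_ble_eq_true p0
  have p1' : 0 < c.n1 := Nat.le_of_ble_eq_true p1
  have N : Nd3 c.dr c.n0 c.n1 c.n2 :=
    ⟨fun a ha b hb => Ct4.det3_spec t0 a ha b hb 0 (by norm_num),
      fun a ha b hb => Ct4.det3_spec t1 a ha b hb 0 (by norm_num),
      fun a ha b hb => Ct4.det3_spec t2 a ha b hb 0 (by norm_num)⟩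
  have hlen' := Nat.eq_of_beq_eq_true hlen
  have hl : (c.U.map fun u => (u >>> 12, (u >>> 6) &&& 63, u &&& 63)).length = c.U.length :=
    List.length_map _
  rw [← hl]
  refine mu_of_reg3 τ0 τ1 τ2 c.dr N p0' p1' _ ?_
  intro m H hUz k a b hk
  have hrow : ∀ row ∈ c.rows, (∀ e ∈ row, Vp3 c.n0 c.n1 c.n2 e.k e.a e.b) ∧
      (∀ e ∈ row, ((e.z : ℤ) : ZMod 3) = (e.n : ZMod 3)) ∧
      (row.map fun e => ((e.z : ℤ) : ℝ) * yy3 c.dr m e.k e.a e.b).sum = 0 := by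
    intro row hr
    unfold rows at hr
    rw [List.mem_append, List.mem_cons] at hr
    rcases hr with hr | rfl | hr
    · obtain ⟨q, hq, rfl⟩ := List.mem_map.1 hr
      rw [List.all_eq_true] at hQ
      have h1 := hQ q hq
      simp only [Bool.and_eq_true] at h1
      have l0 : q >>> 12 < c.n0 := Nat.le_of_ble_eq_true h1.1
      have l1 : (q >>> 6) &&& 63 < c.n1 := Nat.le_of_ble_eq_true h1.2.1
      have l2 : q &&& 63 < c.n2 := Nat.le_of_ble_eq_true h1.2.2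
      refine ⟨trow_pos _ _ _ _ _ _ _ _ _ l0 l1 l2, trow_mod _ _ _ _ _ _ _ _ _ _ _ _, ?_⟩
      unfold row
      rw [trow_sum]
      exact triple_eq H N l0 l1 l2
    · refine ⟨orow_pos' , orow_mod _ _ _, ?_⟩
      rw [orow_sum _ _ _ _ (m 0 0 0) (fun c => by
        show m 0 0 0 (fo 2 c) = _
        rw [fo_val])]
      exact qe H
    · obtain ⟨u, hu, rfl⟩ := List.mem_map.1 hr
      rw [List.all_eq_true] at hU
      have h1 := vb3_spec (hU u hu)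
      refine ⟨?_, ?_, ?_⟩
      · intro e he
        rw [urow, List.mem_singleton] at he
        subst he
        exact h1
      · intro e he
        rw [urow, List.mem_singleton] at he
        subst he
        simp
      · have h2 := hUz _ (List.mem_map.2 ⟨u, hu, rfl⟩)
        simp only [urow, List.map_cons, List.map_nil, List.sum_cons, List.sum_nil, Int.cast_one,
          one_mul, add_zero]
        exact h2
  have hget : ∀ r, r < c.rows.length → c.rows.getD r [] ∈ c.rows := by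
    intro r hr
    rw [List.getD_eq_getElem _ _ hr]
    exact List.getElem_mem hr
  have key := regular3 (fun r => c.rows.getD r []) c.rows.length (VF3 c.n0 c.n1 c.n2)
    (by rw [card_VF3, hlen']) c.tab
    (fun r hr e he => mem_VF3.2 ((hrow _ (hget r hr)).1 e he))
    (fun r hr e he => (hrow _ (hget r hr)).2.1 e he)
    (fun r hr e he => by
      have h1 := vp3_lt ((hrow _ (hget r hr)).1 e he)
      rw [List.all_eq_true] at hNm
      exact nm_tab (Nat.eq_of_beq_eq_true (hNm e.k (List.mem_range.2 h1))) _ _)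
    (fun r hr => by
      have h1 := chk_spec hchk r hr
      rw [Nat.zero_add] at h1
      show acc c.tab (c.rows.getD r []) = _
      rw [List.getD_eq_getElem _ _ hr]
      exact h1)
    (yy3 c.dr m)
    (fun r hr => (hrow _ (hget r hr)).2.2)
  exact key ⟨k, (a, b)⟩ (mem_VF3.2 hk)

end Ct3

end Pool.Agent.J4H92.CT
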