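import Pool.Agent.J4H92.CT.Sys4

/-!
# Reduction of the collapsed system of four trees
-/

set_option autoImplicit false

namespace Pool.Agent.J4H92.CT

open Module

/-- determinant -/
def det3 (u v w : Fin 3 → ℝ) : ℝ :=
  u 0 * (v 1 * w 2 - v 2 * w 1) + u 1 * (v 2 * w 0 - v 0 * w 2) + u 2 * (v 0 * w 1 - v 1 * w 0)

/-- vector product -/
def crs (v w : Fin 3 → ℝ) : Fin 3 → ℝ :=
  ![v 1 * w 2 - v 2 * w 1, v 2 * w 0 - v 0 * w 2, v 0 * w 1 - v 1 * w 0]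

theorem dot3 (u v : Fin 3 → ℝ) : u ⬝ᵥ v = u 0 * v 0 + u 1 * v 1 + u 2 * v 2 := by
  simp [dotProduct, Fin.sum_univ_three]

/-- the coordinate of a vector orthogonal to `p` and `q` -/
noncomputable def lam (p q m : Fin 3 → ℝ) : ℝ := (m ⬝ᵥ crs p q) / (crs p q ⬝ᵥ crs p q)

theorem crs_ne {p q r : Fin 3 → ℝ} (h : det3 p q r ≠ 0) : crs p q ⬝ᵥ crs p q ≠ 0 := by
  intro h0
  have h1 : crs p q = 0 := by
    funext i
    have h2 := h0
    rw [dot3] at h2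
    have h3 := mul_self_nonneg (crs p q 0)
    have h4 := mul_self_nonneg (crs p q 1)
    have h5 := mul_self_nonneg (crs p q 2)
    fin_cases i
    · show crs p q 0 = 0
      exact mul_self_eq_zero.1 (by linarith)
    · show crs p q 1 = 0
      exact mul_self_eq_zero.1 (by linarith)
    · show crs p q 2 = 0
      exact mul_self_eq_zero.1 (by linarith)
  apply h
  have h2 := congrFun h1 0
  have h3 := congrFun h1 1
  have h4 := congrFun h1 2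
  simp only [crs, Matrix.cons_val, Pi.zero_apply] at h2 h3 h4
  unfold det3
  linear_combination (r 0) * h2 + (r 1) * h3 + (r 2) * h4

theorem eq_lam {p q r m : Fin 3 → ℝ} (h : det3 p q r ≠ 0) (h1 : p ⬝ᵥ m = 0) (h2 : q ⬝ᵥ m = 0)
    (i : Fin 3) : m i = lam p q m * crs p q i := by
  have h3 := crs_ne h
  unfold lam
  rw [div_mul_eq_mul_div, eq_div_iff h3]
  rw [dot3] at h1 h2
  rw [dot3, dot3]
  simp only [crs, Matrix.cons_val]
  have k0 : m 1 * (p 0 * q 1 - p 1 * q 0) - m 2 * (p 2 * q 0 - p 0 * q 2) = 0 := by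
    linear_combination p 0 * h2 - q 0 * h1
  have k1 : m 2 * (p 1 * q 2 - p 2 * q 1) - m 0 * (p 0 * q 1 - p 1 * q 0) = 0 := by
    linear_combination p 1 * h2 - q 1 * h1
  have k2 : m 0 * (p 2 * q 0 - p 0 * q 2) - m 1 * (p 1 * q 2 - p 2 * q 1) = 0 := by
    linear_combination p 2 * h2 - q 2 * h1
  fin_cases i
  · show m 0 * _ = _ * (p 1 * q 2 - p 2 * q 1)
    linear_combination (p 2 * q 0 - p 0 * q 2) * k2 - (p 0 * q 1 - p 1 * q 0) * k1
  · show m 1 * _ = _ * (p 2 * q 0 - p 0 * q 2)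
    linear_combination (p 0 * q 1 - p 1 * q 0) * k0 - (p 1 * q 2 - p 2 * q 1) * k2
  · show m 2 * _ = _ * (p 0 * q 1 - p 1 * q 0)
    linear_combination (p 1 * q 2 - p 2 * q 1) * k1 - (p 2 * q 0 - p 0 * q 2) * k0

theorem dot_lam {p q r m : Fin 3 → ℝ} (h : det3 p q r ≠ 0) (h1 : p ⬝ᵥ m = 0) (h2 : q ⬝ᵥ m = 0)
    (b : Fin 3 → ℝ) : b ⬝ᵥ m = lam p q m * det3 b p q := by
  rw [dot3, eq_lam h h1 h2 0, eq_lam h h1 h2 1, eq_lam h h1 h2 2]
  simp only [crs, Matrix.cons_val, det3]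
  ring

theorem zero_lam {p q r m : Fin 3 → ℝ} (h : det3 p q r ≠ 0) (h1 : p ⬝ᵥ m = 0) (h2 : q ⬝ᵥ m = 0)
    (h3 : lam p q m = 0) : m = 0 := by
  funext i
  rw [eq_lam h h1 h2 i, h3, zero_mul, Pi.zero_apply]

theorem zero_of_three {p q r m : Fin 3 → ℝ} (h : det3 p q r ≠ 0) (h1 : p ⬝ᵥ m = 0)
    (h2 : q ⬝ᵥ m = 0) (h3 : r ⬝ᵥ m = 0) : m = 0 := by
  refine zero_lam h h1 h2 ?_
  have h4 := dot_lam h h1 h2 r
  rw [h3] at h4
  have h5 : det3 r p q = det3 p q r := by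
    unfold det3
    ring
  rw [h5] at h4
  exact (mul_eq_zero.1 h4.symm).resolve_right h

theorem det3_swap (p q r : Fin 3 → ℝ) : det3 q p r = - det3 p q r := by
  unfold det3
  ring

theorem det3_rot (p q r : Fin 3 → ℝ) : det3 q r p = det3 p q r := by
  unfold det3
  ring

/-- all unknowns of the reduced system -/
noncomputable def yy (D : Dr) (m : ℕ → ℕ → ℕ → ℕ → Fin 3 → ℝ) : ℕ → ℕ → ℕ → ℝ
  | 0, a, c => m (a + 1) 0 0 0 (fo 2 c)
  | 1, a, c => m 0 (a + 1) 0 0 (fo 2 c)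
  | 2, a, c => m 0 0 (a + 1) 0 (fo 2 c)
  | 3, a, c => m 0 0 0 (a + 1) (fo 2 c)
  | 4, a, b => lam (D.p0 a) (D.p1 b) (m (a + 1) (b + 1) 0 0)
  | 5, a, b => lam (D.p0 a) (D.p2 b) (m (a + 1) 0 (b + 1) 0)
  | 6, a, b => lam (D.p0 a) (D.p3 b) (m (a + 1) 0 0 (b + 1))
  | 7, a, b => lam (D.p1 a) (D.p2 b) (m 0 (a + 1) (b + 1) 0)
  | 8, a, b => lam (D.p1 a) (D.p3 b) (m 0 (a + 1) 0 (b + 1))
  | 9, a, b => lam (D.p2 a) (D.p3 b) (m 0 0 (a + 1) (b + 1))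
  | _, _, _ => 0

/-- nondegenerate data -/
structure Nd (D : Dr) (n0 n1 n2 n3 : ℕ) : Prop where
  t0 : ∀ a < n1, ∀ b < n2, ∀ c < n3, det3 (D.p1 a) (D.p2 b) (D.p3 c) ≠ 0
  t1 : ∀ a < n0, ∀ b < n2, ∀ c < n3, det3 (D.p0 a) (D.p2 b) (D.p3 c) ≠ 0
  t2 : ∀ a < n0, ∀ b < n1, ∀ c < n3, det3 (D.p0 a) (D.p1 b) (D.p3 c) ≠ 0
  t3 : ∀ a < n0, ∀ b < n1, ∀ c < n2, det3 (D.p0 a) (D.p1 b) (D.p2 c) ≠ 0

/-- the data of a row: four singles, four triples, one quadruple -/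
def qval (p0 p1 p2 p3 b0 b1 b2 b3 c : Fin 3 → ℝ) (x0 x1 x2 x3 : Fin 3 → ℝ)
    (l01 l02 l03 l12 l13 l23 : ℝ) : ℝ :=
  (det3 p1 p2 p3 * (c ⬝ᵥ x0) + -det3 p0 p2 p3 * (c ⬝ᵥ x1) + det3 p0 p1 p3 * (c ⬝ᵥ x2) +
    -det3 p0 p1 p2 * (c ⬝ᵥ x3)) +
  ((det3 p1 p2 p3 * det3 b1 p0 p1 + -det3 p0 p2 p3 * det3 b0 p0 p1) * l01 +
  (det3 p1 p2 p3 * det3 b2 p0 p2 + det3 p0 p1 p3 * det3 b0 p0 p2) * l02 +
  (det3 p1 p2 p3 * det3 b3 p0 p3 + -det3 p0 p1 p2 * det3 b0 p0 p3) * l03 +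
  (-det3 p0 p2 p3 * det3 b2 p1 p2 + det3 p0 p1 p3 * det3 b1 p1 p2) * l12 +
  (-det3 p0 p2 p3 * det3 b3 p1 p3 + -det3 p0 p1 p2 * det3 b1 p1 p3) * l13 +
  (det3 p0 p1 p3 * det3 b3 p2 p3 + -det3 p0 p1 p2 * det3 b2 p2 p3) * l23)

theorem cramer (p0 p1 p2 p3 m : Fin 3 → ℝ) :
    det3 p1 p2 p3 * (p0 ⬝ᵥ m) + -det3 p0 p2 p3 * (p1 ⬝ᵥ m) + det3 p0 p1 p3 * (p2 ⬝ᵥ m) +
      -det3 p0 p1 p2 * (p3 ⬝ᵥ m) = 0 := by
  rw [dot3, dot3, dot3, dot3]
  unfold det3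
  ring

section

variable {D : Dr} {n0 n1 n2 n3 : ℕ} {m : ℕ → ℕ → ℕ → ℕ → Fin 3 → ℝ}
  (H : Sys D n0 n1 n2 n3 m) (N : Nd D n0 n1 n2 n3)

include H N

theorem quad_eq {a b c d : ℕ} (ha : a < n0) (hb : b < n1) (hc : c < n2) (hd : d < n3) :
    qval (D.p0 a) (D.p1 b) (D.p2 c) (D.p3 d) (D.b0 b c d) (D.b1 a c d) (D.b2 a b d) (D.b3 a b c)
      (D.cc a b c d) (m (a + 1) 0 0 0) (m 0 (b + 1) 0 0) (m 0 0 (c + 1) 0) (m 0 0 0 (d + 1))
      (yy D m 4 a b) (yy D m 5 a c) (yy D m 6 a d) (yy D m 7 b c) (yy D m 8 b d)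
      (yy D m 9 c d) = 0 := by
  have e0 := f0123_0 H ha hb hc hd
  have e1 := f0123_1 H ha hb hc hd
  have e2 := f0123_2 H ha hb hc hd
  have e3 := f0123_3 H ha hb hc hd
  have d012 := N.t3 a ha b hb c hc
  have d013 := N.t2 a ha b hb d hd
  have d023 := N.t1 a ha c hc d hd
  have d123 := N.t0 b hb c hc d hd
  have d021 : det3 (D.p0 a) (D.p2 c) (D.p1 b) ≠ 0 := by
    have : det3 (D.p0 a) (D.p2 c) (D.p1 b) = - det3 (D.p0 a) (D.p1 b) (D.p2 c) := by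
      unfold det3
      ring
    rw [this]
    exact neg_ne_zero.2 d012
  have d031 : det3 (D.p0 a) (D.p3 d) (D.p1 b) ≠ 0 := by
    have : det3 (D.p0 a) (D.p3 d) (D.p1 b) = - det3 (D.p0 a) (D.p1 b) (D.p3 d) := by
      unfold det3
      ring
    rw [this]
    exact neg_ne_zero.2 d013
  have d132 : det3 (D.p1 b) (D.p3 d) (D.p2 c) ≠ 0 := by
    have : det3 (D.p1 b) (D.p3 d) (D.p2 c) = - det3 (D.p1 b) (D.p2 c) (D.p3 d) := by
      unfold det3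
      ring
    rw [this]
    exact neg_ne_zero.2 d123
  have d231 : det3 (D.p2 c) (D.p3 d) (D.p1 b) ≠ 0 := by
    rw [det3_rot]
    exact d123
  have k01 := dot_lam d012 (f01_0 H ha hb) (f01_1 H ha hb)
  have k02 := dot_lam d021 (f02_0 H ha hc) (f02_2 H ha hc)
  have k03 := dot_lam d031 (f03_0 H ha hd) (f03_3 H ha hd)
  have k12 := dot_lam d123 (f12_1 H hb hc) (f12_2 H hb hc)
  have k13 := dot_lam d132 (f13_1 H hb hd) (f13_3 H hb hd)
  have k23 := dot_lam d231 (f23_2 H hc hd) (f23_3 H hc hd)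
  rw [k01, k02, k03] at e0
  rw [k01, k12, k13] at e1
  rw [k02, k12, k23] at e2
  rw [k03, k13, k23] at e3
  have hc4 := cramer (D.p0 a) (D.p1 b) (D.p2 c) (D.p3 d) (m (a + 1) (b + 1) (c + 1) (d + 1))
  unfold qval
  simp only [yy]
  linear_combination det3 (D.p1 b) (D.p2 c) (D.p3 d) * e0 - det3 (D.p0 a) (D.p2 c) (D.p3 d) * e1 +
    det3 (D.p0 a) (D.p1 b) (D.p3 d) * e2 - det3 (D.p0 a) (D.p1 b) (D.p2 c) * e3 - hc4

end

/-- valid positions -/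
def Vp (n0 n1 n2 n3 : ℕ) : ℕ → ℕ → ℕ → Prop
  | 0, a, c => a < n0 ∧ c < 3
  | 1, a, c => a < n1 ∧ c < 3
  | 2, a, c => a < n2 ∧ c < 3
  | 3, a, c => a < n3 ∧ c < 3
  | 4, a, b => a < n0 ∧ b < n1
  | 5, a, b => a < n0 ∧ b < n2
  | 6, a, b => a < n0 ∧ b < n3
  | 7, a, b => a < n1 ∧ b < n2
  | 8, a, b => a < n1 ∧ b < n3
  | 9, a, b => a < n2 ∧ b < n3
  | _, _, _ => False

section

variable {D : Dr} {n0 n1 n2 n3 : ℕ} {m : ℕ → ℕ → ℕ → ℕ → Fin 3 → ℝ}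
  (H : Sys D n0 n1 n2 n3 m) (N : Nd D n0 n1 n2 n3) (p1 : 0 < n1) (p2 : 0 < n2)
  (p3 : 0 < n3) (hy : ∀ k a b, Vp n0 n1 n2 n3 k a b → yy D m k a b = 0)

include H N p1 p2 p3 hy

theorem all_zero (h0 : m 0 0 0 0 = 0) {a b c d : ℕ} (ha : a < n0 + 1) (hb : b < n1 + 1)
    (hc : c < n2 + 1) (hd : d < n3 + 1) : m a b c d = 0 := by
  have s0 : ∀ a < n0, m (a + 1) 0 0 0 = 0 := fun a ha => by
    funext i
    have := hy 0 a i ⟨ha, i.2⟩
    simp only [yy, fo_val] at this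
    exact this
  have s1 : ∀ a < n1, m 0 (a + 1) 0 0 = 0 := fun a ha => by
    funext i
    have := hy 1 a i ⟨ha, i.2⟩
    simp only [yy, fo_val] at this
    exact this
  have s2 : ∀ a < n2, m 0 0 (a + 1) 0 = 0 := fun a ha => by
    funext i
    have := hy 2 a i ⟨ha, i.2⟩
    simp only [yy, fo_val] at this
    exact this
  have s3 : ∀ a < n3, m 0 0 0 (a + 1) = 0 := fun a ha => by
    funext i
    have := hy 3 a i ⟨ha, i.2⟩
    simp only [yy, fo_val] at this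
    exact this
  have sw : ∀ p q r : Fin 3 → ℝ, det3 p r q ≠ 0 → det3 p q r ≠ 0 := by
    intro p q r h h'
    apply h
    have : det3 p r q = - det3 p q r := by
      unfold det3
      ring
    rw [this, h', neg_zero]
  have ro : ∀ p q r : Fin 3 → ℝ, det3 r p q ≠ 0 → det3 p q r ≠ 0 := by
    intro p q r h
    rwa [det3_rot r p q] 
  have r01 : ∀ a < n0, ∀ b < n1, m (a + 1) (b + 1) 0 0 = 0 := fun a ha b hb =>
    zero_lam (N.t3 a ha b hb 0 p2) (f01_0 H ha hb) (f01_1 H ha hb) (hy 4 a b ⟨ha, hb⟩)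
  have r02 : ∀ a < n0, ∀ b < n2, m (a + 1) 0 (b + 1) 0 = 0 := fun a ha b hb =>
    zero_lam (sw _ _ _ (N.t3 a ha 0 p1 b hb)) (f02_0 H ha hb) (f02_2 H ha hb) (hy 5 a b ⟨ha, hb⟩)
  have r03 : ∀ a < n0, ∀ b < n3, m (a + 1) 0 0 (b + 1) = 0 := fun a ha b hb =>
    zero_lam (sw _ _ _ (N.t2 a ha 0 p1 b hb)) (f03_0 H ha hb) (f03_3 H ha hb) (hy 6 a b ⟨ha, hb⟩)
  have r12 : ∀ a < n1, ∀ b < n2, m 0 (a + 1) (b + 1) 0 = 0 := fun a ha b hb =>
    zero_lam (N.t0 a ha b hb 0 p3) (f12_1 H ha hb) (f12_2 H ha hb) (hy 7 a b ⟨ha, hb⟩)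
  have r13 : ∀ a < n1, ∀ b < n3, m 0 (a + 1) 0 (b + 1) = 0 := fun a ha b hb =>
    zero_lam (sw _ _ _ (N.t0 a ha 0 p2 b hb)) (f13_1 H ha hb) (f13_3 H ha hb) (hy 8 a b ⟨ha, hb⟩)
  have r23 : ∀ a < n2, ∀ b < n3, m 0 0 (a + 1) (b + 1) = 0 := fun a ha b hb =>
    zero_lam (ro _ _ _ (N.t0 0 p1 a ha b hb)) (f23_2 H ha hb) (f23_3 H ha hb) (hy 9 a b ⟨ha, hb⟩)
  have q012 : ∀ a < n0, ∀ b < n1, ∀ c < n2, m (a + 1) (b + 1) (c + 1) 0 = 0 := by
    intro a ha b hb c hc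
    have e0 := f012_0 H ha hb hc
    have e1 := f012_1 H ha hb hc
    have e2 := f012_2 H ha hb hc
    rw [s0 a ha, dotProduct_zero, add_zero] at e0
    rw [s1 b hb, dotProduct_zero, add_zero] at e1
    rw [s2 c hc, dotProduct_zero, add_zero] at e2
    exact zero_of_three (N.t3 a ha b hb c hc) e0 e1 e2
  have q013 : ∀ a < n0, ∀ b < n1, ∀ c < n3, m (a + 1) (b + 1) 0 (c + 1) = 0 := by
    intro a ha b hb c hc
    have e0 := f013_0 H ha hb hc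
    have e1 := f013_1 H ha hb hc
    have e2 := f013_3 H ha hb hc
    rw [s0 a ha, dotProduct_zero, add_zero] at e0
    rw [s1 b hb, dotProduct_zero, add_zero] at e1
    rw [s3 c hc, dotProduct_zero, add_zero] at e2
    exact zero_of_three (N.t2 a ha b hb c hc) e0 e1 e2
  have q023 : ∀ a < n0, ∀ b < n2, ∀ c < n3, m (a + 1) 0 (b + 1) (c + 1) = 0 := by
    intro a ha b hb c hc
    have e0 := f023_0 H ha hb hc
    have e1 := f023_2 H ha hb hc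
    have e2 := f023_3 H ha hb hc
    rw [s0 a ha, dotProduct_zero, add_zero] at e0
    rw [s2 b hb, dotProduct_zero, add_zero] at e1
    rw [s3 c hc, dotProduct_zero, add_zero] at e2
    exact zero_of_three (N.t1 a ha b hb c hc) e0 e1 e2
  have q123 : ∀ a < n1, ∀ b < n2, ∀ c < n3, m 0 (a + 1) (b + 1) (c + 1) = 0 := by
    intro a ha b hb c hc
    have e0 := f123_1 H ha hb hc
    have e1 := f123_2 H ha hb hc
    have e2 := f123_3 H ha hb hc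
    rw [s1 a ha, dotProduct_zero, add_zero] at e0
    rw [s2 b hb, dotProduct_zero, add_zero] at e1
    rw [s3 c hc, dotProduct_zero, add_zero] at e2
    exact zero_of_three (N.t0 a ha b hb c hc) e0 e1 e2
  have qq : ∀ a < n0, ∀ b < n1, ∀ c < n2, ∀ d < n3, m (a + 1) (b + 1) (c + 1) (d + 1) = 0 := by
    intro a ha b hb c hc d hd
    have e0 := f0123_0 H ha hb hc hd
    have e1 := f0123_1 H ha hb hc hd
    have e2 := f0123_2 H ha hb hc hd
    rw [r01 a ha b hb, r02 a ha c hc, r03 a ha d hd, s0 a ha] at e0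
    rw [r01 a ha b hb, r12 b hb c hc, r13 b hb d hd, s1 b hb] at e1
    rw [r02 a ha c hc, r12 b hb c hc, r23 c hc d hd, s2 c hc] at e2
    simp only [dotProduct_zero, add_zero] at e0 e1 e2
    exact zero_of_three (N.t3 a ha b hb c hc) e0 e1 e2
  rcases a with _ | a <;> rcases b with _ | b <;> rcases c with _ | c <;> rcases d with _ | d
  · exact h0
  · exact s3 d (by omega)
  · exact s2 c (by omega)
  · exact r23 c (by omega) d (by omega)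
  · exact s1 b (by omega)
  · exact r13 b (by omega) d (by omega)
  · exact r12 b (by omega) c (by omega)
  · exact q123 b (by omega) c (by omega) d (by omega)
  · exact s0 a (by omega)
  · exact r03 a (by omega) d (by omega)
  · exact r02 a (by omega) c (by omega)
  · exact q023 a (by omega) c (by omega) d (by omega)
  · exact r01 a (by omega) b (by omega)
  · exact q013 a (by omega) b (by omega) d (by omega)
  · exact q012 a (by omega) b (by omega) c (by omega)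
  · exact qq a (by omega) b (by omega) c (by omega) d (by omega)

end

theorem lam_add (p q m m' : Fin 3 → ℝ) : lam p q (m + m') = lam p q m + lam p q m' := by
  unfold lam
  rw [add_dotProduct, add_div]

theorem lam_smul (p q : Fin 3 → ℝ) (r : ℝ) (m : Fin 3 → ℝ) : lam p q (r • m) = r * lam p q m := by
  unfold lam
  rw [smul_dotProduct, smul_eq_mul, mul_div_assoc]

theorem yy_add (D : Dr) (m m' : ℕ → ℕ → ℕ → ℕ → Fin 3 → ℝ) (k a b : ℕ) :
    yy D (fun a b c d => m a b c d + m' a b c d) k a b = yy D m k a b + yy D m' k a b := by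
  rcases k with _ | _ | _ | _ | _ | _ | _ | _ | _ | _ | k
  all_goals first
    | rfl
    | exact lam_add _ _ _ _
    | exact (add_zero (0 : ℝ)).symm

theorem yy_smul (D : Dr) (r : ℝ) (m : ℕ → ℕ → ℕ → ℕ → Fin 3 → ℝ) (k a b : ℕ) :
    yy D (fun a b c d => r • m a b c d) k a b = r * yy D m k a b := by
  rcases k with _ | _ | _ | _ | _ | _ | _ | _ | _ | _ | k
  all_goals first
    | rfl
    | exact lam_smul _ _ _ _
    | exact (mul_zero r).symm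

theorem mu_of_reg {n0 n1 n2 n3 : ℕ} (τ0 : Par n0) (τ1 : Par n1) (τ2 : Par n2) (τ3 : Par n3)
    (D : Dr) (N : Nd D n0 n1 n2 n3) (p1 : 0 < n1) (p2 : 0 < n2) (p3 : 0 < n3)
    (U : List (ℕ × ℕ × ℕ))
    (hreg : ∀ m, Sys D n0 n1 n2 n3 m → (∀ u ∈ U, yy D m u.1 u.2.1 u.2.2 = 0) →
      ∀ k a b, Vp n0 n1 n2 n3 k a b → yy D m k a b = 0) :
    CP.Mu 0 (3 + U.length) (G4 τ0 τ1 τ2 τ3) := by
  refine collapse4 τ0 τ1 τ2 τ3 (PV D) _ ?_
  let Φ : (V4 n0 n1 n2 n3 → Fin 3 → ℝ) →ₗ[ℝ] (Fin 3 → ℝ) × (Fin U.length → ℝ) :=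
    { toFun := fun M => (MM M 0 0 0 0, fun i => yy D (MM M) (U[i]).1 (U[i]).2.1 (U[i]).2.2)
      map_add' := fun M M' => by
        refine Prod.ext rfl ?_
        funext i
        exact yy_add D (MM M) (MM M') _ _ _
      map_smul' := fun r M => by
        refine Prod.ext rfl ?_
        funext i
        exact yy_smul D r (MM M) _ _ _ }
  have hinj : Function.Injective (Φ.domRestrict (LinearMap.ker (L4 τ0 τ1 τ2 τ3 (PV D) 0))) := by
    rw [injective_iff_map_eq_zero]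
    rintro ⟨M, hM⟩ h0
    rw [Subtype.ext_iff]
    show M = 0
    have h1 : MM M 0 0 0 0 = 0 := congrArg Prod.fst h0
    have h2 : (fun i : Fin U.length => yy D (MM M) (U[i]).1 (U[i]).2.1 (U[i]).2.2) = 0 :=
      congrArg Prod.snd h0
    have H := sys_of_ker τ0 τ1 τ2 τ3 hM
    have h3 := hreg (MM M) H (fun u hu => by
      obtain ⟨i, hi, hiu⟩ := List.mem_iff_getElem.1 hu
      have := congrFun h2 ⟨i, hi⟩
      rw [← hiu]
      exact this)
    funext v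
    obtain ⟨a, b, c, d⟩ := v
    rw [MM_val M]
    exact all_zero H N p1 p2 p3 h3 h1 a.2 b.2 c.2 d.2
  have := LinearMap.finrank_le_finrank_of_injective hinj
  rwa [Module.finrank_prod, Module.finrank_fintype_fun_eq_card,
    Module.finrank_fintype_fun_eq_card, Fintype.card_fin, Fintype.card_fin] at this

end Pool.Agent.J4H92.CT
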