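import Pool.Agent.J4H92.CT.Coll

/-!
# The equations of the collapsed system of four trees
-/

set_option autoImplicit false
set_option linter.unusedSimpArgs false

namespace Pool.Agent.J4H92.CT

open Module

/-- natural version of `spl` -/
def splN (x : ℕ) (F : ℕ → ℕ → ℝ) : ℝ := if x = 0 then F 0 0 else F x 0 + F 0 x

theorem splN_zero (F : ℕ → ℕ → ℝ) : splN 0 F = F 0 0 := by simp [splN]

theorem splN_succ (x : ℕ) (F : ℕ → ℕ → ℝ) : splN (x + 1) F = F (x + 1) 0 + F 0 (x + 1) := by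
  simp [splN]

theorem spl_eq {n : ℕ} (x : Fin (n + 1)) (F : Fin (n + 1) → Fin (n + 1) → ℝ) (G : ℕ → ℕ → ℝ)
    (h : ∀ y z : Fin (n + 1), F y z = G y z) : spl x F = splN x G := by
  unfold spl splN
  by_cases h0 : x = 0
  · subst h0
    rw [if_pos rfl, h]
    simp
  · have h1 : (x : ℕ) ≠ 0 := fun h' => h0 (Fin.ext h')
    rw [if_neg h0, if_neg h1, h, h]
    rfl

/-- data of the collapsed system: directions at one, three, four nonzero coordinates -/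
structure Dr where
  p0 : ℕ → Fin 3 → ℝ
  p1 : ℕ → Fin 3 → ℝ
  p2 : ℕ → Fin 3 → ℝ
  p3 : ℕ → Fin 3 → ℝ
  b0 : ℕ → ℕ → ℕ → Fin 3 → ℝ
  b1 : ℕ → ℕ → ℕ → Fin 3 → ℝ
  b2 : ℕ → ℕ → ℕ → Fin 3 → ℝ
  b3 : ℕ → ℕ → ℕ → Fin 3 → ℝ
  cc : ℕ → ℕ → ℕ → ℕ → Fin 3 → ℝ

/-- the parameters of the collapsed system -/
def PP (D : Dr) : ℕ → ℕ → ℕ → ℕ → Fin 3 → ℝ
  | a + 1, 0, 0, 0 => D.p0 a
  | 0, b + 1, 0, 0 => D.p1 b
  | 0, 0, c + 1, 0 => D.p2 c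
  | 0, 0, 0, d + 1 => D.p3 d
  | 0, b + 1, c + 1, d + 1 => D.b0 b c d
  | a + 1, 0, c + 1, d + 1 => D.b1 a c d
  | a + 1, b + 1, 0, d + 1 => D.b2 a b d
  | a + 1, b + 1, c + 1, 0 => D.b3 a b c
  | a + 1, b + 1, c + 1, d + 1 => D.cc a b c d
  | _, _, _, _ => 0

/-- element of `Fin` -/
def fo (n a : ℕ) : Fin (n + 1) := if h : a < n + 1 then ⟨a, h⟩ else 0

theorem fo_val {n : ℕ} (x : Fin (n + 1)) : fo n x = x := by
  unfold fo
  rw [dif_pos x.2]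

section

variable {n0 n1 n2 n3 : ℕ}

/-- the parameters at the vertices -/
def PV (D : Dr) : V4 n0 n1 n2 n3 → Fin 3 → ℝ := fun v => PP D v.1 v.2.1 v.2.2.1 v.2.2.2

/-- motions with natural arguments -/
def MM (M : V4 n0 n1 n2 n3 → Fin 3 → ℝ) (a b c d : ℕ) : Fin 3 → ℝ :=
  M (fo n0 a, fo n1 b, fo n2 c, fo n3 d)

theorem MM_val (M : V4 n0 n1 n2 n3 → Fin 3 → ℝ) (a : Fin (n0 + 1)) (b : Fin (n1 + 1))
    (c : Fin (n2 + 1)) (d : Fin (n3 + 1)) : M (a, b, c, d) = MM M a b c d := by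
  unfold MM
  rw [fo_val, fo_val, fo_val, fo_val]

end

/-- the collapsed system -/
def Sys (D : Dr) (n0 n1 n2 n3 : ℕ) (m : ℕ → ℕ → ℕ → ℕ → Fin 3 → ℝ) : Prop :=
  ∀ t0 < n0 + 1, ∀ t1 < n1 + 1, ∀ t2 < n2 + 1, ∀ t3 < n3 + 1,
    (t0 ≠ 0 → splN t1 (fun y1 z1 => splN t2 (fun y2 z2 => splN t3 (fun y3 z3 =>
      PP D t0 y1 y2 y3 ⬝ᵥ m t0 z1 z2 z3))) = 0) ∧
    (t1 ≠ 0 → splN t0 (fun y0 z0 => splN t2 (fun y2 z2 => splN t3 (fun y3 z3 =>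
      PP D y0 t1 y2 y3 ⬝ᵥ m z0 t1 z2 z3))) = 0) ∧
    (t2 ≠ 0 → splN t0 (fun y0 z0 => splN t1 (fun y1 z1 => splN t3 (fun y3 z3 =>
      PP D y0 y1 t2 y3 ⬝ᵥ m z0 z1 t2 z3))) = 0) ∧
    (t3 ≠ 0 → splN t0 (fun y0 z0 => splN t1 (fun y1 z1 => splN t2 (fun y2 z2 =>
      PP D y0 y1 y2 t3 ⬝ᵥ m z0 z1 z2 t3))) = 0)

theorem sys_of_ker {n0 n1 n2 n3 : ℕ} (τ0 : Par n0) (τ1 : Par n1) (τ2 : Par n2) (τ3 : Par n3)
    {D : Dr} {M : V4 n0 n1 n2 n3 → Fin 3 → ℝ}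
    (h : M ∈ LinearMap.ker (L4 τ0 τ1 τ2 τ3 (PV D) 0)) : Sys D n0 n1 n2 n3 (MM M) := by
  intro t0 h0 t1 h1 t2 h2 t3 h3
  obtain ⟨e0, e1, e2, e3⟩ := ker_zero τ0 τ1 τ2 τ3 h ⟨t0, h0⟩ ⟨t1, h1⟩ ⟨t2, h2⟩ ⟨t3, h3⟩
  have ne : ∀ {n t : ℕ} (ht : t < n + 1), t ≠ 0 → (⟨t, ht⟩ : Fin (n + 1)) ≠ 0 := by
    intro n t ht h h'
    exact h (congrArg Fin.val h')
  refine ⟨fun hh => ?_, fun hh => ?_, fun hh => ?_, fun hh => ?_⟩
  · rw [← e0 (ne h0 hh)]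
    refine (spl_eq ⟨t1, h1⟩ _ _ fun y1 z1 => spl_eq ⟨t2, h2⟩ _ _ fun y2 z2 =>
      spl_eq ⟨t3, h3⟩ _ _ fun y3 z3 => ?_).symm
    rw [MM_val M]
    rfl
  · rw [← e1 (ne h1 hh)]
    refine (spl_eq ⟨t0, h0⟩ _ _ fun y0 z0 => spl_eq ⟨t2, h2⟩ _ _ fun y2 z2 =>
      spl_eq ⟨t3, h3⟩ _ _ fun y3 z3 => ?_).symm
    rw [MM_val M]
    rfl
  · rw [← e2 (ne h2 hh)]
    refine (spl_eq ⟨t0, h0⟩ _ _ fun y0 z0 => spl_eq ⟨t1, h1⟩ _ _ fun y1 z1 =>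
      spl_eq ⟨t3, h3⟩ _ _ fun y3 z3 => ?_).symm
    rw [MM_val M]
    rfl
  · rw [← e3 (ne h3 hh)]
    refine (spl_eq ⟨t0, h0⟩ _ _ fun y0 z0 => spl_eq ⟨t1, h1⟩ _ _ fun y1 z1 =>
      spl_eq ⟨t2, h2⟩ _ _ fun y2 z2 => ?_).symm
    rw [MM_val M]
    rfl

section

variable {D : Dr} {n0 n1 n2 n3 : ℕ} {m : ℕ → ℕ → ℕ → ℕ → Fin 3 → ℝ}
  (H : Sys D n0 n1 n2 n3 m)

include H

theorem f0_0 {a : ℕ} (ha : a < n0) :
    D.p0 a ⬝ᵥ m (a + 1) 0 0 0 = 0 := by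
  have h := (H (a + 1) (by omega) 0 (by omega) 0 (by omega) 0 (by omega)).1 (Nat.succ_ne_zero _)
  simp only [splN_succ, splN_zero, PP, zero_dotProduct, add_zero, zero_add] at h
  linarith

theorem f1_1 {b : ℕ} (hb : b < n1) :
    D.p1 b ⬝ᵥ m 0 (b + 1) 0 0 = 0 := by
  have h := (H 0 (by omega) (b + 1) (by omega) 0 (by omega) 0 (by omega)).2.1 (Nat.succ_ne_zero _)
  simp only [splN_succ, splN_zero, PP, zero_dotProduct, add_zero, zero_add] at h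
  linarith

theorem f2_2 {c : ℕ} (hc : c < n2) :
    D.p2 c ⬝ᵥ m 0 0 (c + 1) 0 = 0 := by
  have h := (H 0 (by omega) 0 (by omega) (c + 1) (by omega) 0 (by omega)).2.2.1 (Nat.succ_ne_zero _)
  simp only [splN_succ, splN_zero, PP, zero_dotProduct, add_zero, zero_add] at h
  linarith

theorem f3_3 {d : ℕ} (hd : d < n3) :
    D.p3 d ⬝ᵥ m 0 0 0 (d + 1) = 0 := by
  have h := (H 0 (by omega) 0 (by omega) 0 (by omega) (d + 1) (by omega)).2.2.2 (Nat.succ_ne_zero _)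
  simp only [splN_succ, splN_zero, PP, zero_dotProduct, add_zero, zero_add] at h
  linarith

theorem f01_0 {a : ℕ} {b : ℕ} (ha : a < n0) (hb : b < n1) :
    D.p0 a ⬝ᵥ m (a + 1) (b + 1) 0 0 = 0 := by
  have h := (H (a + 1) (by omega) (b + 1) (by omega) 0 (by omega) 0 (by omega)).1 (Nat.succ_ne_zero _)
  simp only [splN_succ, splN_zero, PP, zero_dotProduct, add_zero, zero_add] at h
  linarith

theorem f01_1 {a : ℕ} {b : ℕ} (ha : a < n0) (hb : b < n1) :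
    D.p1 b ⬝ᵥ m (a + 1) (b + 1) 0 0 = 0 := by
  have h := (H (a + 1) (by omega) (b + 1) (by omega) 0 (by omega) 0 (by omega)).2.1 (Nat.succ_ne_zero _)
  simp only [splN_succ, splN_zero, PP, zero_dotProduct, add_zero, zero_add] at h
  linarith

theorem f02_0 {a : ℕ} {c : ℕ} (ha : a < n0) (hc : c < n2) :
    D.p0 a ⬝ᵥ m (a + 1) 0 (c + 1) 0 = 0 := by
  have h := (H (a + 1) (by omega) 0 (by omega) (c + 1) (by omega) 0 (by omega)).1 (Nat.succ_ne_zero _)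
  simp only [splN_succ, splN_zero, PP, zero_dotProduct, add_zero, zero_add] at h
  linarith

theorem f02_2 {a : ℕ} {c : ℕ} (ha : a < n0) (hc : c < n2) :
    D.p2 c ⬝ᵥ m (a + 1) 0 (c + 1) 0 = 0 := by
  have h := (H (a + 1) (by omega) 0 (by omega) (c + 1) (by omega) 0 (by omega)).2.2.1 (Nat.succ_ne_zero _)
  simp only [splN_succ, splN_zero, PP, zero_dotProduct, add_zero, zero_add] at h
  linarith

theorem f03_0 {a : ℕ} {d : ℕ} (ha : a < n0) (hd : d < n3) :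
    D.p0 a ⬝ᵥ m (a + 1) 0 0 (d + 1) = 0 := by
  have h := (H (a + 1) (by omega) 0 (by omega) 0 (by omega) (d + 1) (by omega)).1 (Nat.succ_ne_zero _)
  simp only [splN_succ, splN_zero, PP, zero_dotProduct, add_zero, zero_add] at h
  linarith

theorem f03_3 {a : ℕ} {d : ℕ} (ha : a < n0) (hd : d < n3) :
    D.p3 d ⬝ᵥ m (a + 1) 0 0 (d + 1) = 0 := by
  have h := (H (a + 1) (by omega) 0 (by omega) 0 (by omega) (d + 1) (by omega)).2.2.2 (Nat.succ_ne_zero _)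
  simp only [splN_succ, splN_zero, PP, zero_dotProduct, add_zero, zero_add] at h
  linarith

theorem f12_1 {b : ℕ} {c : ℕ} (hb : b < n1) (hc : c < n2) :
    D.p1 b ⬝ᵥ m 0 (b + 1) (c + 1) 0 = 0 := by
  have h := (H 0 (by omega) (b + 1) (by omega) (c + 1) (by omega) 0 (by omega)).2.1 (Nat.succ_ne_zero _)
  simp only [splN_succ, splN_zero, PP, zero_dotProduct, add_zero, zero_add] at h
  linarith

theorem f12_2 {b : ℕ} {c : ℕ} (hb : b < n1) (hc : c < n2) :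
    D.p2 c ⬝ᵥ m 0 (b + 1) (c + 1) 0 = 0 := by
  have h := (H 0 (by omega) (b + 1) (by omega) (c + 1) (by omega) 0 (by omega)).2.2.1 (Nat.succ_ne_zero _)
  simp only [splN_succ, splN_zero, PP, zero_dotProduct, add_zero, zero_add] at h
  linarith

theorem f13_1 {b : ℕ} {d : ℕ} (hb : b < n1) (hd : d < n3) :
    D.p1 b ⬝ᵥ m 0 (b + 1) 0 (d + 1) = 0 := by
  have h := (H 0 (by omega) (b + 1) (by omega) 0 (by omega) (d + 1) (by omega)).2.1 (Nat.succ_ne_zero _)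
  simp only [splN_succ, splN_zero, PP, zero_dotProduct, add_zero, zero_add] at h
  linarith

theorem f13_3 {b : ℕ} {d : ℕ} (hb : b < n1) (hd : d < n3) :
    D.p3 d ⬝ᵥ m 0 (b + 1) 0 (d + 1) = 0 := by
  have h := (H 0 (by omega) (b + 1) (by omega) 0 (by omega) (d + 1) (by omega)).2.2.2 (Nat.succ_ne_zero _)
  simp only [splN_succ, splN_zero, PP, zero_dotProduct, add_zero, zero_add] at h
  linarith

theorem f23_2 {c : ℕ} {d : ℕ} (hc : c < n2) (hd : d < n3) :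
    D.p2 c ⬝ᵥ m 0 0 (c + 1) (d + 1) = 0 := by
  have h := (H 0 (by omega) 0 (by omega) (c + 1) (by omega) (d + 1) (by omega)).2.2.1 (Nat.succ_ne_zero _)
  simp only [splN_succ, splN_zero, PP, zero_dotProduct, add_zero, zero_add] at h
  linarith

theorem f23_3 {c : ℕ} {d : ℕ} (hc : c < n2) (hd : d < n3) :
    D.p3 d ⬝ᵥ m 0 0 (c + 1) (d + 1) = 0 := by
  have h := (H 0 (by omega) 0 (by omega) (c + 1) (by omega) (d + 1) (by omega)).2.2.2 (Nat.succ_ne_zero _)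
  simp only [splN_succ, splN_zero, PP, zero_dotProduct, add_zero, zero_add] at h
  linarith

theorem f012_0 {a : ℕ} {b : ℕ} {c : ℕ} (ha : a < n0) (hb : b < n1) (hc : c < n2) :
    D.p0 a ⬝ᵥ m (a + 1) (b + 1) (c + 1) 0 + D.b3 a b c ⬝ᵥ m (a + 1) 0 0 0 = 0 := by
  have h := (H (a + 1) (by omega) (b + 1) (by omega) (c + 1) (by omega) 0 (by omega)).1 (Nat.succ_ne_zero _)
  simp only [splN_succ, splN_zero, PP, zero_dotProduct, add_zero, zero_add] at h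
  linarith

theorem f012_1 {a : ℕ} {b : ℕ} {c : ℕ} (ha : a < n0) (hb : b < n1) (hc : c < n2) :
    D.p1 b ⬝ᵥ m (a + 1) (b + 1) (c + 1) 0 + D.b3 a b c ⬝ᵥ m 0 (b + 1) 0 0 = 0 := by
  have h := (H (a + 1) (by omega) (b + 1) (by omega) (c + 1) (by omega) 0 (by omega)).2.1 (Nat.succ_ne_zero _)
  simp only [splN_succ, splN_zero, PP, zero_dotProduct, add_zero, zero_add] at h
  linarith

theorem f012_2 {a : ℕ} {b : ℕ} {c : ℕ} (ha : a < n0) (hb : b < n1) (hc : c < n2) :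
    D.p2 c ⬝ᵥ m (a + 1) (b + 1) (c + 1) 0 + D.b3 a b c ⬝ᵥ m 0 0 (c + 1) 0 = 0 := by
  have h := (H (a + 1) (by omega) (b + 1) (by omega) (c + 1) (by omega) 0 (by omega)).2.2.1 (Nat.succ_ne_zero _)
  simp only [splN_succ, splN_zero, PP, zero_dotProduct, add_zero, zero_add] at h
  linarith

theorem f013_0 {a : ℕ} {b : ℕ} {d : ℕ} (ha : a < n0) (hb : b < n1) (hd : d < n3) :
    D.p0 a ⬝ᵥ m (a + 1) (b + 1) 0 (d + 1) + D.b2 a b d ⬝ᵥ m (a + 1) 0 0 0 = 0 := by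
  have h := (H (a + 1) (by omega) (b + 1) (by omega) 0 (by omega) (d + 1) (by omega)).1 (Nat.succ_ne_zero _)
  simp only [splN_succ, splN_zero, PP, zero_dotProduct, add_zero, zero_add] at h
  linarith

theorem f013_1 {a : ℕ} {b : ℕ} {d : ℕ} (ha : a < n0) (hb : b < n1) (hd : d < n3) :
    D.p1 b ⬝ᵥ m (a + 1) (b + 1) 0 (d + 1) + D.b2 a b d ⬝ᵥ m 0 (b + 1) 0 0 = 0 := by
  have h := (H (a + 1) (by omega) (b + 1) (by omega) 0 (by omega) (d + 1) (by omega)).2.1 (Nat.succ_ne_zero _)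
  simp only [splN_succ, splN_zero, PP, zero_dotProduct, add_zero, zero_add] at h
  linarith

theorem f013_3 {a : ℕ} {b : ℕ} {d : ℕ} (ha : a < n0) (hb : b < n1) (hd : d < n3) :
    D.p3 d ⬝ᵥ m (a + 1) (b + 1) 0 (d + 1) + D.b2 a b d ⬝ᵥ m 0 0 0 (d + 1) = 0 := by
  have h := (H (a + 1) (by omega) (b + 1) (by omega) 0 (by omega) (d + 1) (by omega)).2.2.2 (Nat.succ_ne_zero _)
  simp only [splN_succ, splN_zero, PP, zero_dotProduct, add_zero, zero_add] at h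
  linarith

theorem f023_0 {a : ℕ} {c : ℕ} {d : ℕ} (ha : a < n0) (hc : c < n2) (hd : d < n3) :
    D.p0 a ⬝ᵥ m (a + 1) 0 (c + 1) (d + 1) + D.b1 a c d ⬝ᵥ m (a + 1) 0 0 0 = 0 := by
  have h := (H (a + 1) (by omega) 0 (by omega) (c + 1) (by omega) (d + 1) (by omega)).1 (Nat.succ_ne_zero _)
  simp only [splN_succ, splN_zero, PP, zero_dotProduct, add_zero, zero_add] at h
  linarith

theorem f023_2 {a : ℕ} {c : ℕ} {d : ℕ} (ha : a < n0) (hc : c < n2) (hd : d < n3) :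
    D.p2 c ⬝ᵥ m (a + 1) 0 (c + 1) (d + 1) + D.b1 a c d ⬝ᵥ m 0 0 (c + 1) 0 = 0 := by
  have h := (H (a + 1) (by omega) 0 (by omega) (c + 1) (by omega) (d + 1) (by omega)).2.2.1 (Nat.succ_ne_zero _)
  simp only [splN_succ, splN_zero, PP, zero_dotProduct, add_zero, zero_add] at h
  linarith

theorem f023_3 {a : ℕ} {c : ℕ} {d : ℕ} (ha : a < n0) (hc : c < n2) (hd : d < n3) :
    D.p3 d ⬝ᵥ m (a + 1) 0 (c + 1) (d + 1) + D.b1 a c d ⬝ᵥ m 0 0 0 (d + 1) = 0 := by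
  have h := (H (a + 1) (by omega) 0 (by omega) (c + 1) (by omega) (d + 1) (by omega)).2.2.2 (Nat.succ_ne_zero _)
  simp only [splN_succ, splN_zero, PP, zero_dotProduct, add_zero, zero_add] at h
  linarith

theorem f123_1 {b : ℕ} {c : ℕ} {d : ℕ} (hb : b < n1) (hc : c < n2) (hd : d < n3) :
    D.p1 b ⬝ᵥ m 0 (b + 1) (c + 1) (d + 1) + D.b0 b c d ⬝ᵥ m 0 (b + 1) 0 0 = 0 := by
  have h := (H 0 (by omega) (b + 1) (by omega) (c + 1) (by omega) (d + 1) (by omega)).2.1 (Nat.succ_ne_zero _)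
  simp only [splN_succ, splN_zero, PP, zero_dotProduct, add_zero, zero_add] at h
  linarith

theorem f123_2 {b : ℕ} {c : ℕ} {d : ℕ} (hb : b < n1) (hc : c < n2) (hd : d < n3) :
    D.p2 c ⬝ᵥ m 0 (b + 1) (c + 1) (d + 1) + D.b0 b c d ⬝ᵥ m 0 0 (c + 1) 0 = 0 := by
  have h := (H 0 (by omega) (b + 1) (by omega) (c + 1) (by omega) (d + 1) (by omega)).2.2.1 (Nat.succ_ne_zero _)
  simp only [splN_succ, splN_zero, PP, zero_dotProduct, add_zero, zero_add] at h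
  linarith

theorem f123_3 {b : ℕ} {c : ℕ} {d : ℕ} (hb : b < n1) (hc : c < n2) (hd : d < n3) :
    D.p3 d ⬝ᵥ m 0 (b + 1) (c + 1) (d + 1) + D.b0 b c d ⬝ᵥ m 0 0 0 (d + 1) = 0 := by
  have h := (H 0 (by omega) (b + 1) (by omega) (c + 1) (by omega) (d + 1) (by omega)).2.2.2 (Nat.succ_ne_zero _)
  simp only [splN_succ, splN_zero, PP, zero_dotProduct, add_zero, zero_add] at h
  linarith

theorem f0123_0 {a : ℕ} {b : ℕ} {c : ℕ} {d : ℕ} (ha : a < n0) (hb : b < n1) (hc : c < n2) (hd : d < n3) :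
    D.p0 a ⬝ᵥ m (a + 1) (b + 1) (c + 1) (d + 1) + D.b1 a c d ⬝ᵥ m (a + 1) (b + 1) 0 0 + D.b2 a b d ⬝ᵥ m (a + 1) 0 (c + 1) 0 + D.b3 a b c ⬝ᵥ m (a + 1) 0 0 (d + 1) + D.cc a b c d ⬝ᵥ m (a + 1) 0 0 0 = 0 := by
  have h := (H (a + 1) (by omega) (b + 1) (by omega) (c + 1) (by omega) (d + 1) (by omega)).1 (Nat.succ_ne_zero _)
  simp only [splN_succ, splN_zero, PP, zero_dotProduct, add_zero, zero_add] at h
  linarith

theorem f0123_1 {a : ℕ} {b : ℕ} {c : ℕ} {d : ℕ} (ha : a < n0) (hb : b < n1) (hc : c < n2) (hd : d < n3) :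
    D.p1 b ⬝ᵥ m (a + 1) (b + 1) (c + 1) (d + 1) + D.b0 b c d ⬝ᵥ m (a + 1) (b + 1) 0 0 + D.b2 a b d ⬝ᵥ m 0 (b + 1) (c + 1) 0 + D.b3 a b c ⬝ᵥ m 0 (b + 1) 0 (d + 1) + D.cc a b c d ⬝ᵥ m 0 (b + 1) 0 0 = 0 := by
  have h := (H (a + 1) (by omega) (b + 1) (by omega) (c + 1) (by omega) (d + 1) (by omega)).2.1 (Nat.succ_ne_zero _)
  simp only [splN_succ, splN_zero, PP, zero_dotProduct, add_zero, zero_add] at h
  linarith

theorem f0123_2 {a : ℕ} {b : ℕ} {c : ℕ} {d : ℕ} (ha : a < n0) (hb : b < n1) (hc : c < n2) (hd : d < n3) :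
    D.p2 c ⬝ᵥ m (a + 1) (b + 1) (c + 1) (d + 1) + D.b0 b c d ⬝ᵥ m (a + 1) 0 (c + 1) 0 + D.b1 a c d ⬝ᵥ m 0 (b + 1) (c + 1) 0 + D.b3 a b c ⬝ᵥ m 0 0 (c + 1) (d + 1) + D.cc a b c d ⬝ᵥ m 0 0 (c + 1) 0 = 0 := by
  have h := (H (a + 1) (by omega) (b + 1) (by omega) (c + 1) (by omega) (d + 1) (by omega)).2.2.1 (Nat.succ_ne_zero _)
  simp only [splN_succ, splN_zero, PP, zero_dotProduct, add_zero, zero_add] at h
  linarith

theorem f0123_3 {a : ℕ} {b : ℕ} {c : ℕ} {d : ℕ} (ha : a < n0) (hb : b < n1) (hc : c < n2) (hd : d < n3) :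
    D.p3 d ⬝ᵥ m (a + 1) (b + 1) (c + 1) (d + 1) + D.b0 b c d ⬝ᵥ m (a + 1) 0 0 (d + 1) + D.b1 a c d ⬝ᵥ m 0 (b + 1) 0 (d + 1) + D.b2 a b d ⬝ᵥ m 0 0 (c + 1) (d + 1) + D.cc a b c d ⬝ᵥ m 0 0 0 (d + 1) = 0 := by
  have h := (H (a + 1) (by omega) (b + 1) (by omega) (c + 1) (by omega) (d + 1) (by omega)).2.2.2 (Nat.succ_ne_zero _)
  simp only [splN_succ, splN_zero, PP, zero_dotProduct, add_zero, zero_add] at h
  linarith

end

end Pool.Agent.J4H92.CT
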