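import Pool.Agent.J4H92.CT.Coll3
import Pool.Agent.J4H92.CT.Sys4

/-!
# The equations of the collapsed system of three trees with pins
-/

set_option autoImplicit false
set_option linter.unusedSimpArgs false

namespace Pool.Agent.J4H92.CT

open Module

/-- data of the collapsed system -/
structure Dq where
  p0 : ℕ → Fin 3 → ℝ
  p1 : ℕ → Fin 3 → ℝ
  p2 : ℕ → Fin 3 → ℝ
  pt : ℕ → ℕ → ℕ → Fin 3 → ℝ
  d : Fin 3 → ℝ
  d0 : ℕ → ℕ → Fin 3 → ℝ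
  d1 : ℕ → ℕ → Fin 3 → ℝ
  d2 : ℕ → ℕ → Fin 3 → ℝ
  dt : ℕ → ℕ → ℕ → Fin 3 → ℝ

/-- the directions of the collapsed system -/
def PP3 (D : Dq) : ℕ → ℕ → ℕ → Fin 3 → ℝ
  | a + 1, 0, 0 => D.p0 a
  | 0, b + 1, 0 => D.p1 b
  | 0, 0, c + 1 => D.p2 c
  | a + 1, b + 1, c + 1 => D.pt a b c
  | _, _, _ => 0

/-- the pins of the collapsed system -/
def QQ3 (D : Dq) : ℕ → ℕ → ℕ → Fin 3 → ℝ
  | 0, 0, 0 => D.d
  | 0, b + 1, c + 1 => D.d0 b c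
  | a + 1, 0, c + 1 => D.d1 a c
  | a + 1, b + 1, 0 => D.d2 a b
  | a + 1, b + 1, c + 1 => D.dt a b c
  | _, _, _ => 0

section

variable {n0 n1 n2 : ℕ}

/-- the directions at the vertices -/
def PV3 (D : Dq) : V3 n0 n1 n2 → Fin 3 → ℝ := fun v => PP3 D v.1 v.2.1 v.2.2

/-- the pins at the vertices -/
def QV3 (D : Dq) : V3 n0 n1 n2 → Fin 3 → ℝ := fun v => QQ3 D v.1 v.2.1 v.2.2

/-- motions with natural arguments -/
def MM3 (M : V3 n0 n1 n2 → Fin 3 → ℝ) (a b c : ℕ) : Fin 3 → ℝ := M (fo n0 a, fo n1 b, fo n2 c)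

theorem MM3_val (M : V3 n0 n1 n2 → Fin 3 → ℝ) (a : Fin (n0 + 1)) (b : Fin (n1 + 1))
    (c : Fin (n2 + 1)) : M (a, b, c) = MM3 M a b c := by
  unfold MM3
  rw [fo_val, fo_val, fo_val]

end

/-- the collapsed system -/
def Sys3 (D : Dq) (n0 n1 n2 : ℕ) (m : ℕ → ℕ → ℕ → Fin 3 → ℝ) : Prop :=
  ∀ t0 < n0 + 1, ∀ t1 < n1 + 1, ∀ t2 < n2 + 1,
    (t0 ≠ 0 → splN t1 (fun y1 z1 => splN t2 (fun y2 z2 =>
      PP3 D t0 y1 y2 ⬝ᵥ m t0 z1 z2)) = 0) ∧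
    (t1 ≠ 0 → splN t0 (fun y0 z0 => splN t2 (fun y2 z2 =>
      PP3 D y0 t1 y2 ⬝ᵥ m z0 t1 z2)) = 0) ∧
    (t2 ≠ 0 → splN t0 (fun y0 z0 => splN t1 (fun y1 z1 =>
      PP3 D y0 y1 t2 ⬝ᵥ m z0 z1 t2)) = 0) ∧
    splN t0 (fun y0 z0 => splN t1 (fun y1 z1 => splN t2 (fun y2 z2 =>
      QQ3 D y0 y1 y2 ⬝ᵥ m z0 z1 z2))) = 0

theorem sys_of_ker3 {n0 n1 n2 : ℕ} (τ0 : Par n0) (τ1 : Par n1) (τ2 : Par n2)
    {D : Dq} {M : V3 n0 n1 n2 → Fin 3 → ℝ}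
    (h : M ∈ LinearMap.ker (L3 τ0 τ1 τ2 (PV3 D) (QV3 D) 0)) : Sys3 D n0 n1 n2 (MM3 M) := by
  intro t0 h0 t1 h1 t2 h2
  obtain ⟨e0, e1, e2, e3⟩ := ker_zero3 τ0 τ1 τ2 h ⟨t0, h0⟩ ⟨t1, h1⟩ ⟨t2, h2⟩
  have ne : ∀ {n t : ℕ} (ht : t < n + 1), t ≠ 0 → (⟨t, ht⟩ : Fin (n + 1)) ≠ 0 := by
    intro n t ht h h'
    exact h (congrArg Fin.val h')
  refine ⟨fun hh => ?_, fun hh => ?_, fun hh => ?_, ?_⟩
  · rw [← e0 (ne h0 hh)]
    refine (spl_eq ⟨t1, h1⟩ _ _ fun y1 z1 => spl_eq ⟨t2, h2⟩ _ _ fun y2 z2 => ?_).symm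
    rw [MM3_val M]
    rfl
  · rw [← e1 (ne h1 hh)]
    refine (spl_eq ⟨t0, h0⟩ _ _ fun y0 z0 => spl_eq ⟨t2, h2⟩ _ _ fun y2 z2 => ?_).symm
    rw [MM3_val M]
    rfl
  · rw [← e2 (ne h2 hh)]
    refine (spl_eq ⟨t0, h0⟩ _ _ fun y0 z0 => spl_eq ⟨t1, h1⟩ _ _ fun y1 z1 => ?_).symm
    rw [MM3_val M]
    rfl
  · rw [← e3]
    refine (spl_eq ⟨t0, h0⟩ _ _ fun y0 z0 => spl_eq ⟨t1, h1⟩ _ _ fun y1 z1 =>
      spl_eq ⟨t2, h2⟩ _ _ fun y2 z2 => ?_).symm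
    rw [MM3_val M]
    rfl

section

variable {D : Dq} {n0 n1 n2 : ℕ} {m : ℕ → ℕ → ℕ → Fin 3 → ℝ} (H : Sys3 D n0 n1 n2 m)

include H

theorem g0_0 {a : ℕ} (ha : a < n0) :
    D.p0 a ⬝ᵥ m (a + 1) 0 0 = 0 := by
  have h := (H (a + 1) (by omega) 0 (by omega) 0 (by omega)).1 (Nat.succ_ne_zero _)
  simp only [splN_succ, splN_zero, PP3, zero_dotProduct, add_zero, zero_add] at h
  linarith

theorem g1_1 {b : ℕ} (hb : b < n1) :
    D.p1 b ⬝ᵥ m 0 (b + 1) 0 = 0 := by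
  have h := (H 0 (by omega) (b + 1) (by omega) 0 (by omega)).2.1 (Nat.succ_ne_zero _)
  simp only [splN_succ, splN_zero, PP3, zero_dotProduct, add_zero, zero_add] at h
  linarith

theorem g2_2 {c : ℕ} (hc : c < n2) :
    D.p2 c ⬝ᵥ m 0 0 (c + 1) = 0 := by
  have h := (H 0 (by omega) 0 (by omega) (c + 1) (by omega)).2.2.1 (Nat.succ_ne_zero _)
  simp only [splN_succ, splN_zero, PP3, zero_dotProduct, add_zero, zero_add] at h
  linarith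

theorem g01_0 {a : ℕ} {b : ℕ} (ha : a < n0) (hb : b < n1) :
    D.p0 a ⬝ᵥ m (a + 1) (b + 1) 0 = 0 := by
  have h := (H (a + 1) (by omega) (b + 1) (by omega) 0 (by omega)).1 (Nat.succ_ne_zero _)
  simp only [splN_succ, splN_zero, PP3, zero_dotProduct, add_zero, zero_add] at h
  linarith

theorem g01_1 {a : ℕ} {b : ℕ} (ha : a < n0) (hb : b < n1) :
    D.p1 b ⬝ᵥ m (a + 1) (b + 1) 0 = 0 := by
  have h := (H (a + 1) (by omega) (b + 1) (by omega) 0 (by omega)).2.1 (Nat.succ_ne_zero _)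
  simp only [splN_succ, splN_zero, PP3, zero_dotProduct, add_zero, zero_add] at h
  linarith

theorem g02_0 {a : ℕ} {c : ℕ} (ha : a < n0) (hc : c < n2) :
    D.p0 a ⬝ᵥ m (a + 1) 0 (c + 1) = 0 := by
  have h := (H (a + 1) (by omega) 0 (by omega) (c + 1) (by omega)).1 (Nat.succ_ne_zero _)
  simp only [splN_succ, splN_zero, PP3, zero_dotProduct, add_zero, zero_add] at h
  linarith

theorem g02_2 {a : ℕ} {c : ℕ} (ha : a < n0) (hc : c < n2) :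
    D.p2 c ⬝ᵥ m (a + 1) 0 (c + 1) = 0 := by
  have h := (H (a + 1) (by omega) 0 (by omega) (c + 1) (by omega)).2.2.1 (Nat.succ_ne_zero _)
  simp only [splN_succ, splN_zero, PP3, zero_dotProduct, add_zero, zero_add] at h
  linarith

theorem g12_1 {b : ℕ} {c : ℕ} (hb : b < n1) (hc : c < n2) :
    D.p1 b ⬝ᵥ m 0 (b + 1) (c + 1) = 0 := by
  have h := (H 0 (by omega) (b + 1) (by omega) (c + 1) (by omega)).2.1 (Nat.succ_ne_zero _)
  simp only [splN_succ, splN_zero, PP3, zero_dotProduct, add_zero, zero_add] at h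
  linarith

theorem g12_2 {b : ℕ} {c : ℕ} (hb : b < n1) (hc : c < n2) :
    D.p2 c ⬝ᵥ m 0 (b + 1) (c + 1) = 0 := by
  have h := (H 0 (by omega) (b + 1) (by omega) (c + 1) (by omega)).2.2.1 (Nat.succ_ne_zero _)
  simp only [splN_succ, splN_zero, PP3, zero_dotProduct, add_zero, zero_add] at h
  linarith

theorem g012_0 {a : ℕ} {b : ℕ} {c : ℕ} (ha : a < n0) (hb : b < n1) (hc : c < n2) :
    D.p0 a ⬝ᵥ m (a + 1) (b + 1) (c + 1) + D.pt a b c ⬝ᵥ m (a + 1) 0 0 = 0 := by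
  have h := (H (a + 1) (by omega) (b + 1) (by omega) (c + 1) (by omega)).1 (Nat.succ_ne_zero _)
  simp only [splN_succ, splN_zero, PP3, zero_dotProduct, add_zero, zero_add] at h
  linarith

theorem g012_1 {a : ℕ} {b : ℕ} {c : ℕ} (ha : a < n0) (hb : b < n1) (hc : c < n2) :
    D.p1 b ⬝ᵥ m (a + 1) (b + 1) (c + 1) + D.pt a b c ⬝ᵥ m 0 (b + 1) 0 = 0 := by
  have h := (H (a + 1) (by omega) (b + 1) (by omega) (c + 1) (by omega)).2.1 (Nat.succ_ne_zero _)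
  simp only [splN_succ, splN_zero, PP3, zero_dotProduct, add_zero, zero_add] at h
  linarith

theorem g012_2 {a : ℕ} {b : ℕ} {c : ℕ} (ha : a < n0) (hb : b < n1) (hc : c < n2) :
    D.p2 c ⬝ᵥ m (a + 1) (b + 1) (c + 1) + D.pt a b c ⬝ᵥ m 0 0 (c + 1) = 0 := by
  have h := (H (a + 1) (by omega) (b + 1) (by omega) (c + 1) (by omega)).2.2.1 (Nat.succ_ne_zero _)
  simp only [splN_succ, splN_zero, PP3, zero_dotProduct, add_zero, zero_add] at h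
  linarith

theorem qe   :
    D.d ⬝ᵥ m 0 0 0 = 0 := by
  have h := (H 0 (by omega) 0 (by omega) 0 (by omega)).2.2.2
  simp only [splN_succ, splN_zero, QQ3, zero_dotProduct, add_zero, zero_add] at h
  linarith

theorem q0 {a : ℕ} (ha : a < n0) :
    D.d ⬝ᵥ m (a + 1) 0 0 = 0 := by
  have h := (H (a + 1) (by omega) 0 (by omega) 0 (by omega)).2.2.2
  simp only [splN_succ, splN_zero, QQ3, zero_dotProduct, add_zero, zero_add] at h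
  linarith

theorem q1 {b : ℕ} (hb : b < n1) :
    D.d ⬝ᵥ m 0 (b + 1) 0 = 0 := by
  have h := (H 0 (by omega) (b + 1) (by omega) 0 (by omega)).2.2.2
  simp only [splN_succ, splN_zero, QQ3, zero_dotProduct, add_zero, zero_add] at h
  linarith

theorem q2 {c : ℕ} (hc : c < n2) :
    D.d ⬝ᵥ m 0 0 (c + 1) = 0 := by
  have h := (H 0 (by omega) 0 (by omega) (c + 1) (by omega)).2.2.2
  simp only [splN_succ, splN_zero, QQ3, zero_dotProduct, add_zero, zero_add] at h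
  linarith

theorem q01 {a : ℕ} {b : ℕ} (ha : a < n0) (hb : b < n1) :
    D.d ⬝ᵥ m (a + 1) (b + 1) 0 + D.d2 a b ⬝ᵥ m 0 0 0 = 0 := by
  have h := (H (a + 1) (by omega) (b + 1) (by omega) 0 (by omega)).2.2.2
  simp only [splN_succ, splN_zero, QQ3, zero_dotProduct, add_zero, zero_add] at h
  linarith

theorem q02 {a : ℕ} {c : ℕ} (ha : a < n0) (hc : c < n2) :
    D.d ⬝ᵥ m (a + 1) 0 (c + 1) + D.d1 a c ⬝ᵥ m 0 0 0 = 0 := by
  have h := (H (a + 1) (by omega) 0 (by omega) (c + 1) (by omega)).2.2.2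
  simp only [splN_succ, splN_zero, QQ3, zero_dotProduct, add_zero, zero_add] at h
  linarith

theorem q12 {b : ℕ} {c : ℕ} (hb : b < n1) (hc : c < n2) :
    D.d ⬝ᵥ m 0 (b + 1) (c + 1) + D.d0 b c ⬝ᵥ m 0 0 0 = 0 := by
  have h := (H 0 (by omega) (b + 1) (by omega) (c + 1) (by omega)).2.2.2
  simp only [splN_succ, splN_zero, QQ3, zero_dotProduct, add_zero, zero_add] at h
  linarith

theorem q012 {a : ℕ} {b : ℕ} {c : ℕ} (ha : a < n0) (hb : b < n1) (hc : c < n2) :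
    D.d ⬝ᵥ m (a + 1) (b + 1) (c + 1) + D.d0 b c ⬝ᵥ m (a + 1) 0 0 + D.d1 a c ⬝ᵥ m 0 (b + 1) 0 + D.d2 a b ⬝ᵥ m 0 0 (c + 1) + D.dt a b c ⬝ᵥ m 0 0 0 = 0 := by
  have h := (H (a + 1) (by omega) (b + 1) (by omega) (c + 1) (by omega)).2.2.2
  simp only [splN_succ, splN_zero, QQ3, zero_dotProduct, add_zero, zero_add] at h
  linarith

end

end Pool.Agent.J4H92.CT
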